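import Pool.Agent.Helper25.RC.Energy

/-!
Null sets, residual sets, and the number of representations.
-/

set_option autoImplicit false

open Finset Filter

namespace Pool.Agent.Helper25.RC

open Classical in
/-- the elements of `A` below `x` -/
noncomputable def below (A : Set ℕ) (x : ℕ) : Finset ℕ := {n ∈ range x | n ∈ A}

open Classical in
/-- the number of ordered pairs of elements of `A` with sum `n` -/
noncomputable def rep (A : Set ℕ) (n : ℕ) : ℕ := #{p ∈ antidiagonal n | p.1 ∈ A ∧ p.2 ∈ A}

/-- `A` has `o(√x)` elements below `x` -/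
def Null (A : Set ℕ) : Prop := ∀ ε : ℝ, 0 < ε → ∀ᶠ x : ℕ in atTop, (#(below A x) : ℝ) ≤ ε * √x

/-- the residual set `{n : q n + r ∈ A}` -/
def res (A : Set ℕ) (q r : ℕ) : Set ℕ := {n | q * n + r ∈ A}

theorem mem_below {A : Set ℕ} {x n : ℕ} : n ∈ below A x ↔ n < x ∧ n ∈ A := by
  classical
  simp [below]

theorem below_mono {A B : Set ℕ} (h : A ⊆ B) (x : ℕ) : below A x ⊆ below B x := fun n hn => by
  rw [mem_below] at hn ⊢
  exact ⟨hn.1, h hn.2⟩

theorem below_subset_range (A : Set ℕ) (x : ℕ) : below A x ⊆ range x := fun n hn =>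
  mem_range.2 (mem_below.1 hn).1

theorem Null.mono {A B : Set ℕ} (hB : Null B) (h : A ⊆ B) : Null A := fun ε hε => by
  filter_upwards [hB ε hε] with x hx
  exact le_trans (by exact_mod_cast card_le_card (below_mono h x)) hx

theorem Null.union {A B : Set ℕ} (hA : Null A) (hB : Null B) : Null (A ∪ B) := fun ε hε => by
  classical
  filter_upwards [hA (ε / 2) (by positivity), hB (ε / 2) (by positivity)] with x hx hx'
  have h1 : below (A ∪ B) x ⊆ below A x ∪ below B x := by
    intro n hn
    rw [mem_below] at hn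
    rw [mem_union, mem_below, mem_below]
    rcases hn.2 with h | h
    · exact Or.inl ⟨hn.1, h⟩
    · exact Or.inr ⟨hn.1, h⟩
  have h2 : (#(below (A ∪ B) x) : ℝ) ≤ #(below A x) + #(below B x) := by
    exact_mod_cast (card_le_card h1).trans (card_union_le _ _)
  linarith

theorem Null.symmDiff_comm {A B : Set ℕ} (h : Null (symmDiff A B)) : Null (symmDiff B A) := by
  rwa [_root_.symmDiff_comm]

theorem Null.trans {A B C : Set ℕ} (h : Null (symmDiff A B)) (h' : Null (symmDiff B C)) :
    Null (symmDiff A C) :=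
  (h.union h').mono (symmDiff_triangle A B C)

theorem Null.res {A : Set ℕ} (h : Null A) {q : ℕ} (r : ℕ) (hq : 0 < q) : Null (res A q r) := by
  intro ε hε
  have hc : (0 : ℝ) < √((q : ℝ) + r) := Real.sqrt_pos.2 (by positivity)
  have h1 := h (ε / √((q : ℝ) + r)) (by positivity)
  have ht : Tendsto (fun x : ℕ => q * x + r) atTop atTop := by
    refine tendsto_atTop_mono (fun x => ?_) tendsto_id
    show x ≤ q * x + r
    nlinarith
  filter_upwards [ht.eventually h1, eventually_ge_atTop 1] with x hx hx1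
  have h2 : #(below (RC.res A q r) x) ≤ #(below A (q * x + r)) := by
    refine card_le_card_of_injOn (fun n => q * n + r) ?_ ?_
    · intro n hn
      rw [mem_coe, mem_below] at hn ⊢
      refine ⟨?_, hn.2⟩
      have := Nat.mul_lt_mul_of_pos_left hn.1 hq
      show q * n + r < q * x + r
      omega
    · intro n _ n' _ hnn
      have h3 : q * n + r = q * n' + r := hnn
      exact Nat.eq_of_mul_eq_mul_left hq (by omega)
  have h3 : √((q * x + r : ℕ) : ℝ) ≤ √((q : ℝ) + r) * √x := by
    rw [← Real.sqrt_mul (by positivity)]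
    apply Real.sqrt_le_sqrt
    push_cast
    have : (1 : ℝ) ≤ x := by exact_mod_cast hx1
    nlinarith [(Nat.cast_nonneg r : (0 : ℝ) ≤ (r : ℝ))]
  calc (#(below (RC.res A q r) x) : ℝ) ≤ #(below A (q * x + r)) := by exact_mod_cast h2
    _ ≤ ε / √((q : ℝ) + r) * √((q * x + r : ℕ) : ℝ) := hx
    _ ≤ ε / √((q : ℝ) + r) * (√((q : ℝ) + r) * √x) := by gcongr
    _ = ε * √x := by field_simp

theorem not_null_iff {A : Set ℕ} : ¬ Null A ↔
    ∃ ε : ℝ, 0 < ε ∧ ∃ᶠ x : ℕ in atTop, ε * √x < (#(below A x) : ℝ) := by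
  unfold Null
  push Not
  exact Iff.rfl

/-- the number of representations by the elements below `x` is at most `rep` -/
theorem repF_below_le (A : Set ℕ) (x n : ℕ) : repF (below A x) n ≤ rep A n := by
  classical
  unfold repF rep
  refine card_le_card ?_
  intro p hp
  rw [mem_filter, mem_product, mem_below, mem_below] at hp
  rw [mem_filter, HasAntidiagonal.mem_antidiagonal]
  exact ⟨hp.2, hp.1.1.2, hp.1.2.2⟩

end Pool.Agent.Helper25.RC
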