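import Pool.Agent.Helper51.SV.UnionB
import Pool.Agent.Helper51.SV.Rel
import Pool.Agent.Helper5.RC.Sharp
import Pool.Agent.Helper25.SQ.Final

/-!
Asymptotic bases with many elements in a sieved set.
-/

set_option autoImplicit false

open Finset Filter

namespace Pool.Agent.Helper25.RC

/-- an asymptotic basis with small energy and with as many squares as possible -/
theorem basis_squares : ∃ (A : Set ℕ) (c C : ℝ), 0 < c ∧ (∀ᶠ n : ℕ in atTop, 1 ≤ rep A n) ∧
    (∀ x : ℕ, 2 ≤ x →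
      c * √x / Real.log x ^ (1 / 4 : ℝ) ≤ #(below (A ∩ {n | IsSquare n}) x)) ∧
    ∀ x : ℕ, ∑ n ∈ range x, (rep A n : ℝ) ^ 2 ≤ C * x := by
  obtain ⟨B, c, C, hc, h1, h2, h3⟩ := Pool.Agent.Helper25.SQ.sq_sharp
  obtain ⟨A, C', hBA, hA1, hA2⟩ := Pool.Agent.Helper51.Rel.basis_union h3
  refine ⟨A, c, C', hc, hA1, fun x hx => (h2 x hx).trans ?_, hA2⟩
  have h4 : B ⊆ A ∩ {n | IsSquare n} := fun b hb => ⟨hBA hb, h1 b hb⟩
  exact_mod_cast card_le_card (below_mono h4 x)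

/-- the bounds for chains of moduli are exact, for asymptotic bases -/
theorem basis_iff (m : ℕ → ℕ) (L : ℕ) (N : ℕ → ℝ) (hdvd : ∀ j, m j ∣ m (j + 1))
    (hlt : ∀ j, m j < m (j + 1)) (hL : ∀ j, m (j + 1) ≤ L * m j) (hN : ∀ j, 0 < N j) :
    (∃ (A T : Set ℕ) (C : ℝ), (∀ᶠ n : ℕ in atTop, 1 ≤ rep A n) ∧
      (∀ x : ℕ, 2 ≤ x → √x ≤ C * #(below (A ∩ T) x)) ∧
      (∀ x : ℕ, ∑ n ∈ range x, (rep A n : ℝ) ^ 2 ≤ C * x) ∧
      ∀ j, (classes T (m j) : ℝ) ≤ C * N j) ↔ Summable fun j => (m j : ℝ) / N j ^ 2 := by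
  have hch : Pool.Agent.Helper3.RC.Chain m := ⟨chain_pos hlt hdvd 0, hdvd, fun j => by
    have := chain_two hlt hdvd (Nat.le_succ j)
    simpa using this⟩
  have hiff := Pool.Agent.Helper5.RC.sharp_iff hch hL hN
  constructor
  · rintro ⟨A, T, C, _, h1, h2, h3⟩
    refine hiff.1 ⟨A ∩ T, C, h1, fun x => ?_, fun j => ?_⟩
    · exact (Pool.Agent.Helper51.Rel.sum_rep_mono Set.inter_subset_left _).trans (h2 x)
    · refine le_trans ?_ (h3 j)
      exact_mod_cast classes_mono (A := A ∩ T) (B := T) Set.inter_subset_right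
        (chain_pos hlt hdvd j)
  · intro hs
    obtain ⟨B, C, h1, h2, h3⟩ := hiff.2 hs
    obtain ⟨A, C', hBA, hA1, hA2⟩ := Pool.Agent.Helper51.Rel.basis_union h2
    refine ⟨A, B, max C C', hA1, fun x hx => ?_, fun x => ?_, fun j => ?_⟩
    · refine (h1 x hx).trans ?_
      have h4 : A ∩ B = B := Set.inter_eq_self_of_subset_right hBA
      rw [h4]
      gcongr
      exact le_max_left _ _
    · refine (hA2 x).trans ?_
      gcongr
      exact le_max_right _ _
    · refine le_trans (h3 j) ?_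
      have := (hN j).le
      gcongr
      exact le_max_left _ _

end Pool.Agent.Helper25.RC
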