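import Pool.Agent.Helper25.RC.Coprime

/-!
Divisibility chains: a set which is not null and whose number of representations is bounded in
mean square has `∑ m_j / ν(m_j)^2 < ∞`.
-/

set_option autoImplicit false

open Finset Filter

namespace Pool.Agent.Helper25.RC

theorem geom_le {c : ℝ} (hc0 : 0 ≤ c) (hc : c < 1) (n : ℕ) :
    ∑ k ∈ range n, c ^ k ≤ 1 / (1 - c) := by
  have h1 : (0 : ℝ) < 1 - c := by linarith
  rw [le_div_iff₀ h1, mul_comm, mul_neg_geom_sum]
  have : 0 ≤ c ^ n := by positivity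
  linarith

theorem geom_two_sided {c : ℝ} (hc0 : 0 ≤ c) (hc : c < 1) (i J : ℕ) :
    ∑ l ∈ range J, c ^ ((i - l) + (l - i)) ≤ 2 / (1 - c) := by
  have h1 : ∑ l ∈ range J, c ^ ((i - l) + (l - i)) ≤
      ∑ l ∈ range ((i + 1) + J), c ^ ((i - l) + (l - i)) := by
    refine Finset.sum_le_sum_of_subset_of_nonneg ?_ fun l _ _ => by positivity
    exact range_subset_range.2 (Nat.le_add_left _ _)
  refine h1.trans ?_
  rw [Finset.sum_range_add]
  have h2 : ∑ l ∈ range (i + 1), c ^ ((i - l) + (l - i)) = ∑ k ∈ range (i + 1), c ^ k := by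
    rw [← Finset.sum_range_reflect (fun k => c ^ k) (i + 1)]
    refine Finset.sum_congr rfl fun l hl => ?_
    have := mem_range.1 hl
    congr 1
    omega
  have h3 : ∑ l ∈ range J, c ^ ((i - (i + 1 + l)) + ((i + 1 + l) - i)) ≤
      ∑ l ∈ range J, c ^ l := by
    refine Finset.sum_le_sum fun l _ => ?_
    have h4 : (i - (i + 1 + l)) + ((i + 1 + l) - i) = l + 1 := by omega
    rw [h4]
    exact pow_le_pow_of_le_one hc0 hc.le (Nat.le_succ l)
  rw [h2]
  have h4 := geom_le hc0 hc (i + 1)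
  have h5 := geom_le hc0 hc J
  have h6 : 2 / (1 - c) = 1 / (1 - c) + 1 / (1 - c) := by ring
  rw [h6]
  exact add_le_add h4 (h3.trans h5)

theorem chain_dvd {m : ℕ → ℕ} (hdvd : ∀ j, m j ∣ m (j + 1)) {i j : ℕ} (h : i ≤ j) :
    m i ∣ m j := by
  induction j, h using Nat.le_induction with
  | base => exact dvd_rfl
  | succ n _ ih => exact ih.trans (hdvd n)

theorem chain_pos {m : ℕ → ℕ} (hlt : ∀ j, m j < m (j + 1)) (hdvd : ∀ j, m j ∣ m (j + 1)) (j : ℕ) :
    0 < m j := by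
  rw [Nat.pos_iff_ne_zero]
  intro h0
  have h1 := hdvd j
  rw [h0, zero_dvd_iff] at h1
  have h2 := hlt j
  rw [h0, h1] at h2
  exact lt_irrefl _ h2

theorem chain_two {m : ℕ → ℕ} (hlt : ∀ j, m j < m (j + 1)) (hdvd : ∀ j, m j ∣ m (j + 1))
    {i j : ℕ} (h : i ≤ j) : 2 ^ (j - i) * m i ≤ m j := by
  induction j, h using Nat.le_induction with
  | base => simp
  | succ n hn ih =>
    have h1 : 2 * m n ≤ m (n + 1) := by
      obtain ⟨c, hc⟩ := hdvd n
      have h2 := hlt n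
      have h3 : 2 ≤ c := by
        by_contra hcon
        push Not at hcon
        interval_cases c
        · rw [hc] at h2; simp at h2
        · rw [hc] at h2; simp at h2
      rw [hc, mul_comm]
      exact Nat.mul_le_mul_left _ h3
    have h2 : n + 1 - i = (n - i) + 1 := by omega
    rw [h2, pow_succ]
    calc 2 ^ (n - i) * 2 * m i = 2 * (2 ^ (n - i) * m i) := by ring
      _ ≤ 2 * m n := Nat.mul_le_mul_left _ ih
      _ ≤ m (n + 1) := h1

theorem half_bound : 2 / (1 - √(1 / 2 : ℝ)) ≤ 7 := by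
  have h1 : √(1 / 2 : ℝ) ≤ 5 / 7 := by
    rw [show (5 / 7 : ℝ) = √((5 / 7) ^ 2) from (Real.sqrt_sq (by norm_num)).symm]
    apply Real.sqrt_le_sqrt
    norm_num
  rw [div_le_iff₀ (by linarith)]
  linarith

/-- the gcd sum for a chain -/
theorem chain_gcd_sum {m : ℕ → ℕ} (hlt : ∀ j, m j < m (j + 1)) (hdvd : ∀ j, m j ∣ m (j + 1))
    (v : ℕ → ℝ) (hv : ∀ j, 0 ≤ v j) (J : ℕ) :
    ∑ i ∈ range J, ∑ l ∈ range J, v i * v l * (Nat.gcd (m i) (m l) : ℝ) ≤
      7 * ∑ i ∈ range J, m i * v i ^ 2 := by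
  set c : ℝ := √(1 / 2 : ℝ) with hc
  have hc0 : 0 ≤ c := Real.sqrt_nonneg _
  have hc2 : c ^ 2 = 1 / 2 := Real.sq_sqrt (by norm_num)
  have hc1 : c < 1 := by nlinarith
  have hlt' : ∀ i l, i ≤ l → (Nat.gcd (m i) (m l) : ℝ) ≤ c ^ (l - i) * (√(m i) * √(m l)) := by
    intro i l hil
    have hi : (0 : ℝ) < m i := by exact_mod_cast chain_pos hlt hdvd i
    have h1 : (Nat.gcd (m i) (m l) : ℝ) ≤ m i := by
      exact_mod_cast Nat.gcd_le_left _ (chain_pos hlt hdvd i)
    have h2 : √(m i : ℝ) ≤ c ^ (l - i) * √(m l) := by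
      have h3 : c ^ (l - i) = √((1 / 2 : ℝ) ^ (l - i)) := by
        rw [← hc2, ← pow_mul, mul_comm, pow_mul, Real.sqrt_sq (by positivity)]
      rw [h3, ← Real.sqrt_mul (by positivity)]
      apply Real.sqrt_le_sqrt
      have h4 := chain_two hlt hdvd hil
      have h5 : (2 : ℝ) ^ (l - i) * m i ≤ m l := by exact_mod_cast h4
      rw [one_div, inv_pow, inv_mul_eq_div, le_div_iff₀ (by positivity), mul_comm]
      exact h5
    calc (Nat.gcd (m i) (m l) : ℝ) ≤ m i := h1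
      _ = √(m i : ℝ) * √(m i : ℝ) := (Real.mul_self_sqrt hi.le).symm
      _ ≤ √(m i : ℝ) * (c ^ (l - i) * √(m l)) := by gcongr
      _ = _ := by ring
  have hall : ∀ i l, (Nat.gcd (m i) (m l) : ℝ) ≤
      c ^ ((i - l) + (l - i)) * (√(m i) * √(m l)) := by
    intro i l
    rcases le_total i l with h | h
    · have : (i - l) + (l - i) = l - i := by omega
      rw [this]
      exact hlt' i l h
    · have : (i - l) + (l - i) = i - l := by omega
      rw [this, Nat.gcd_comm, mul_comm (√(m i : ℝ))]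
      exact hlt' l i h
  have hterm : ∀ i l, v i * v l * (Nat.gcd (m i) (m l) : ℝ) ≤
      c ^ ((i - l) + (l - i)) * (m i * v i ^ 2) / 2 + c ^ ((l - i) + (i - l)) * (m l * v l ^ 2) / 2 := by
    intro i l
    have h1 : v i * v l * (Nat.gcd (m i) (m l) : ℝ) ≤
        v i * v l * (c ^ ((i - l) + (l - i)) * (√(m i) * √(m l))) :=
      mul_le_mul_of_nonneg_left (hall i l) (mul_nonneg (hv i) (hv l))
    have h2 : v i * v l * (√(m i) * √(m l)) ≤ (m i * v i ^ 2 + m l * v l ^ 2) / 2 := by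
      have h3 : √(m i : ℝ) ^ 2 = m i := Real.sq_sqrt (Nat.cast_nonneg _)
      have h4 : √(m l : ℝ) ^ 2 = m l := Real.sq_sqrt (Nat.cast_nonneg _)
      nlinarith [sq_nonneg (v i * √(m i : ℝ) - v l * √(m l : ℝ))]
    have h5 : 0 ≤ c ^ ((i - l) + (l - i)) := by positivity
    have h6 := mul_le_mul_of_nonneg_left h2 h5
    have h7 : (l - i) + (i - l) = (i - l) + (l - i) := Nat.add_comm _ _
    rw [h7]
    calc v i * v l * (Nat.gcd (m i) (m l) : ℝ)
        ≤ v i * v l * (c ^ ((i - l) + (l - i)) * (√(m i) * √(m l))) := h1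
      _ = c ^ ((i - l) + (l - i)) * (v i * v l * (√(m i) * √(m l))) := by ring
      _ ≤ c ^ ((i - l) + (l - i)) * ((m i * v i ^ 2 + m l * v l ^ 2) / 2) := h6
      _ = _ := by ring
  have hsum : ∑ i ∈ range J, ∑ l ∈ range J, v i * v l * (Nat.gcd (m i) (m l) : ℝ) ≤
      ∑ i ∈ range J, ∑ l ∈ range J, c ^ ((i - l) + (l - i)) * (m i * v i ^ 2) := by
    calc ∑ i ∈ range J, ∑ l ∈ range J, v i * v l * (Nat.gcd (m i) (m l) : ℝ)
        ≤ ∑ i ∈ range J, ∑ l ∈ range J, (c ^ ((i - l) + (l - i)) * (m i * v i ^ 2) / 2 +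
          c ^ ((l - i) + (i - l)) * (m l * v l ^ 2) / 2) :=
          Finset.sum_le_sum fun i _ => Finset.sum_le_sum fun l _ => hterm i l
      _ = ∑ i ∈ range J, ∑ l ∈ range J, c ^ ((i - l) + (l - i)) * (m i * v i ^ 2) / 2 +
          ∑ i ∈ range J, ∑ l ∈ range J, c ^ ((l - i) + (i - l)) * (m l * v l ^ 2) / 2 := by
          simp only [Finset.sum_add_distrib]
      _ = ∑ i ∈ range J, ∑ l ∈ range J, c ^ ((i - l) + (l - i)) * (m i * v i ^ 2) / 2 +
          ∑ i ∈ range J, ∑ l ∈ range J, c ^ ((i - l) + (l - i)) * (m i * v i ^ 2) / 2 := by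
          congr 1
          rw [Finset.sum_comm]
      _ = _ := by
          rw [← Finset.sum_add_distrib]
          refine Finset.sum_congr rfl fun i _ => ?_
          rw [← Finset.sum_add_distrib]
          refine Finset.sum_congr rfl fun l _ => ?_
          ring
  refine hsum.trans ?_
  rw [Finset.mul_sum]
  refine Finset.sum_le_sum fun i _ => ?_
  rw [← Finset.sum_mul]
  have h1 := (geom_two_sided hc0 hc1 i J).trans half_bound
  exact mul_le_mul_of_nonneg_right h1 (mul_nonneg (Nat.cast_nonneg _) (sq_nonneg _))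

/-- Part (1), chains. -/
theorem part1c {A : Set ℕ} (hA : ¬ Null A) {K : ℝ}
    (hK : ∀ᶠ x : ℕ in atTop, ∑ n ∈ range x, (rep A n : ℝ) ^ 2 ≤ K * x) {m : ℕ → ℕ}
    (hdvd : ∀ j, m j ∣ m (j + 1)) (hlt : ∀ j, m j < m (j + 1)) :
    Summable fun j => (m j : ℝ) / (nu A (m j) : ℝ) ^ 2 := by
  classical
  obtain ⟨δ, hδ, hfx⟩ := not_null_iff.1 hA
  set K' : ℝ := max K 1 with hK'
  have hK0 : 0 < K' := lt_of_lt_of_le one_pos (le_max_right _ _)
  refine summable_of_sum_range_le (c := 168 * K' / δ ^ 4)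
    (fun j => div_nonneg (Nat.cast_nonneg _) (sq_nonneg _)) fun J => ?_
  have hmono : StrictMono m := strictMono_nat_of_lt_succ hlt
  set Q : Finset ℕ := (range J).image m with hQ
  have hmpos : ∀ j, 0 < m j := chain_pos hlt hdvd
  have hν : ∀ j, (0 : ℝ) < nu A (m j) := by
    intro j
    exact_mod_cast nu_pos hA (hmpos j)
  have hQM : ∀ q ∈ Q, q ∣ m J := by
    intro q hq
    obtain ⟨i, hi, rfl⟩ := mem_image.1 hq
    exact chain_dvd hdvd (mem_range.1 hi).le
  set ε : ℝ := δ / 4 with hε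
  have hε0 : 0 < ε := by positivity
  have hE1 : ∀ᶠ x : ℕ in atTop, ∀ i ∈ range J, ε * √x ≤ #(below A x) →
      ((#(below A x) : ℝ) - ε * √x) ^ 2 ≤ nu A (m i) * (cong (below A x) (m i) : ℝ) := by
    rw [Filter.eventually_all_finset]
    intro i _
    exact cong_ge_nu A (hmpos i) hε0
  have ht : Tendsto (fun x : ℕ => 2 * x) atTop atTop :=
    tendsto_atTop_mono (fun x => by show x ≤ 2 * x; omega) tendsto_id
  obtain ⟨x, hxT, hx1, hx2, hx3, hx4⟩ := (hfx.and_eventually (hE1.and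
    ((eventually_ge_atTop (m J)).and
    ((ht.eventually hK).and (eventually_ge_atTop 1))))).exists
  set S := below A x with hS
  have hSx : S ⊆ range x := below_subset_range A x
  have hxr : (1 : ℝ) ≤ x := by exact_mod_cast hx4
  set T : ℝ := (#S : ℝ) with hT
  have hs0 : (0 : ℝ) < √x := Real.sqrt_pos.2 (by linarith)
  have hTpos : 0 < T := lt_of_le_of_lt (by positivity) hxT
  have hTε : 4 * (ε * √x) ≤ T := by
    have : 4 * (ε * √x) = δ * √x := by rw [hε]; ring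
    linarith
  have hTε' : ε * √x ≤ T := by
    have : 0 < ε * √x := by positivity
    linarith
  have hcong : ∀ i ∈ range J, T ^ 2 / 2 / nu A (m i) ≤ (cong S (m i) : ℝ) := by
    intro i hi
    have h1 := hx1 i hi hTε'
    rw [div_le_iff₀ (hν i)]
    have h2 : T ^ 2 / 2 ≤ (T - ε * √x) ^ 2 := by
      have h3 : 3 / 4 * T ≤ T - ε * √x := by linarith
      nlinarith
    linarith
  have hen := energy S hSx (hmpos J) hx2 Q hQM (fun q => 1 / (nu A q : ℝ))
  simp only [hQ] at hen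
  rw [Finset.sum_image hmono.injective.injOn, Finset.sum_image hmono.injective.injOn,
    Finset.sum_congr rfl (fun i _ => Finset.sum_image hmono.injective.injOn)] at hen
  have hg := chain_gcd_sum hlt hdvd (fun j => 1 / (nu A (m j) : ℝ))
    (fun j => by have := hν j; positivity) J
  set Y : ℝ := ∑ j ∈ range J, (m j : ℝ) / (nu A (m j) : ℝ) ^ 2 with hY
  have hY0 : 0 ≤ Y := Finset.sum_nonneg fun j _ => div_nonneg (Nat.cast_nonneg _) (sq_nonneg _)
  have hg' : ∑ i ∈ range J, (m i : ℝ) * (1 / (nu A (m i) : ℝ)) ^ 2 = Y := by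
    rw [hY]
    refine Finset.sum_congr rfl fun i _ => ?_
    rw [one_div, inv_pow]; rfl
  rw [hg'] at hg
  have hsum : T ^ 2 / 2 * Y ≤
      ∑ i ∈ range J, 1 / (nu A (m i) : ℝ) * (m i * (cong S (m i) : ℝ)) := by
    rw [hY, Finset.mul_sum]
    refine Finset.sum_le_sum fun i hi => ?_
    have h1 := mul_le_mul_of_nonneg_left (hcong i hi)
      (show (0 : ℝ) ≤ m i / nu A (m i) from div_nonneg (Nat.cast_nonneg _) (hν i).le)
    have h2 := (hν i).ne'
    calc T ^ 2 / 2 * ((m i : ℝ) / (nu A (m i) : ℝ) ^ 2) =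
          (m i : ℝ) / nu A (m i) * (T ^ 2 / 2 / nu A (m i)) := by field_simp
      _ ≤ (m i : ℝ) / nu A (m i) * (cong S (m i) : ℝ) := h1
      _ = _ := by ring
  have hE : ∑ n ∈ range (2 * x), (repF S n : ℝ) ^ 2 ≤ 2 * K' * x := by
    calc ∑ n ∈ range (2 * x), (repF S n : ℝ) ^ 2 ≤ ∑ n ∈ range (2 * x), (rep A n : ℝ) ^ 2 := by
          refine Finset.sum_le_sum fun n _ => ?_
          have : (repF S n : ℝ) ≤ rep A n := by exact_mod_cast repF_below_le A x n
          gcongr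
      _ ≤ K * ((2 * x : ℕ) : ℝ) := hx3
      _ ≤ K' * ((2 * x : ℕ) : ℝ) := by
          gcongr
          exact le_max_left _ _
      _ = 2 * K' * x := by push_cast; ring
  have hT2 : δ ^ 2 * x ≤ T ^ 2 := by
    have h1 : (δ * √x) ^ 2 ≤ T ^ 2 := by gcongr
    rwa [mul_pow, Real.sq_sqrt (by positivity)] at h1
  have h1 : (T ^ 2 / 2 * Y) ^ 2 ≤ 3 * x * (2 * K' * x) * (7 * Y) := by
    calc (T ^ 2 / 2 * Y) ^ 2
        ≤ (∑ i ∈ range J, 1 / (nu A (m i) : ℝ) * (m i * (cong S (m i) : ℝ))) ^ 2 := by gcongr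
      _ ≤ _ := hen
      _ ≤ 3 * x * (2 * K' * x) * (7 * Y) := by gcongr
  have h2 : (δ ^ 2 * x / 2 * Y) ^ 2 ≤ (T ^ 2 / 2 * Y) ^ 2 := by gcongr
  rcases hY0.eq_or_lt with h0 | h0
  · rw [← h0]; positivity
  have h3 : (x ^ 2 * Y / 4) * (δ ^ 4 * Y) ≤ (x ^ 2 * Y / 4) * (168 * K') := by
    calc ((x : ℝ) ^ 2 * Y / 4) * (δ ^ 4 * Y) = (δ ^ 2 * x / 2 * Y) ^ 2 := by ring
      _ ≤ 3 * x * (2 * K' * x) * (7 * Y) := h2.trans h1
      _ = (x ^ 2 * Y / 4) * (168 * K') := by ring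
  have h4 : δ ^ 4 * Y ≤ 168 * K' := le_of_mul_le_mul_left h3 (by positivity)
  rw [le_div_iff₀ (by positivity)]
  linarith

end Pool.Agent.Helper25.RC
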