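import Pool.Agent.Helper25.RC.Defs

/-!
A set which is not null and whose number of representations is bounded in mean square is not null
in more than `C √q` residue classes modulo `q`, for all large `q`.
-/

set_option autoImplicit false

open Finset Filter

namespace Pool.Agent.Helper25.RC

theorem gcd_aux {a b k g : ℝ} (ha : 0 < a) (hk : 0 < k) (hb : k * a ≤ b) (hg0 : 0 ≤ g)
    (hg : g ≤ a ^ 2) : 1 / a * (1 / b) * g ≤ 1 / k := by
  have hka : 0 < k * a := by positivity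
  calc 1 / a * (1 / b) * g ≤ 1 / a * (1 / (k * a)) * a ^ 2 := by gcongr
    _ = 1 / k := by field_simp

/-- the gcd sum for sparse moduli -/
theorem gcd_sum {Q : Finset ℕ} {k : ℕ} (hk : #Q = k) (hk0 : 0 < k) (hpos : ∀ q ∈ Q, 0 < q)
    (hgap : ∀ q ∈ Q, ∀ q' ∈ Q, q < q' → k ^ 2 * q ≤ q') :
    ∑ q ∈ Q, ∑ q' ∈ Q, (1 / √(q : ℝ)) * (1 / √(q' : ℝ)) * (Nat.gcd q q' : ℝ) ≤ 2 * k := by
  classical
  have hk' : (0 : ℝ) < k := by exact_mod_cast hk0
  have hlt : ∀ q ∈ Q, ∀ q' ∈ Q, q < q' →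
      (1 / √(q : ℝ)) * (1 / √(q' : ℝ)) * (Nat.gcd q q' : ℝ) ≤ 1 / k := by
    intro q hq q' hq' h
    have hq0 : (0 : ℝ) < q := by exact_mod_cast hpos q hq
    refine gcd_aux (Real.sqrt_pos.2 hq0) hk' ?_ (by positivity) ?_
    · rw [← Real.sqrt_sq hk'.le, ← Real.sqrt_mul (by positivity)]
      apply Real.sqrt_le_sqrt
      exact_mod_cast hgap q hq q' hq' h
    · rw [Real.sq_sqrt hq0.le]
      exact_mod_cast Nat.gcd_le_left q' (hpos q hq)
  have key : ∀ q ∈ Q, ∀ q' ∈ Q, (1 / √(q : ℝ)) * (1 / √(q' : ℝ)) * (Nat.gcd q q' : ℝ) ≤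
      (if q = q' then (1 : ℝ) else 0) + 1 / k := by
    intro q hq q' hq'
    rcases lt_trichotomy q q' with h | h | h
    · rw [if_neg h.ne, zero_add]
      exact hlt q hq q' hq' h
    · subst h
      rw [if_pos rfl]
      have hq0 : (0 : ℝ) < q := by exact_mod_cast hpos q hq
      have h1 : 1 / √(q : ℝ) * (1 / √(q : ℝ)) * (Nat.gcd q q : ℝ) = 1 := by
        rw [Nat.gcd_self]
        have h2 : √(q : ℝ) * √(q : ℝ) = q := Real.mul_self_sqrt hq0.le
        have h3 : √(q : ℝ) ≠ 0 := (Real.sqrt_pos.2 hq0).ne'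
        field_simp
        rw [sq, h2]
      rw [h1]
      have : (0 : ℝ) < 1 / k := by positivity
      linarith
    · rw [if_neg h.ne', zero_add, Nat.gcd_comm, mul_comm (1 / √(q : ℝ))]
      exact hlt q' hq' q hq h
  refine (Finset.sum_le_sum fun q hq => Finset.sum_le_sum fun q' hq' => key q hq q' hq').trans ?_
  simp only [Finset.sum_add_distrib, Finset.sum_const, nsmul_eq_mul, hk]
  have h1 : ∑ q ∈ Q, ∑ q' ∈ Q, (if q = q' then (1 : ℝ) else 0) = k := by
    rw [Finset.sum_congr rfl (g := fun _ => (1 : ℝ))]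
    · simp [hk]
    · intro q hq
      rw [Finset.sum_ite_eq]
      simp [hq]
  rw [h1]
  have : (k : ℝ) * (k * (1 / k)) = k := by field_simp
  rw [this]
  linarith

/-- pairs congruent modulo `q` among the elements in few residue classes -/
theorem cong_ge (S R : Finset ℕ) (q : ℕ) :
    (#{n ∈ S | n % q ∈ R} : ℝ) ^ 2 ≤ #R * (cong S q : ℝ) := by
  classical
  set c : ℕ → ℝ := fun r => ((#{n ∈ S | n % q = r} : ℕ) : ℝ) with hc
  have h1 : (#{n ∈ S | n % q ∈ R} : ℝ) = ∑ r ∈ R, c r := by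
    have h2 := Finset.card_eq_sum_card_fiberwise (s := {n ∈ S | n % q ∈ R}) (t := R)
      (f := fun n => n % q) (fun n hn => (mem_filter.1 hn).2)
    rw [h2]
    push_cast
    refine Finset.sum_congr rfl fun r hr => ?_
    simp only [hc]
    congr 2
    ext n
    simp only [mem_filter]
    constructor
    · rintro ⟨⟨h3, _⟩, h4⟩; exact ⟨h3, h4⟩
    · rintro ⟨h3, h4⟩; exact ⟨⟨h3, h4 ▸ hr⟩, h4⟩
  have h2 : ∑ r ∈ R, c r ^ 2 ≤ (cong S q : ℝ) := by
    have h3 : #{p ∈ S ×ˢ S | p.1 ≡ p.2 [MOD q] ∧ p.1 % q ∈ R} ≤ cong S q := by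
      unfold cong
      refine card_le_card fun p hp => ?_
      rw [mem_filter] at hp ⊢
      exact ⟨hp.1, hp.2.1⟩
    have h4 := Finset.card_eq_sum_card_fiberwise
      (s := {p ∈ S ×ˢ S | p.1 ≡ p.2 [MOD q] ∧ p.1 % q ∈ R}) (t := R)
      (f := fun p => p.1 % q) (fun p hp => (mem_filter.1 hp).2.2)
    have h5 : ∀ r ∈ R, #{p ∈ {p ∈ S ×ˢ S | p.1 ≡ p.2 [MOD q] ∧ p.1 % q ∈ R} | p.1 % q = r} =
        #{n ∈ S | n % q = r} * #{n ∈ S | n % q = r} := by
      intro r hr
      rw [← card_product]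
      congr 1
      ext p
      rw [mem_filter, mem_filter, mem_product, mem_product, mem_filter, mem_filter]
      constructor
      · rintro ⟨⟨⟨h6, h7⟩, h8, _⟩, h9⟩
        exact ⟨⟨h6, h9⟩, h7, (show p.1 % q = p.2 % q from h8) ▸ h9⟩
      · rintro ⟨⟨h6, h7⟩, h8, h9⟩
        exact ⟨⟨⟨h6, h8⟩, h7.trans h9.symm, h7 ▸ hr⟩, h7⟩
    rw [Finset.sum_congr rfl h5] at h4
    have h6 : ∑ r ∈ R, c r ^ 2 =
        ((#{p ∈ S ×ˢ S | p.1 ≡ p.2 [MOD q] ∧ p.1 % q ∈ R} : ℕ) : ℝ) := by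
      rw [h4]
      push_cast
      refine Finset.sum_congr rfl fun r _ => ?_
      simp only [hc]; ring
    rw [h6]
    exact_mod_cast h3
  rw [h1]
  calc (∑ r ∈ R, c r) ^ 2 ≤ #R * ∑ r ∈ R, c r ^ 2 := sq_sum_le_card_mul_sum_sq
    _ ≤ #R * (cong S q : ℝ) := by gcongr

open Classical in
/-- the elements in null residue classes are few -/
theorem null_part (A : Set ℕ) {q : ℕ} (hq : 0 < q) {ε : ℝ} (hε : 0 < ε) :
    ∀ᶠ x : ℕ in atTop, (#{n ∈ below A x | Null (res A q (n % q))} : ℝ) ≤ ε * √x := by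
  have hq' : (0 : ℝ) < q := by exact_mod_cast hq
  have h1 : ∀ᶠ x : ℕ in atTop, ∀ r ∈ {r ∈ range q | Null (res A q r)},
      (#(below (res A q r) x) : ℝ) ≤ ε / q * √x := by
    rw [Filter.eventually_all_finset]
    intro r hr
    exact (mem_filter.1 hr).2 (ε / q) (by positivity)
  filter_upwards [h1] with x hx
  have h2 := Finset.card_eq_sum_card_fiberwise
    (s := {n ∈ below A x | Null (res A q (n % q))}) (t := {r ∈ range q | Null (res A q r)})
    (f := fun n => n % q) (fun n hn => by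
      simp only [coe_filter, Set.mem_ofPred_eq, mem_range]
      exact ⟨Nat.mod_lt _ hq, (mem_filter.1 hn).2⟩)
  rw [h2]
  push_cast
  calc ∑ r ∈ range q with Null (res A q r),
        (#{n ∈ {n ∈ below A x | Null (res A q (n % q))} | n % q = r} : ℝ)
      ≤ ∑ r ∈ range q with Null (res A q r), ε / q * √x := by
        refine Finset.sum_le_sum fun r hr => ?_
        refine le_trans ?_ (hx r hr)
        have : #{n ∈ {n ∈ below A x | Null (res A q (n % q))} | n % q = r} ≤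
            #(below (res A q r) x) := by
          refine card_le_card_of_injOn (fun n => n / q) ?_ ?_
          · intro n hn
            rw [mem_coe, mem_filter, mem_filter, mem_below] at hn
            rw [mem_coe, mem_below]
            refine ⟨lt_of_le_of_lt (Nat.div_le_self _ _) hn.1.1.1, ?_⟩
            show q * (n / q) + r ∈ A
            rw [← hn.2, Nat.div_add_mod]
            exact hn.1.1.2
          · intro n hn n' hn' h
            rw [mem_coe, mem_filter] at hn hn'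
            have h3 : n / q = n' / q := h
            rw [← Nat.div_add_mod n q, ← Nat.div_add_mod n' q, h3, hn.2, hn'.2]
        exact_mod_cast this
    _ ≤ ∑ _r ∈ range q, ε / q * √x := by
        refine Finset.sum_le_sum_of_subset_of_nonneg (filter_subset _ _) fun r _ _ => ?_
        positivity
    _ = ε * √x := by
        rw [Finset.sum_const, card_range, nsmul_eq_mul]
        field_simp

open Classical in
/-- Part (1): the number of residue classes modulo `q` in which `A` is not null. -/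
theorem part1 {A : Set ℕ} (hA : ¬ Null A) {K : ℝ}
    (hK : ∀ᶠ x : ℕ in atTop, ∑ n ∈ range x, (rep A n : ℝ) ^ 2 ≤ K * x) (C : ℝ) :
    ∀ᶠ q : ℕ in atTop, C * √q < (#{r ∈ range q | ¬ Null (res A q r)} : ℝ) := by
  by_contra hcon
  have hfreq := Filter.not_eventually.1 hcon
  set C' : ℝ := max C 1 with hC'
  have hC0 : 0 < C' := lt_of_lt_of_le one_pos (le_max_right _ _)
  set K' : ℝ := max K 1 with hK'
  have hK0 : 0 < K' := lt_of_lt_of_le one_pos (le_max_right _ _)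
  obtain ⟨δ, hδ, hfx⟩ := not_null_iff.1 hA
  obtain ⟨k, hk⟩ := exists_nat_gt (192 * C' ^ 2 * K' / δ ^ 4)
  have hkpos : (0 : ℝ) < k := lt_trans (by positivity) hk
  have hk0 : 0 < k := by exact_mod_cast hkpos
  -- the moduli
  have hex : ∀ N : ℕ, ∃ q, N ≤ q ∧ (#{r ∈ range q | ¬ Null (res A q r)} : ℝ) ≤ C' * √q := by
    intro N
    obtain ⟨q, hq, hq'⟩ := Filter.frequently_atTop.1 hfreq N
    refine ⟨q, hq, (not_lt.1 hq').trans ?_⟩
    gcongr
    exact le_max_left _ _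
  choose f hf1 hf2 using hex
  obtain ⟨G, hG0, hGs⟩ : ∃ G : ℕ → ℕ, G 0 = f 1 ∧ ∀ i, G (i + 1) = f (k ^ 2 * G i + 1) :=
    ⟨fun i => Nat.rec (f 1) (fun _ g => f (k ^ 2 * g + 1)) i, rfl, fun i => rfl⟩
  have hGf : ∀ i, ∃ N, 1 ≤ N ∧ G i = f N := by
    intro i
    cases i with
    | zero => exact ⟨1, le_rfl, hG0⟩
    | succ i => exact ⟨k ^ 2 * G i + 1, Nat.le_add_left _ _, hGs i⟩
  have hGpos : ∀ i, 0 < G i := by
    intro i
    obtain ⟨N, h1, h2⟩ := hGf i
    rw [h2]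
    exact lt_of_lt_of_le h1 (hf1 N)
  have hGν : ∀ i, (#{r ∈ range (G i) | ¬ Null (res A (G i) r)} : ℝ) ≤ C' * √(G i : ℝ) := by
    intro i
    obtain ⟨N, _, h2⟩ := hGf i
    rw [h2]
    exact hf2 N
  have hGstep : ∀ i, k ^ 2 * G i + 1 ≤ G (i + 1) := fun i => by rw [hGs]; exact hf1 _
  have hGmono : StrictMono G := strictMono_nat_of_lt_succ fun i => by
    have h1 := hGstep i
    have h2 : G i ≤ k ^ 2 * G i := Nat.le_mul_of_pos_left _ (by positivity)
    omega
  set Q : Finset ℕ := (range k).image G with hQ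
  have hQk : #Q = k := by rw [hQ, card_image_of_injective _ hGmono.injective, card_range]
  have hQpos : ∀ q ∈ Q, 0 < q := by
    intro q hq
    obtain ⟨i, _, rfl⟩ := mem_image.1 hq
    exact hGpos i
  have hQν : ∀ q ∈ Q, (#{r ∈ range q | ¬ Null (res A q r)} : ℝ) ≤ C' * √q := by
    intro q hq
    obtain ⟨i, _, rfl⟩ := mem_image.1 hq
    exact hGν i
  have hgap : ∀ q ∈ Q, ∀ q' ∈ Q, q < q' → k ^ 2 * q ≤ q' := by
    intro q hq q' hq' h
    obtain ⟨i, _, rfl⟩ := mem_image.1 hq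
    obtain ⟨j, _, rfl⟩ := mem_image.1 hq'
    have hij : i < j := hGmono.lt_iff_lt.1 h
    exact (Nat.le_succ _).trans ((hGstep i).trans (hGmono.monotone hij))
  set M : ℕ := ∏ q ∈ Q, q with hM
  have hMpos : 0 < M := Finset.prod_pos hQpos
  have hQM : ∀ q ∈ Q, q ∣ M := fun q hq => Finset.dvd_prod_of_mem (fun q => q) hq
  -- choose `x`
  have hE1 : ∀ᶠ x : ℕ in atTop, ∀ q ∈ Q,
      (#{n ∈ below A x | Null (res A q (n % q))} : ℝ) ≤ δ / 2 * √x := by
    rw [Filter.eventually_all_finset]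
    intro q hq
    exact null_part A (hQpos q hq) (by positivity)
  have ht : Tendsto (fun x : ℕ => 2 * x) atTop atTop :=
    tendsto_atTop_mono (fun x => by show x ≤ 2 * x; omega) tendsto_id
  obtain ⟨x, hxT, hx1, hx2, hx3, hx4⟩ := (hfx.and_eventually (hE1.and ((eventually_ge_atTop M).and
    ((ht.eventually hK).and (eventually_ge_atTop 1))))).exists
  set S := below A x with hS
  have hSx : S ⊆ range x := below_subset_range A x
  have hxr : (1 : ℝ) ≤ x := by exact_mod_cast hx4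
  have hT0 : (0 : ℝ) ≤ δ * √x := by positivity
  -- congruent pairs
  have hcong : ∀ q ∈ Q, (#S : ℝ) ^ 2 / (4 * C') ≤ √q * (cong S q : ℝ) := by
    intro q hq
    set R : Finset ℕ := {r ∈ range q | ¬ Null (res A q r)} with hR
    have h1 : (#S : ℝ) / 2 ≤ (#{n ∈ S | n % q ∈ R} : ℝ) := by
      have h2 : #{n ∈ S | n % q ∈ R} + #{n ∈ S | Null (res A q (n % q))} = #S := by
        rw [← card_filter_add_card_filter_not (s := S) (fun n => n % q ∈ R)]
        congr 1
        congr 1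
        ext n
        simp only [mem_filter, hR, mem_range, not_and, not_not]
        constructor
        · rintro ⟨h3, h4⟩; exact ⟨h3, fun _ => h4⟩
        · rintro ⟨h3, h4⟩; exact ⟨h3, h4 (Nat.mod_lt _ (hQpos q hq))⟩
      have h3 : (#{n ∈ S | n % q ∈ R} : ℝ) + #{n ∈ S | Null (res A q (n % q))} = #S := by
        exact_mod_cast h2
      have h4 := hx1 q hq
      linarith
    have h2 := cong_ge S R q
    have h3 : ((#S : ℝ) / 2) ^ 2 ≤ C' * √q * (cong S q : ℝ) := by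
      calc ((#S : ℝ) / 2) ^ 2 ≤ (#{n ∈ S | n % q ∈ R} : ℝ) ^ 2 := by gcongr
        _ ≤ #R * (cong S q : ℝ) := h2
        _ ≤ C' * √q * (cong S q : ℝ) := by
            gcongr
            exact hQν q hq
    rw [div_le_iff₀ (by positivity)]
    nlinarith
  have hsum : (k : ℝ) * ((#S : ℝ) ^ 2 / (4 * C')) ≤
      ∑ q ∈ Q, 1 / √(q : ℝ) * (q * (cong S q : ℝ)) := by
    calc (k : ℝ) * ((#S : ℝ) ^ 2 / (4 * C')) = ∑ _q ∈ Q, (#S : ℝ) ^ 2 / (4 * C') := by
          rw [Finset.sum_const, hQk, nsmul_eq_mul]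
      _ ≤ ∑ q ∈ Q, 1 / √(q : ℝ) * (q * (cong S q : ℝ)) := by
          refine Finset.sum_le_sum fun q hq => (hcong q hq).trans (le_of_eq ?_)
          have hq0 : (0 : ℝ) < q := by exact_mod_cast hQpos q hq
          have h2 : √(q : ℝ) * √(q : ℝ) = q := Real.mul_self_sqrt hq0.le
          have h3 : √(q : ℝ) ≠ 0 := (Real.sqrt_pos.2 hq0).ne'
          field_simp
          rw [sq, h2, mul_comm]
  have hen := energy S hSx hMpos hx2 Q hQM (fun q => 1 / √(q : ℝ))
  have hE : ∑ n ∈ range (2 * x), (repF S n : ℝ) ^ 2 ≤ 2 * K' * x := by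
    calc ∑ n ∈ range (2 * x), (repF S n : ℝ) ^ 2 ≤ ∑ n ∈ range (2 * x), (rep A n : ℝ) ^ 2 := by
          refine Finset.sum_le_sum fun n _ => ?_
          have : (repF S n : ℝ) ≤ rep A n := by exact_mod_cast repF_below_le A x n
          gcongr
      _ ≤ K * ((2 * x : ℕ) : ℝ) := hx3
      _ ≤ K' * ((2 * x : ℕ) : ℝ) := by
          gcongr
          exact le_max_left _ _
      _ = 2 * K' * x := by push_cast; ring
  have hgs := gcd_sum hQk hk0 hQpos hgap
  have hfinal : ((k : ℝ) * ((#S : ℝ) ^ 2 / (4 * C'))) ^ 2 ≤ 3 * x * (2 * K' * x) * (2 * k) := by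
    calc ((k : ℝ) * ((#S : ℝ) ^ 2 / (4 * C'))) ^ 2
        ≤ (∑ q ∈ Q, 1 / √(q : ℝ) * (q * (cong S q : ℝ))) ^ 2 := by gcongr
      _ ≤ 3 * x * (∑ n ∈ range (2 * x), (repF S n : ℝ) ^ 2) *
          ∑ q ∈ Q, ∑ q' ∈ Q, 1 / √(q : ℝ) * (1 / √(q' : ℝ)) * (Nat.gcd q q' : ℝ) := hen
      _ ≤ 3 * x * (2 * K' * x) * (2 * k) := by gcongr
  have hT2 : δ ^ 2 * x ≤ (#S : ℝ) ^ 2 := by
    have h1 : (δ * √x) ^ 2 ≤ (#S : ℝ) ^ 2 := by
      gcongr
    rwa [mul_pow, Real.sq_sqrt (by positivity)] at h1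
  have h5 : ((k : ℝ) * (δ ^ 2 * x / (4 * C'))) ^ 2 ≤ 3 * x * (2 * K' * x) * (2 * k) := by
    refine le_trans ?_ hfinal
    gcongr
  have h6 : (k : ℝ) * δ ^ 4 ≤ 192 * C' ^ 2 * K' := by
    have h7 : ((k : ℝ) * (δ ^ 2 * x / (4 * C'))) ^ 2 = (k * x ^ 2 / (16 * C' ^ 2)) * (k * δ ^ 4) := by
      field_simp
      ring
    have h8 : 3 * (x : ℝ) * (2 * K' * x) * (2 * k) =
        (k * x ^ 2 / (16 * C' ^ 2)) * (192 * C' ^ 2 * K') := by
      field_simp
      ring
    rw [h7, h8] at h5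
    exact le_of_mul_le_mul_left h5 (by positivity)
  rw [div_lt_iff₀ (by positivity)] at hk
  linarith

end Pool.Agent.Helper25.RC
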