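import Pool.Agent.Helper25.RC.Classes

/-!
Pairwise coprime moduli: a set which is not null and whose number of representations is bounded in
mean square occupies almost all classes for almost all moduli.
-/

set_option autoImplicit false

open Finset Filter

namespace Pool.Agent.Helper25.RC

theorem cong_one (S : Finset ℕ) : (cong S 1 : ℝ) = (#S : ℝ) ^ 2 := by
  have h : cong S 1 = #S * #S := by
    unfold cong
    rw [← card_product]
    congr 1
    refine filter_true_of_mem fun p _ => ?_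
    exact Nat.modEq_one
  rw [h]
  push_cast
  ring

/-- The main inequality for pairwise coprime moduli. -/
theorem energy_coprime (S : Finset ℕ) {x : ℕ} (hS : S ⊆ range x) (Q : Finset ℕ)
    (hQ1 : ∀ q ∈ Q, 1 < q) (hQ : ∀ q ∈ Q, ∀ q' ∈ Q, q ≠ q' → Nat.Coprime q q')
    (hx : ∏ q ∈ Q, q ≤ x) (a : ℕ → ℝ) :
    (∑ q ∈ Q, a q * (q * (cong S q : ℝ) - (#S : ℝ) ^ 2)) ^ 2 ≤
      3 * x * (∑ n ∈ range (2 * x), (repF S n : ℝ) ^ 2) * ∑ q ∈ Q, a q ^ 2 * (q - 1) := by
  classical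
  set M : ℕ := ∏ q ∈ Q, q with hM
  have hMpos : 0 < M := Finset.prod_pos fun q hq => lt_trans one_pos (hQ1 q hq)
  have hQM : ∀ q ∈ Q, q ∣ M := fun q hq => Finset.dvd_prod_of_mem (fun q => q) hq
  have h1Q : 1 ∉ Q := fun h => lt_irrefl _ (hQ1 1 h)
  set w : ℕ → ℝ := fun q => if q = 1 then - ∑ q ∈ Q, a q else a q with hw
  have hw1 : w 1 = - ∑ q ∈ Q, a q := by simp [hw]
  have hwq : ∀ q ∈ Q, w q = a q := by
    intro q hq
    simp only [hw]
    rw [if_neg (hQ1 q hq).ne']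
  have hen := energy S hS hMpos hx (insert 1 Q) (by
    intro q hq
    rcases mem_insert.1 hq with rfl | h
    · exact one_dvd _
    · exact hQM q h) w
  have hL : ∑ q ∈ insert 1 Q, w q * (q * (cong S q : ℝ)) =
      ∑ q ∈ Q, a q * (q * (cong S q : ℝ) - (#S : ℝ) ^ 2) := by
    have h0 : ∑ q ∈ Q, w q * (q * (cong S q : ℝ)) = ∑ q ∈ Q, a q * (q * (cong S q : ℝ)) :=
      Finset.sum_congr rfl fun q hq => by rw [hwq q hq]
    rw [sum_insert h1Q, hw1, cong_one, h0]
    simp only [mul_sub, Finset.sum_sub_distrib]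
    rw [← Finset.sum_mul]
    push_cast
    ring
  have hR : ∑ q ∈ insert 1 Q, ∑ q' ∈ insert 1 Q, w q * w q' * (Nat.gcd q q' : ℝ) =
      ∑ q ∈ Q, a q ^ 2 * (q - 1) := by
    have h2 : ∀ q ∈ Q, ∑ q' ∈ Q, w q * w q' * (Nat.gcd q q' : ℝ) =
        a q * (∑ q' ∈ Q, a q') + a q ^ 2 * (q - 1) := by
      intro q hq
      have h3 : ∀ q' ∈ Q, w q * w q' * (Nat.gcd q q' : ℝ) =
          a q * a q' + (if q = q' then a q ^ 2 * ((q : ℝ) - 1) else 0) := by
        intro q' hq'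
        rw [hwq q hq, hwq q' hq']
        by_cases h : q = q'
        · subst h
          rw [if_pos rfl, Nat.gcd_self]
          ring
        · rw [if_neg h, (hQ q hq q' hq' h : Nat.gcd q q' = 1)]
          push_cast
          ring
      rw [Finset.sum_congr rfl h3, Finset.sum_add_distrib, Finset.sum_ite_eq, if_pos hq,
        Finset.mul_sum]
    have h4 : ∀ q ∈ Q, ∑ q' ∈ insert 1 Q, w q * w q' * (Nat.gcd q q' : ℝ) =
        a q ^ 2 * (q - 1) := by
      intro q hq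
      rw [sum_insert h1Q, h2 q hq, hw1, hwq q hq, Nat.gcd_one_right]
      push_cast
      ring
    rw [sum_insert h1Q, Finset.sum_congr rfl h4]
    have h5 : ∑ q' ∈ insert 1 Q, w 1 * w q' * (Nat.gcd 1 q' : ℝ) = 0 := by
      rw [sum_insert h1Q]
      simp only [Nat.gcd_one_left, Nat.cast_one, mul_one]
      rw [← Finset.mul_sum, Finset.sum_congr rfl hwq, hw1]
      ring
    rw [h5, zero_add]
  rw [hL, hR] at hen
  exact hen

open Classical in
/-- the number of residue classes modulo `q` in which `A` is not null -/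
noncomputable def nu (A : Set ℕ) (q : ℕ) : ℕ := #{r ∈ range q | ¬ Null (res A q r)}

theorem nu_le (A : Set ℕ) (q : ℕ) : nu A q ≤ q := by
  classical
  unfold nu
  exact (card_filter_le _ _).trans (card_range q).le

/-- the elements outside null classes, squared, against congruent pairs -/
theorem cong_ge_nu (A : Set ℕ) {q : ℕ} (hq : 0 < q) {ε : ℝ} (hε : 0 < ε) :
    ∀ᶠ x : ℕ in atTop, ε * √x ≤ #(below A x) →
      ((#(below A x) : ℝ) - ε * √x) ^ 2 ≤ nu A q * (cong (below A x) q : ℝ) := by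
  classical
  filter_upwards [null_part A hq hε] with x hx hT
  set S := below A x with hS
  set R : Finset ℕ := {r ∈ range q | ¬ Null (res A q r)} with hR
  have h2 : #{n ∈ S | n % q ∈ R} + #{n ∈ S | Null (res A q (n % q))} = #S := by
    rw [← card_filter_add_card_filter_not (s := S) (fun n => n % q ∈ R)]
    congr 1
    congr 1
    ext n
    simp only [mem_filter, hR, mem_range, not_and, not_not]
    constructor
    · rintro ⟨h3, h4⟩; exact ⟨h3, fun _ => h4⟩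
    · rintro ⟨h3, h4⟩; exact ⟨h3, h4 (Nat.mod_lt _ hq)⟩
  have h3 : (#{n ∈ S | n % q ∈ R} : ℝ) + #{n ∈ S | Null (res A q (n % q))} = #S := by
    exact_mod_cast h2
  have h4 : (#S : ℝ) - ε * √x ≤ (#{n ∈ S | n % q ∈ R} : ℝ) := by linarith
  have h5 : (0 : ℝ) ≤ (#S : ℝ) - ε * √x := by linarith
  have h6 : (#R : ℝ) = nu A q := rfl
  calc ((#S : ℝ) - ε * √x) ^ 2 ≤ (#{n ∈ S | n % q ∈ R} : ℝ) ^ 2 := by gcongr
    _ ≤ #R * (cong S q : ℝ) := cong_ge S R q
    _ = _ := by rw [h6]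

theorem nu_pos {A : Set ℕ} (hA : ¬ Null A) {q : ℕ} (hq : 0 < q) : 0 < nu A q := by
  classical
  rw [Nat.pos_iff_ne_zero]
  intro h0
  refine hA fun ε hε => ?_
  filter_upwards [cong_ge_nu A hq hε] with x hx
  by_contra hcon
  push Not at hcon
  have h1 := hx hcon.le
  rw [h0] at h1
  have h2 : (0 : ℝ) < (#(below A x) : ℝ) - ε * √x := by linarith
  have : (0 : ℝ) < ((#(below A x) : ℝ) - ε * √x) ^ 2 := by positivity
  simp only [Nat.cast_zero, zero_mul] at h1
  linarith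

/-- Part (1), pairwise coprime moduli. -/
theorem part1b {A : Set ℕ} (hA : ¬ Null A) {K : ℝ}
    (hK : ∀ᶠ x : ℕ in atTop, ∑ n ∈ range x, (rep A n : ℝ) ^ 2 ≤ K * x) :
    ∃ B : ℝ, ∀ Q : Finset ℕ, (∀ q ∈ Q, 1 < q) →
      (∀ q ∈ Q, ∀ q' ∈ Q, q ≠ q' → Nat.Coprime q q') →
      ∑ q ∈ Q, ((q : ℝ) / nu A q - 1) ^ 2 / q ≤ B := by
  classical
  obtain ⟨δ, hδ, hfx⟩ := not_null_iff.1 hA
  set K' : ℝ := max K 1 with hK'
  have hK0 : 0 < K' := lt_of_lt_of_le one_pos (le_max_right _ _)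
  refine ⟨2 + 24 * K' / δ ^ 4, fun Q hQ1 hQ => ?_⟩
  have hQpos : ∀ q ∈ Q, (0 : ℝ) < q - 1 := by
    intro q hq
    have : (1 : ℝ) < q := by exact_mod_cast hQ1 q hq
    linarith
  have hν : ∀ q ∈ Q, (0 : ℝ) < nu A q := by
    intro q hq
    exact_mod_cast nu_pos hA (lt_trans one_pos (hQ1 q hq))
  set h : ℕ → ℝ := fun q => (q : ℝ) / nu A q - 1 with hh
  have hh0 : ∀ q ∈ Q, 0 ≤ h q := by
    intro q hq
    simp only [hh]
    rw [sub_nonneg, le_div_iff₀ (hν q hq), one_mul]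
    exact_mod_cast nu_le A q
  set a : ℕ → ℝ := fun q => h q / (q - 1) with ha
  have ha0 : ∀ q ∈ Q, 0 ≤ a q := fun q hq => div_nonneg (hh0 q hq) (hQpos q hq).le
  set Y : ℝ := ∑ q ∈ Q, h q ^ 2 / (q - 1) with hY
  have hY0 : 0 ≤ Y := Finset.sum_nonneg fun q hq => div_nonneg (sq_nonneg _) (hQpos q hq).le
  set Z : ℝ := ∑ q ∈ Q, a q * ((q : ℝ) / nu A q) with hZ
  have hZ0 : 0 ≤ Z := Finset.sum_nonneg fun q hq => mul_nonneg (ha0 q hq)
    (div_nonneg (Nat.cast_nonneg _) (hν q hq).le)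
  set ε : ℝ := δ / (2 * (1 + Z)) with hε
  have hε0 : 0 < ε := by positivity
  have hεδ : ε ≤ δ := by
    rw [hε]
    apply div_le_self hδ.le
    linarith
  have hE1 : ∀ᶠ x : ℕ in atTop, ∀ q ∈ Q, ε * √x ≤ #(below A x) →
      ((#(below A x) : ℝ) - ε * √x) ^ 2 ≤ nu A q * (cong (below A x) q : ℝ) := by
    rw [Filter.eventually_all_finset]
    intro q hq
    exact cong_ge_nu A (lt_trans one_pos (hQ1 q hq)) hε0
  have ht : Tendsto (fun x : ℕ => 2 * x) atTop atTop :=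
    tendsto_atTop_mono (fun x => by show x ≤ 2 * x; omega) tendsto_id
  obtain ⟨x, hxT, hx1, hx2, hx3, hx4⟩ := (hfx.and_eventually (hE1.and
    ((eventually_ge_atTop (∏ q ∈ Q, q)).and
    ((ht.eventually hK).and (eventually_ge_atTop 1))))).exists
  set S := below A x with hS
  have hSx : S ⊆ range x := below_subset_range A x
  have hxr : (1 : ℝ) ≤ x := by exact_mod_cast hx4
  set T : ℝ := (#S : ℝ) with hT
  have hs0 : (0 : ℝ) < √x := Real.sqrt_pos.2 (by linarith)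
  have hTpos : 0 < T := lt_of_le_of_lt (by positivity) hxT
  have hTε : ε * √x ≤ T := by
    refine le_trans ?_ hxT.le
    gcongr
  have hkey : ∀ q ∈ Q, T ^ 2 * h q - T ^ 2 / (1 + Z) * ((q : ℝ) / nu A q) ≤
      q * (cong S q : ℝ) - T ^ 2 := by
    intro q hq
    have h1 := hx1 q hq hTε
    have h2 : T ^ 2 - T ^ 2 / (1 + Z) ≤ (T - ε * √x) ^ 2 := by
      have h3 : 2 * T * (ε * √x) ≤ T ^ 2 / (1 + Z) := by
        rw [hε]
        have h4 : 2 * T * (δ / (2 * (1 + Z)) * √x) = T * (δ * √x) / (1 + Z) := by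
          field_simp
        rw [h4]
        gcongr
        nlinarith
      nlinarith [sq_nonneg (ε * √x)]
    have h5 : (T ^ 2 - T ^ 2 / (1 + Z)) / nu A q ≤ (cong S q : ℝ) := by
      rw [div_le_iff₀ (hν q hq)]
      calc T ^ 2 - T ^ 2 / (1 + Z) ≤ (T - ε * √x) ^ 2 := h2
        _ ≤ nu A q * (cong S q : ℝ) := h1
        _ = _ := mul_comm _ _
    have hq0 : (0 : ℝ) < q := by linarith [hQpos q hq]
    have h6 := mul_le_mul_of_nonneg_left h5 hq0.le
    have h7 : T ^ 2 * h q - T ^ 2 / (1 + Z) * ((q : ℝ) / nu A q) =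
        q * ((T ^ 2 - T ^ 2 / (1 + Z)) / nu A q) - T ^ 2 := by
      simp only [hh]
      have := (hν q hq).ne'
      field_simp
      ring
    rw [h7]
    linarith
  have hsum : T ^ 2 * (Y - 1) ≤ ∑ q ∈ Q, a q * (q * (cong S q : ℝ) - T ^ 2) := by
    have h1 : T ^ 2 * Y - T ^ 2 / (1 + Z) * Z ≤ ∑ q ∈ Q, a q * (q * (cong S q : ℝ) - T ^ 2) := by
      calc T ^ 2 * Y - T ^ 2 / (1 + Z) * Z =
            ∑ q ∈ Q, a q * (T ^ 2 * h q - T ^ 2 / (1 + Z) * ((q : ℝ) / nu A q)) := by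
            rw [hY, hZ, Finset.mul_sum, Finset.mul_sum, ← Finset.sum_sub_distrib]
            refine Finset.sum_congr rfl fun q _ => ?_
            simp only [ha]
            ring
        _ ≤ _ := Finset.sum_le_sum fun q hq => mul_le_mul_of_nonneg_left (hkey q hq) (ha0 q hq)
    have h2 : T ^ 2 / (1 + Z) * Z ≤ T ^ 2 := by
      rw [div_mul_eq_mul_div, div_le_iff₀ (by positivity)]
      nlinarith [sq_nonneg T]
    linarith
  have hen := energy_coprime S hSx Q hQ1 hQ hx2 a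
  have hW : ∑ q ∈ Q, a q ^ 2 * ((q : ℝ) - 1) = Y := by
    rw [hY]
    refine Finset.sum_congr rfl fun q hq => ?_
    simp only [ha]
    have := (hQpos q hq).ne'
    field_simp
  rw [hW] at hen
  have hE : ∑ n ∈ range (2 * x), (repF S n : ℝ) ^ 2 ≤ 2 * K' * x := by
    calc ∑ n ∈ range (2 * x), (repF S n : ℝ) ^ 2 ≤ ∑ n ∈ range (2 * x), (rep A n : ℝ) ^ 2 := by
          refine Finset.sum_le_sum fun n _ => ?_
          have : (repF S n : ℝ) ≤ rep A n := by exact_mod_cast repF_below_le A x n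
          gcongr
      _ ≤ K * ((2 * x : ℕ) : ℝ) := hx3
      _ ≤ K' * ((2 * x : ℕ) : ℝ) := by
          gcongr
          exact le_max_left _ _
      _ = 2 * K' * x := by push_cast; ring
  have hT2 : δ ^ 2 * x ≤ T ^ 2 := by
    have h1 : (δ * √x) ^ 2 ≤ T ^ 2 := by gcongr
    rwa [mul_pow, Real.sq_sqrt (by positivity)] at h1
  have hYB : Y ≤ 2 + 24 * K' / δ ^ 4 := by
    by_contra hcon
    push Not at hcon
    have hY2 : 2 < Y := lt_of_le_of_lt (by
      have : 0 < 24 * K' / δ ^ 4 := by positivity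
      linarith) hcon
    have h1 : (T ^ 2 * (Y - 1)) ^ 2 ≤ 3 * x * (2 * K' * x) * Y := by
      calc (T ^ 2 * (Y - 1)) ^ 2 ≤ (∑ q ∈ Q, a q * (q * (cong S q : ℝ) - T ^ 2)) ^ 2 := by
            have : 0 ≤ T ^ 2 * (Y - 1) := mul_nonneg (sq_nonneg _) (by linarith)
            gcongr
        _ ≤ _ := hen
        _ ≤ 3 * x * (2 * K' * x) * Y := by gcongr
    have h2 : (δ ^ 2 * x * (Y / 2)) ^ 2 ≤ (T ^ 2 * (Y - 1)) ^ 2 := by
      have h3 : Y / 2 ≤ Y - 1 := by linarith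
      gcongr
    have h4 : (x ^ 2 * Y / 4) * (δ ^ 4 * Y) ≤ (x ^ 2 * Y / 4) * (24 * K') := by
      calc ((x : ℝ) ^ 2 * Y / 4) * (δ ^ 4 * Y) = (δ ^ 2 * x * (Y / 2)) ^ 2 := by ring
        _ ≤ 3 * x * (2 * K' * x) * Y := h2.trans h1
        _ = (x ^ 2 * Y / 4) * (24 * K') := by ring
    have h5 : δ ^ 4 * Y ≤ 24 * K' := le_of_mul_le_mul_left h4 (by positivity)
    have h6 : Y ≤ 24 * K' / δ ^ 4 := by
      rw [le_div_iff₀ (by positivity)]
      linarith
    linarith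
  refine le_trans ?_ hYB
  refine Finset.sum_le_sum fun q hq => ?_
  have := hQpos q hq
  apply div_le_div_of_nonneg_left (sq_nonneg _) this
  linarith

end Pool.Agent.Helper25.RC
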