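import Pool.Agent.Helper51.SV.Rel

/-!
Large values of the representation function of a set with many elements in a sieved set.
-/

set_option autoImplicit false

open Finset Filter

namespace Pool.Agent.Helper25.RC

/-- a large value of the representation function -/
theorem large_dim (δ K : ℝ) (hδ : 0 < δ) (hδ2 : δ ≤ 1 / 2) : ∃ c : ℝ, 0 < c ∧ ∀ A T : Set ℕ,
    (∀ p : ℕ, p.Prime → (classes T p : ℝ) ≤ (1 - δ) * p + K) → ∀ x : ℕ, 2 ≤ x →
    ∃ n : ℕ, n < 2 * x ∧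
      c * (#(below (A ∩ T) x) : ℝ) ^ 2 * Real.log x ^ ((δ / (1 - δ)) ^ 2) ≤ x * rep A n := by
  obtain ⟨c, hc, h⟩ := Pool.Agent.Helper51.SV.part2 δ K hδ hδ2
  refine ⟨c, hc, fun A T hT x hx => ?_⟩
  obtain ⟨n, hn, h1⟩ := h (A ∩ T) (fun p hp => by
    refine le_trans ?_ (hT p hp)
    rw [classes51]
    exact_mod_cast classes_mono Set.inter_subset_right hp.pos) x hx
  refine ⟨n, hn, ?_⟩
  rw [count51, rep51] at h1
  refine h1.trans ?_
  have : (rep (A ∩ T) n : ℝ) ≤ rep A n := by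
    exact_mod_cast Pool.Agent.Helper51.Rel.rep_mono Set.inter_subset_left n
  gcongr

/-- Few elements of a set with bounded representation function are squares. -/
theorem few_squares_bdd (g : ℝ) : ∃ C : ℝ, ∀ A : Set ℕ, (∀ n : ℕ, (rep A n : ℝ) ≤ g) →
    ∀ x : ℕ, 2 ≤ x → (#(below (A ∩ {n | IsSquare n}) x) : ℝ) ≤
      C * √x / Real.log x ^ (1 / 2 : ℝ) := by
  obtain ⟨c, hc, h⟩ := large_dim (1 / 2) 1 (by norm_num) le_rfl
  refine ⟨(max g 0 / c) ^ ((1 : ℝ) / 2), fun A hA x hx => ?_⟩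
  have hx0 : (0 : ℝ) < x := by positivity
  have hl : 0 < Real.log x := Real.log_pos (by
    have : (2 : ℝ) ≤ x := by exact_mod_cast hx
    linarith)
  obtain ⟨n, _, h1⟩ := h A {n | IsSquare n}
    (fun p hp => Pool.Agent.Helper51.Rel.squares_classes p hp.pos) x hx
  have e : ((1 / 2 : ℝ) / (1 - 1 / 2)) ^ 2 = 1 := by norm_num
  rw [e, Real.rpow_one] at h1
  have h2 : (x : ℝ) * rep A n ≤ x * max g 0 := by
    have := (hA n).trans (le_max_left g 0)
    gcongr
  set b : ℝ := (#(below (A ∩ {n | IsSquare n}) x) : ℝ) with hb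
  have hb0 : 0 ≤ b := by positivity
  rw [le_div_iff₀ (Real.rpow_pos_of_pos hl _)]
  have hg : 0 ≤ max g 0 := le_max_right _ _
  rw [← Real.sqrt_eq_rpow, ← Real.sqrt_eq_rpow, ← Real.sqrt_mul (by positivity)]
  refine Real.le_sqrt_of_sq_le ?_
  rw [mul_pow, Real.sq_sqrt hl.le, div_mul_eq_mul_div, le_div_iff₀ hc]
  calc b ^ 2 * Real.log x * c = c * b ^ 2 * Real.log x := by ring
    _ ≤ (x : ℝ) * rep A n := h1
    _ ≤ (x : ℝ) * max g 0 := h2
    _ = max g 0 * x := by ring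

end Pool.Agent.Helper25.RC
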