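import Pool.Agent.Helper25.RC.Local
import Pool.Agent.Helper25.RC.Large
import Pool.Agent.Helper25.RC.Basis

/-!
Squares in a set and its representation function: two inequalities.
-/

set_option autoImplicit false

open Finset Filter

namespace Pool.Agent.Helper25.RC

/-- If `A` has many squares below `x` then its representation function is large below `2 * x`, and
so is its mean square. -/
theorem squares_ineq : ∃ c : ℝ, 0 < c ∧ ∀ (A : Set ℕ) (x : ℕ), 2 ≤ x →
    (∃ n : ℕ, n < 2 * x ∧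
      c * Real.log x * (#(below (A ∩ {n | IsSquare n}) x) : ℝ) ^ 2 / x ≤ rep A n) ∧
    c * Real.log x * (#(below (A ∩ {n | IsSquare n}) x) : ℝ) ^ 4 / x ≤
      ∑ n ∈ range (2 * x), (rep A n : ℝ) ^ 2 := by
  obtain ⟨c1, hc1, h1⟩ := large_dim (1 / 2) 1 (by norm_num) le_rfl
  obtain ⟨c2, hc2, h2⟩ := Pool.Agent.Helper51.Rel.dim (1 / 2) 1 (by norm_num) le_rfl
  have e : ((1 / 2 : ℝ) / (1 - 1 / 2)) ^ 2 = 1 := by norm_num
  have hT : ∀ p : ℕ, p.Prime → (classes {n : ℕ | IsSquare n} p : ℝ) ≤ (1 - 1 / 2) * p + 1 :=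
    fun p hp => Pool.Agent.Helper51.Rel.squares_classes p hp.pos
  refine ⟨min c1 c2, lt_min hc1 hc2, fun A x hx => ?_⟩
  have hx0 : (0 : ℝ) < x := by positivity
  have hl : 0 ≤ Real.log x := Real.log_natCast_nonneg x
  obtain ⟨n, hn, h3⟩ := h1 A {n | IsSquare n} hT x hx
  have h4 := h2 A {n | IsSquare n} hT x hx
  rw [e, Real.rpow_one] at h3 h4
  set b : ℝ := (#(below (A ∩ {n | IsSquare n}) x) : ℝ) with hb
  have hb0 : 0 ≤ b := by positivity
  constructor
  · refine ⟨n, hn, ?_⟩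
    rw [div_le_iff₀ hx0]
    calc min c1 c2 * Real.log x * b ^ 2 ≤ c1 * Real.log x * b ^ 2 := by
          gcongr
          exact min_le_left _ _
      _ = c1 * b ^ 2 * Real.log x := by ring
      _ ≤ (x : ℝ) * rep A n := h3
      _ = rep A n * x := by ring
  · rw [div_le_iff₀ hx0]
    calc min c1 c2 * Real.log x * b ^ 4 ≤ c2 * Real.log x * b ^ 4 := by
          gcongr
          exact min_le_right _ _
      _ = c2 * b ^ 4 * Real.log x := by ring
      _ ≤ (x : ℝ) * ∑ n ∈ range (2 * x), (rep A n : ℝ) ^ 2 := h4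
      _ = _ := by ring

end Pool.Agent.Helper25.RC
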