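import Mathlib

/-!
Additive energy and pairs congruent modulo several moduli.
-/

set_option autoImplicit false

open Finset

namespace Pool.Agent.Helper25.RC

/-- ordered pairs of elements of the finite set `S` with sum `n` -/
def repF (S : Finset ℕ) (n : ℕ) : ℕ := #{p ∈ S ×ˢ S | p.1 + p.2 = n}

/-- ordered pairs of elements of `S` congruent modulo `q` -/
def cong (S : Finset ℕ) (q : ℕ) : ℕ := #{p ∈ S ×ˢ S | p.1 ≡ p.2 [MOD q]}

theorem modEq_comm' {n a b : ℕ} : a ≡ b [MOD n] ↔ b ≡ a [MOD n] :=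
  ⟨Nat.ModEq.symm, Nat.ModEq.symm⟩

/-- the residue of `p.1 - p.2` modulo `M` -/
def key (M : ℕ) (p : ℕ × ℕ) : ℕ := (((p.1 : ℤ) - (p.2 : ℤ)) % (M : ℤ)).toNat

theorem key_cast {M : ℕ} (hM : 0 < M) (p : ℕ × ℕ) :
    ((key M p : ℕ) : ℤ) = ((p.1 : ℤ) - (p.2 : ℤ)) % (M : ℤ) := by
  unfold key
  exact Int.toNat_of_nonneg (Int.emod_nonneg _ (by exact_mod_cast hM.ne'))

theorem key_lt {M : ℕ} (hM : 0 < M) (p : ℕ × ℕ) : key M p < M := by
  have h := Int.emod_lt_of_pos ((p.1 : ℤ) - (p.2 : ℤ)) (show (0 : ℤ) < M by exact_mod_cast hM)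
  rw [← key_cast hM] at h
  exact_mod_cast h

theorem dvd_key {M q : ℕ} (hM : 0 < M) (hq : q ∣ M) (p : ℕ × ℕ) :
    q ∣ key M p ↔ p.1 ≡ p.2 [MOD q] := by
  rw [← Int.natCast_dvd_natCast, key_cast hM, modEq_comm', ← Int.natCast_modEq_iff,
    Int.modEq_iff_dvd]
  have hq' : (q : ℤ) ∣ (M : ℤ) := by exact_mod_cast hq
  rw [Int.dvd_iff_emod_eq_zero, Int.emod_emod_of_dvd _ hq', ← Int.dvd_iff_emod_eq_zero]

theorem key_eq_iff {M : ℕ} (hM : 0 < M) (p p' : ℕ × ℕ) :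
    key M p = key M p' ↔ p.1 + p'.2 ≡ p.2 + p'.1 [MOD M] := by
  rw [← Int.natCast_inj, key_cast hM, key_cast hM, ← Int.natCast_modEq_iff]
  show Int.ModEq _ _ _ ↔ _
  rw [Int.modEq_iff_dvd, Int.modEq_iff_dvd]
  push_cast
  have : (p'.1 : ℤ) - p'.2 - (p.1 - p.2) = (p.2 + p'.1 - ((p.1 : ℤ) + p'.2)) := by ring
  rw [this]

theorem sum_add (S : Finset ℕ) {x : ℕ} (hS : S ⊆ range x) (f : ℕ → ℝ) :
    ∑ u ∈ S ×ˢ S, f (u.1 + u.2) = ∑ n ∈ range (2 * x), (repF S n : ℝ) * f n := by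
  classical
  have hmaps : ∀ u ∈ S ×ˢ S, u.1 + u.2 ∈ range (2 * x) := by
    intro u hu
    rw [mem_product] at hu
    have h1 := mem_range.1 (hS hu.1)
    have h2 := mem_range.1 (hS hu.2)
    rw [mem_range]; omega
  rw [← Finset.sum_fiberwise_of_maps_to hmaps]
  refine Finset.sum_congr rfl fun n _ => ?_
  unfold repF
  rw [Finset.sum_congr rfl (g := fun _ => f n), Finset.sum_const, nsmul_eq_mul]
  intro u hu
  rw [(mem_filter.1 hu).2]

theorem count_le {M x : ℕ} (hM : 0 < M) (hx : M ≤ x) (n : ℕ) :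
    ∑ n' ∈ range (2 * x), (if n ≡ n' [MOD M] then (1 : ℝ) else 0) ≤ 3 * x / M := by
  rw [Finset.sum_boole]
  have h1 : #{n' ∈ range (2 * x) | n ≡ n' [MOD M]} ≤ 2 * x / M + 1 := by
    have h2 := Nat.count_modEq_card (2 * x) hM n
    rw [Nat.count_eq_card_filter_range] at h2
    have h3 : #{n' ∈ range (2 * x) | n ≡ n' [MOD M]} = #{n' ∈ range (2 * x) | n' ≡ n [MOD M]} := by
      congr 1
      ext a
      simp only [mem_filter]
      rw [modEq_comm']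
    rw [h3, h2]
    split_ifs <;> omega
  have hM' : (0 : ℝ) < M := by exact_mod_cast hM
  calc ((#{n' ∈ range (2 * x) | n ≡ n' [MOD M]} : ℕ) : ℝ) ≤ ((2 * x / M + 1 : ℕ) : ℝ) := by
        exact_mod_cast h1
    _ = ((2 * x / M : ℕ) : ℝ) + 1 := by push_cast; ring
    _ ≤ (2 * x : ℝ) / M + 1 := by
        gcongr
        have := Nat.cast_div_le (α := ℝ) (m := 2 * x) (n := M)
        push_cast at this
        exact this
    _ ≤ (2 * x : ℝ) / M + x / M := by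
        gcongr
        rw [le_div_iff₀ hM', one_mul]
        exact_mod_cast hx
    _ = 3 * x / M := by ring

/-- the number of solutions of `u ≡ v` modulo `M` in sums -/
theorem quad_le (S : Finset ℕ) {M x : ℕ} (hS : S ⊆ range x) (hM : 0 < M) (hx : M ≤ x) :
    ∑ u ∈ S ×ˢ S, ∑ v ∈ S ×ˢ S, (if u.1 + u.2 ≡ v.1 + v.2 [MOD M] then (1 : ℝ) else 0) ≤
      3 * x / M * ∑ n ∈ range (2 * x), (repF S n : ℝ) ^ 2 := by
  classical
  set g : ℕ → ℕ → ℝ := fun n n' => if n ≡ n' [MOD M] then (1 : ℝ) else 0 with hg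
  have hg0 : ∀ n n', 0 ≤ g n n' := by
    intro n n'; simp only [hg]; split_ifs <;> norm_num
  have hsymm : ∀ n n', g n n' = g n' n := by
    intro n n'
    simp only [hg]
    by_cases h : n ≡ n' [MOD M]
    · rw [if_pos h, if_pos h.symm]
    · rw [if_neg h, if_neg fun h' => h h'.symm]
  have h1 : ∑ u ∈ S ×ˢ S, ∑ v ∈ S ×ˢ S, g (u.1 + u.2) (v.1 + v.2) =
      ∑ n ∈ range (2 * x), ∑ n' ∈ range (2 * x), (repF S n : ℝ) * (repF S n' : ℝ) * g n n' := by
    rw [sum_add S hS (fun n => ∑ v ∈ S ×ˢ S, g n (v.1 + v.2))]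
    refine Finset.sum_congr rfl fun n _ => ?_
    rw [sum_add S hS (fun n' => g n n'), Finset.mul_sum]
    refine Finset.sum_congr rfl fun n' _ => ?_
    ring
  have h2 : ∑ n ∈ range (2 * x), ∑ n' ∈ range (2 * x),
      (repF S n : ℝ) * (repF S n' : ℝ) * g n n' ≤
      ∑ n ∈ range (2 * x), ∑ n' ∈ range (2 * x),
        ((repF S n : ℝ) ^ 2 * g n n' / 2 + (repF S n' : ℝ) ^ 2 * g n n' / 2) := by
    refine Finset.sum_le_sum fun n _ => Finset.sum_le_sum fun n' _ => ?_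
    have h3 : (repF S n : ℝ) * (repF S n' : ℝ) ≤
        ((repF S n : ℝ) ^ 2 + (repF S n' : ℝ) ^ 2) / 2 := by
      nlinarith [sq_nonneg ((repF S n : ℝ) - (repF S n' : ℝ))]
    have := mul_le_mul_of_nonneg_right h3 (hg0 n n')
    linarith
  have h3 : ∑ n ∈ range (2 * x), ∑ n' ∈ range (2 * x),
        ((repF S n : ℝ) ^ 2 * g n n' / 2 + (repF S n' : ℝ) ^ 2 * g n n' / 2) =
      ∑ n ∈ range (2 * x), ∑ n' ∈ range (2 * x), (repF S n : ℝ) ^ 2 * g n n' := by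
    simp only [Finset.sum_add_distrib]
    have h4 : ∑ n ∈ range (2 * x), ∑ n' ∈ range (2 * x), (repF S n' : ℝ) ^ 2 * g n n' / 2 =
        ∑ n ∈ range (2 * x), ∑ n' ∈ range (2 * x), (repF S n : ℝ) ^ 2 * g n n' / 2 := by
      rw [Finset.sum_comm]
      refine Finset.sum_congr rfl fun n _ => Finset.sum_congr rfl fun n' _ => ?_
      rw [hsymm n' n]
    rw [h4, ← Finset.sum_add_distrib]
    refine Finset.sum_congr rfl fun n _ => ?_
    rw [← Finset.sum_add_distrib]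
    refine Finset.sum_congr rfl fun n' _ => ?_
    ring
  have h5 : ∑ n ∈ range (2 * x), ∑ n' ∈ range (2 * x), (repF S n : ℝ) ^ 2 * g n n' ≤
      ∑ n ∈ range (2 * x), (repF S n : ℝ) ^ 2 * (3 * x / M) := by
    refine Finset.sum_le_sum fun n _ => ?_
    rw [← Finset.mul_sum]
    exact mul_le_mul_of_nonneg_left (count_le hM hx n) (by positivity)
  calc ∑ u ∈ S ×ˢ S, ∑ v ∈ S ×ˢ S, (if u.1 + u.2 ≡ v.1 + v.2 [MOD M] then (1 : ℝ) else 0)
      = ∑ u ∈ S ×ˢ S, ∑ v ∈ S ×ˢ S, g (u.1 + u.2) (v.1 + v.2) := rfl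
    _ ≤ ∑ n ∈ range (2 * x), (repF S n : ℝ) ^ 2 * (3 * x / M) := by
        rw [h1]; exact h2.trans (h3.le.trans h5)
    _ = _ := by rw [← Finset.sum_mul, mul_comm]

/-- second moment of the number of differences in the residue classes modulo `M` -/
theorem sum_rho_sq (S : Finset ℕ) {M x : ℕ} (hS : S ⊆ range x) (hM : 0 < M) (hx : M ≤ x) :
    ∑ t ∈ range M, ((#{p ∈ S ×ˢ S | key M p = t} : ℕ) : ℝ) ^ 2 ≤
      3 * x / M * ∑ n ∈ range (2 * x), (repF S n : ℝ) ^ 2 := by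
  classical
  refine le_trans (le_of_eq ?_) (quad_le S hS hM hx)
  have h1 : ∀ t, ((#{p ∈ S ×ˢ S | key M p = t} : ℕ) : ℝ) ^ 2 =
      ∑ p ∈ S ×ˢ S, ∑ p' ∈ S ×ˢ S,
        (if key M p = t then (1 : ℝ) else 0) * (if key M p' = t then (1 : ℝ) else 0) := by
    intro t
    rw [sq, ← Finset.sum_boole, Finset.sum_mul_sum]
  simp only [h1]
  rw [Finset.sum_comm]
  have h2 : ∀ p ∈ S ×ˢ S, ∑ t ∈ range M, ∑ p' ∈ S ×ˢ S,
      (if key M p = t then (1 : ℝ) else 0) * (if key M p' = t then (1 : ℝ) else 0) =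
      ∑ p' ∈ S ×ˢ S, (if key M p = key M p' then (1 : ℝ) else 0) := by
    intro p _
    rw [Finset.sum_comm]
    refine Finset.sum_congr rfl fun p' _ => ?_
    rw [Finset.sum_eq_single (key M p)]
    · simp only [if_true, one_mul, eq_comm]
    · intro t _ ht
      rw [if_neg (Ne.symm ht), zero_mul]
    · intro h
      exact absurd (mem_range.2 (key_lt hM p)) h
  rw [Finset.sum_congr rfl h2]
  simp only [key_eq_iff hM, Finset.sum_product]
  refine Finset.sum_congr rfl fun a _ => ?_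
  -- `b c d` to `d b c`
  calc ∑ b ∈ S, ∑ c ∈ S, ∑ d ∈ S, (if a + d ≡ b + c [MOD M] then (1 : ℝ) else 0)
      = ∑ b ∈ S, ∑ d ∈ S, ∑ c ∈ S, (if a + d ≡ b + c [MOD M] then (1 : ℝ) else 0) := by
        refine Finset.sum_congr rfl fun b _ => ?_
        rw [Finset.sum_comm]
    _ = ∑ d ∈ S, ∑ b ∈ S, ∑ c ∈ S, (if a + d ≡ b + c [MOD M] then (1 : ℝ) else 0) := by
        rw [Finset.sum_comm]

theorem card_mult {M q q' : ℕ} (hM : 0 < M) (hq : q ∣ M) (hq' : q' ∣ M) :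
    ∑ t ∈ range M, ((if q ∣ t then (q : ℝ) else 0) * (if q' ∣ t then (q' : ℝ) else 0)) =
      M * (Nat.gcd q q' : ℝ) := by
  classical
  have hL : Nat.lcm q q' ∣ M := Nat.lcm_dvd hq hq'
  have hq0 : 0 < q := Nat.pos_of_dvd_of_pos hq hM
  have hq0' : 0 < q' := Nat.pos_of_dvd_of_pos hq' hM
  have hL0 : 0 < Nat.lcm q q' := Nat.lcm_pos hq0 hq0'
  have h1 : ∀ t, ((if q ∣ t then (q : ℝ) else 0) * (if q' ∣ t then (q' : ℝ) else 0)) =
      (q : ℝ) * q' * (if t ≡ 0 [MOD Nat.lcm q q'] then (1 : ℝ) else 0) := by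
    intro t
    have : t ≡ 0 [MOD Nat.lcm q q'] ↔ q ∣ t ∧ q' ∣ t := by
      rw [Nat.modEq_zero_iff_dvd, Nat.lcm_dvd_iff]
    by_cases ha : q ∣ t <;> by_cases hb : q' ∣ t <;> simp [this, ha, hb]
  simp only [h1]
  rw [← Finset.mul_sum, Finset.sum_boole]
  have h2 : #{t ∈ range M | t ≡ 0 [MOD Nat.lcm q q']} = M / Nat.lcm q q' := by
    rw [← Nat.count_eq_card_filter_range, Nat.count_modEq_card _ hL0]
    have : M % Nat.lcm q q' = 0 := Nat.mod_eq_zero_of_dvd hL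
    simp [this]
  rw [h2]
  have h3 : Nat.gcd q q' * Nat.lcm q q' = q * q' := Nat.gcd_mul_lcm q q'
  obtain ⟨c, hc⟩ := hL
  have h4 : M / Nat.lcm q q' = c := by
    rw [hc]; exact Nat.mul_div_cancel_left c hL0
  rw [h4]
  have h5 : q * q' * c = M * Nat.gcd q q' := by
    rw [← h3, hc]; ring
  exact_mod_cast h5

/-- The main inequality: congruent pairs modulo several moduli are bounded by the energy. -/
theorem energy (S : Finset ℕ) {M x : ℕ} (hS : S ⊆ range x) (hM : 0 < M) (hx : M ≤ x)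
    (Q : Finset ℕ) (hQ : ∀ q ∈ Q, q ∣ M) (w : ℕ → ℝ) :
    (∑ q ∈ Q, w q * (q * (cong S q : ℝ))) ^ 2 ≤
      3 * x * (∑ n ∈ range (2 * x), (repF S n : ℝ) ^ 2) *
        ∑ q ∈ Q, ∑ q' ∈ Q, w q * w q' * (Nat.gcd q q' : ℝ) := by
  classical
  set ρ : ℕ → ℝ := fun t => ((#{p ∈ S ×ˢ S | key M p = t} : ℕ) : ℝ) with hρ
  set φ : ℕ → ℝ := fun t => ∑ q ∈ Q, w q * (if q ∣ t then (q : ℝ) else 0) with hφ
  have h1 : ∀ q ∈ Q, (q : ℝ) * (cong S q : ℝ) =
      ∑ t ∈ range M, ρ t * (if q ∣ t then (q : ℝ) else 0) := by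
    intro q hq
    have h2 : (cong S q : ℝ) = ∑ p ∈ S ×ˢ S, (if q ∣ key M p then (1 : ℝ) else 0) := by
      unfold cong
      rw [Finset.sum_boole]
      simp only [dvd_key hM (hQ q hq)]
    have h3 : ∑ p ∈ S ×ˢ S, (if q ∣ key M p then (1 : ℝ) else 0) =
        ∑ t ∈ range M, ρ t * (if q ∣ t then (1 : ℝ) else 0) := by
      rw [← Finset.sum_fiberwise_of_maps_to (g := key M) (t := range M)
        (fun p _ => mem_range.2 (key_lt hM p))]
      refine Finset.sum_congr rfl fun t _ => ?_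
      rw [Finset.sum_congr rfl (g := fun _ => (if q ∣ t then (1 : ℝ) else 0)), Finset.sum_const,
        nsmul_eq_mul]
      intro p hp
      rw [(mem_filter.1 hp).2]
    rw [h2, h3, Finset.mul_sum]
    refine Finset.sum_congr rfl fun t _ => ?_
    split_ifs <;> ring
  have h2 : ∑ q ∈ Q, w q * (q * (cong S q : ℝ)) = ∑ t ∈ range M, ρ t * φ t := by
    rw [Finset.sum_congr rfl fun q hq => by rw [h1 q hq, Finset.mul_sum]]
    rw [Finset.sum_comm]
    refine Finset.sum_congr rfl fun t _ => ?_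
    simp only [hφ]
    rw [Finset.mul_sum]
    refine Finset.sum_congr rfl fun q _ => ?_
    ring
  have h3 : ∑ t ∈ range M, φ t ^ 2 = M * ∑ q ∈ Q, ∑ q' ∈ Q, w q * w q' * (Nat.gcd q q' : ℝ) := by
    have h4 : ∀ t, φ t ^ 2 = ∑ q ∈ Q, ∑ q' ∈ Q, w q * w q' *
        ((if q ∣ t then (q : ℝ) else 0) * (if q' ∣ t then (q' : ℝ) else 0)) := by
      intro t
      simp only [hφ]
      rw [sq, Finset.sum_mul_sum]
      refine Finset.sum_congr rfl fun q _ => Finset.sum_congr rfl fun q' _ => ?_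
      ring
    simp only [h4]
    rw [Finset.sum_comm, Finset.mul_sum]
    refine Finset.sum_congr rfl fun q hq => ?_
    rw [Finset.sum_comm, Finset.mul_sum]
    refine Finset.sum_congr rfl fun q' hq' => ?_
    rw [← Finset.mul_sum, card_mult hM (hQ q hq) (hQ q' hq')]
    ring
  have hM' : (0 : ℝ) < M := by exact_mod_cast hM
  rw [h2]
  refine (Finset.sum_mul_sq_le_sq_mul_sq _ _ _).trans ?_
  rw [h3]
  have hE : 0 ≤ ∑ q ∈ Q, ∑ q' ∈ Q, w q * w q' * (Nat.gcd q q' : ℝ) := by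
    have : 0 ≤ M * ∑ q ∈ Q, ∑ q' ∈ Q, w q * w q' * (Nat.gcd q q' : ℝ) := by
      rw [← h3]; positivity
    exact nonneg_of_mul_nonneg_right this hM'
  calc (∑ t ∈ range M, ρ t ^ 2) * (M * ∑ q ∈ Q, ∑ q' ∈ Q, w q * w q' * (Nat.gcd q q' : ℝ))
      ≤ (3 * x / M * ∑ n ∈ range (2 * x), (repF S n : ℝ) ^ 2) *
        (M * ∑ q ∈ Q, ∑ q' ∈ Q, w q * w q' * (Nat.gcd q q' : ℝ)) := by
        gcongr
        exact sum_rho_sq S hS hM hx
    _ = _ := by field_simp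

end Pool.Agent.Helper25.RC
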