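import Pool.Agent.Helper25.RC.LS
import Pool.Agent.Helper25.RC.Chain
import Pool.Agent.Helper3.RC.Chain
import Pool.Agent.Helper51.SV.Result

/-!
Consequences of the large sieve for the additive energy, in terms of sets.
-/

set_option autoImplicit false

open Finset Filter

namespace Pool.Agent.Helper25.RC

/-- the number of residue classes modulo `q` which contain an element of `A` -/
noncomputable def classes (A : Set ℕ) (q : ℕ) : ℕ := ((fun a => a % q) '' A).ncard

theorem rep51 (A : Set ℕ) (n : ℕ) : Pool.Agent.Helper51.SV.rep A n = rep A n := by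
  classical
  unfold Pool.Agent.Helper51.SV.rep rep
  rw [← Set.ncard_coe_finset]
  congr 1
  ext p
  rw [Set.mem_setOf_eq, mem_coe, mem_filter, HasAntidiagonal.mem_antidiagonal]
  constructor
  · rintro ⟨h1, h2, h3⟩; exact ⟨h3, h1, h2⟩
  · rintro ⟨h3, h1, h2⟩; exact ⟨h1, h2, h3⟩

theorem count51 (A : Set ℕ) (x : ℕ) : Pool.Agent.Helper51.SV.count A x = #(below A x) := by
  classical
  unfold Pool.Agent.Helper51.SV.count
  rw [← Set.ncard_coe_finset]
  congr 1
  ext n
  rw [Set.mem_setOf_eq, mem_coe, mem_below]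
  exact and_comm

theorem thick51 {A : Set ℕ} (hA : ¬ Null A) : Pool.Agent.Helper51.SV.Thick A := by
  obtain ⟨ε, hε, hf⟩ := not_null_iff.1 hA
  refine ⟨ε, hε, fun X => ?_⟩
  obtain ⟨x, hx1, hx2⟩ := (hf.and_eventually (eventually_ge_atTop X)).exists
  exact ⟨x, hx2, by rw [count51]; exact hx1.le⟩

theorem classes51 (A : Set ℕ) (q : ℕ) : Pool.Agent.Helper51.SV.classes A q = classes A q := rfl

theorem classes_coe (S : Finset ℕ) (q : ℕ) : classes (S : Set ℕ) q = #(S.image (· % q)) := by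
  classical
  unfold classes
  rw [← Set.ncard_coe_finset, coe_image]

theorem rep_coe (S : Finset ℕ) (n : ℕ) : rep (S : Set ℕ) n = repF S n := by
  rw [← rep51]
  unfold Pool.Agent.Helper51.SV.rep repF
  rw [← Set.ncard_coe_finset]
  congr 1
  ext p
  simp only [Set.mem_setOf_eq, mem_coe, mem_filter, mem_product]
  tauto

theorem classes_mono {A B : Set ℕ} (h : A ⊆ B) {q : ℕ} (hq : 0 < q) :
    classes A q ≤ classes B q := by
  unfold classes
  refine Set.ncard_le_ncard (Set.image_mono h) ?_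
  refine (Set.finite_Iio q).subset ?_
  rintro r ⟨a, _, rfl⟩
  exact Nat.mod_lt _ hq

/-- the large sieve for the additive energy -/
theorem LS_set (x : ℕ) (A : Finset ℕ) (w : ℕ → ℝ) (hA : ∀ a ∈ A, a < x) (hw : ∀ q, 0 ≤ w q) :
    (#A : ℝ) ^ 4 * (∑ q ∈ Icc 1 (Nat.sqrt x), w q * ((q : ℝ) / classes A q - 1)) ^ 2 ≤
      53 * x * (∑ n ∈ range (2 * x), (rep A n : ℝ) ^ 2) *
        ∑ q ∈ Icc 1 (Nat.sqrt x), ∑ q' ∈ Icc 1 (Nat.sqrt x),
          w q * w q' * ((Nat.gcd q q' : ℝ) - 1) := by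
  have h := large_sieve_classes A hA w hw
  simp only [classes_coe, rep_coe]
  exact h

/-- chains of moduli, finite form -/
theorem chain_set (x : ℕ) (A : Finset ℕ) (hA : ∀ a ∈ A, a < x) (m : ℕ → ℕ) (J : ℕ)
    (hdvd : ∀ j, m j ∣ m (j + 1)) (hlt : ∀ j, m j < m (j + 1)) (hJ : m J ≤ x) :
    (#A : ℝ) ^ 4 * ∑ j ∈ range (J + 1), (m j : ℝ) / (classes A (m j) : ℝ) ^ 2 ≤
      21 * x * ∑ n ∈ range (2 * x), (rep A n : ℝ) ^ 2 := by
  have hm : Pool.Agent.Helper3.RC.Chain m := ⟨chain_pos hlt hdvd 0, hdvd, fun j => by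
    have := chain_two hlt hdvd (Nat.le_succ j)
    simpa using this⟩
  have h := Pool.Agent.Helper3.RC.chain_classes A (x := x) (fun a ha => mem_range.2 (hA a ha)) hm hJ
  simp only [classes_coe, rep_coe]
  exact h

theorem sum_repF (S : Finset ℕ) {x : ℕ} (hS : S ⊆ range x) :
    ∑ n ∈ range (2 * x), (repF S n : ℝ) = (#S : ℝ) ^ 2 := by
  have h := sum_add S hS fun _ => 1
  simp only [mul_one, sum_const, nsmul_eq_mul] at h
  rw [← h, card_product]
  push_cast
  ring

theorem repF_le (S : Finset ℕ) (n : ℕ) : repF S n ≤ n + 1 := by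
  classical
  unfold repF
  calc #{p ∈ S ×ˢ S | p.1 + p.2 = n} ≤ #(antidiagonal n) := by
        refine card_le_card fun p hp => ?_
        rw [mem_filter] at hp
        exact HasAntidiagonal.mem_antidiagonal.2 hp.2
    _ = n + 1 := Nat.card_antidiagonal n

/-- a large value from the second moment -/
theorem exists_large (S : Finset ℕ) {x N : ℕ} (hS : S ⊆ range x)
    (hT : (2 : ℝ) * N * (N + 1) ^ 2 < (#S : ℝ) ^ 2) :
    ∃ n, N ≤ n ∧ n < 2 * x ∧
      (∑ n ∈ range (2 * x), (repF S n : ℝ) ^ 2) / (2 * (#S : ℝ) ^ 2) ≤ repF S n := by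
  classical
  set E : ℝ := ∑ n ∈ range (2 * x), (repF S n : ℝ) ^ 2 with hE
  have hN0 : (0 : ℝ) ≤ 2 * N * (N + 1) ^ 2 := by positivity
  have hT0 : (0 : ℝ) < (#S : ℝ) ^ 2 := lt_of_le_of_lt hN0 hT
  have hET : (#S : ℝ) ^ 2 ≤ E := by
    rw [← sum_repF S hS, hE]
    refine Finset.sum_le_sum fun n _ => ?_
    exact_mod_cast Nat.le_self_pow two_ne_zero (repF S n)
  by_contra hcon
  push Not at hcon
  set R : ℝ := E / (2 * (#S : ℝ) ^ 2) with hR
  have hR0 : 0 ≤ R := by
    rw [hR]; apply div_nonneg (by linarith) (by linarith)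
  have h1 : ∀ n ∈ range (2 * x), (repF S n : ℝ) ^ 2 ≤
      (if n < N then ((N : ℝ) + 1) ^ 2 else 0) + R * repF S n := by
    intro n hn
    rw [mem_range] at hn
    split_ifs with h
    · have h2 : (repF S n : ℝ) ≤ N + 1 := by
        have := repF_le S n
        exact_mod_cast this.trans (by omega)
      have h3 : (repF S n : ℝ) ^ 2 ≤ ((N : ℝ) + 1) ^ 2 := by gcongr
      have h4 : 0 ≤ R * repF S n := by positivity
      linarith
    · have h2 := hcon n (not_lt.1 h) hn
      have h3 : (0 : ℝ) ≤ repF S n := Nat.cast_nonneg _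
      nlinarith
  have h2 : E ≤ N * ((N : ℝ) + 1) ^ 2 + R * (#S : ℝ) ^ 2 := by
    calc E ≤ ∑ n ∈ range (2 * x), ((if n < N then ((N : ℝ) + 1) ^ 2 else 0) + R * repF S n) :=
          Finset.sum_le_sum h1
      _ = ∑ n ∈ range (2 * x), (if n < N then ((N : ℝ) + 1) ^ 2 else 0) + R * (#S : ℝ) ^ 2 := by
          rw [Finset.sum_add_distrib, ← Finset.mul_sum, sum_repF S hS]
      _ ≤ _ := by
          gcongr
          rw [← Finset.sum_filter, Finset.sum_const, nsmul_eq_mul]
          gcongr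
          have : {n ∈ range (2 * x) | n < N} ⊆ range N := by
            intro n hn
            rw [mem_filter] at hn
            exact mem_range.2 hn.2
          simpa using card_le_card this
  have h3 : R * (#S : ℝ) ^ 2 = E / 2 := by
    rw [hR]
    have h4 : (#S : ℝ) ≠ 0 := by
      intro h
      rw [h] at hT0
      simp at hT0
    field_simp
  linarith

/-- Chains of moduli: large values of the representation function. -/
theorem chain_rate {A : Set ℕ} (hA : ¬ Null A) :
    ∃ c : ℝ, 0 < c ∧ ∀ N : ℕ, ∃ n : ℕ, N ≤ n ∧ ∀ (m : ℕ → ℕ) (J : ℕ), (∀ j, m j ∣ m (j + 1)) →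
      (∀ j, m j < m (j + 1)) → m J ≤ n →
      c * ∑ j ∈ range (J + 1), (m j : ℝ) / (classes A (m j) : ℝ) ^ 2 ≤ (rep A n : ℝ) := by
  classical
  obtain ⟨δ, hδ, hfx⟩ := not_null_iff.1 hA
  refine ⟨δ ^ 2 / 84, by positivity, fun N => ?_⟩
  obtain ⟨B, hB⟩ := exists_nat_ge ((2 : ℝ) * N * (N + 1) ^ 2 / δ ^ 2)
  obtain ⟨x, hxT, hx1⟩ := (hfx.and_eventually (eventually_ge_atTop (B + 1))).exists
  set S := below A x with hS
  have hSx : S ⊆ range x := below_subset_range A x
  set T : ℝ := (#S : ℝ) with hT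
  have hx0 : (0 : ℝ) < x := by exact_mod_cast (by omega : 0 < x)
  have hs0 : (0 : ℝ) < √x := Real.sqrt_pos.2 hx0
  have hT0 : 0 < T := lt_of_le_of_lt (by positivity) hxT
  have hT2 : δ ^ 2 * x < T ^ 2 := by
    have h1 : (δ * √x) ^ 2 < T ^ 2 := by gcongr
    rwa [mul_pow, Real.sq_sqrt hx0.le] at h1
  have hTN : (2 : ℝ) * N * (N + 1) ^ 2 < T ^ 2 := by
    have h1 : (2 : ℝ) * N * (N + 1) ^ 2 ≤ B * δ ^ 2 := by
      rwa [div_le_iff₀ (by positivity)] at hB
    have h2 : (B : ℝ) ≤ x := by exact_mod_cast (by omega : B ≤ x)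
    nlinarith [sq_nonneg δ, mul_le_mul_of_nonneg_left h2 (sq_nonneg δ)]
  obtain ⟨n, hn1, hn2, hn3⟩ := exists_large S hSx hTN
  set E : ℝ := ∑ n ∈ range (2 * x), (repF S n : ℝ) ^ 2 with hE
  have hrep : (repF S n : ℝ) ≤ rep A n := by exact_mod_cast repF_below_le A x n
  have hET : T ^ 2 ≤ E := by
    rw [← sum_repF S hSx, hE]
    refine Finset.sum_le_sum fun n _ => ?_
    exact_mod_cast Nat.le_self_pow two_ne_zero (repF S n)
  have hr1 : (1 : ℝ) ≤ rep A n := by
    have h1 : (0 : ℝ) < repF S n := lt_of_lt_of_le (by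
      apply div_pos (by nlinarith) (by positivity)) hn3
    have h2 : 0 < repF S n := by exact_mod_cast h1
    have h3 : (1 : ℝ) ≤ repF S n := by exact_mod_cast h2
    linarith
  -- all chains up to `x`
  have hchain : ∀ (m : ℕ → ℕ) (J : ℕ), (∀ j, m j ∣ m (j + 1)) → (∀ j, m j < m (j + 1)) →
      m J ≤ x → ∑ j ∈ range (J + 1), (m j : ℝ) / (classes A (m j) : ℝ) ^ 2 ≤
        42 / δ ^ 2 * (rep A n : ℝ) := by
    intro m J hdvd hlt hJ
    have h1 := chain_set x S (fun a ha => mem_range.1 (hSx ha)) m J hdvd hlt hJ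
    simp only [rep_coe] at h1
    have hSA : (S : Set ℕ) ⊆ A := fun a ha => (mem_below.1 (mem_coe.1 ha)).2
    obtain ⟨a0, ha0⟩ : S.Nonempty := by
      rw [← card_pos]
      have h0 : (0 : ℝ) < #S := hT0
      exact_mod_cast h0
    have h2 : ∑ j ∈ range (J + 1), (m j : ℝ) / (classes A (m j) : ℝ) ^ 2 ≤
        ∑ j ∈ range (J + 1), (m j : ℝ) / (classes (S : Set ℕ) (m j) : ℝ) ^ 2 := by
      refine Finset.sum_le_sum fun j _ => ?_
      have h3 : 0 < classes (S : Set ℕ) (m j) := by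
        rw [classes_coe]
        exact card_pos.2 ⟨_, mem_image_of_mem _ ha0⟩
      have h4 : classes (S : Set ℕ) (m j) ≤ classes A (m j) :=
        classes_mono hSA (chain_pos hlt hdvd j)
      have h3' : (0 : ℝ) < classes (S : Set ℕ) (m j) := by exact_mod_cast h3
      gcongr
    have h5 : T ^ 4 * ∑ j ∈ range (J + 1), (m j : ℝ) / (classes A (m j) : ℝ) ^ 2 ≤
        21 * x * E := (mul_le_mul_of_nonneg_left h2 (by positivity)).trans h1
    have h6 : E ≤ 2 * T ^ 2 * (rep A n : ℝ) := by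
      have := hn3.trans hrep
      rw [div_le_iff₀ (by positivity)] at this
      linarith
    have h7 : T ^ 4 * ∑ j ∈ range (J + 1), (m j : ℝ) / (classes A (m j) : ℝ) ^ 2 ≤
        T ^ 4 * (42 / δ ^ 2 * (rep A n : ℝ)) := by
      refine h5.trans ?_
      calc 21 * (x : ℝ) * E ≤ 21 * (x : ℝ) * (2 * T ^ 2 * (rep A n : ℝ)) := by gcongr
        _ = 42 * T ^ 2 * (rep A n : ℝ) / δ ^ 2 * (δ ^ 2 * x) := by
            field_simp
            ring
        _ ≤ 42 * T ^ 2 * (rep A n : ℝ) / δ ^ 2 * T ^ 2 := by gcongr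
        _ = _ := by ring
    exact le_of_mul_le_mul_left h7 (by positivity)
  refine ⟨n, hn1, fun m J hdvd hlt hJ => ?_⟩
  rcases le_or_gt (m J) x with h | h
  · have h1 := hchain m J hdvd hlt h
    calc δ ^ 2 / 84 * ∑ j ∈ range (J + 1), (m j : ℝ) / (classes A (m j) : ℝ) ^ 2
        ≤ δ ^ 2 / 84 * (42 / δ ^ 2 * (rep A n : ℝ)) := by gcongr
      _ = (rep A n : ℝ) / 2 := by
          field_simp
          ring
      _ ≤ (rep A n : ℝ) := by linarith
  · -- the last term
    have hlast : (m J : ℝ) / (classes A (m J) : ℝ) ^ 2 ≤ 2 / δ ^ 2 := by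
      have h1 : T ≤ classes A (m J) := by
        have h2 : S.image (· % m J) = S := by
          have : ∀ a ∈ S, a % m J = a := fun a ha =>
            Nat.mod_eq_of_lt (lt_trans (mem_range.1 (hSx ha)) h)
          calc S.image (· % m J) = S.image id := Finset.image_congr this
            _ = S := image_id
        have h3 : classes (S : Set ℕ) (m J) ≤ classes A (m J) :=
          classes_mono (fun a ha => (mem_below.1 (mem_coe.1 ha)).2) (chain_pos hlt hdvd J)
        rw [classes_coe, h2] at h3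
        have h3' : (#S : ℝ) ≤ classes A (m J) := by exact_mod_cast h3
        exact h3'
      have h4 : (m J : ℝ) ≤ 2 * x := by exact_mod_cast (by omega : m J ≤ 2 * x)
      have h4' : (0 : ℝ) < classes A (m J) := lt_of_lt_of_le hT0 h1
      rw [div_le_div_iff₀ (by positivity) (by positivity)]
      have h5 : T ^ 2 ≤ (classes A (m J) : ℝ) ^ 2 := by gcongr
      calc (m J : ℝ) * δ ^ 2 ≤ 2 * x * δ ^ 2 := by gcongr
        _ = 2 * (δ ^ 2 * x) := by ring
        _ ≤ 2 * (classes A (m J) : ℝ) ^ 2 := by linarith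
    rw [Finset.sum_range_succ, mul_add]
    have h8 : δ ^ 2 / 84 * ((m J : ℝ) / (classes A (m J) : ℝ) ^ 2) ≤ 1 / 42 := by
      calc δ ^ 2 / 84 * ((m J : ℝ) / (classes A (m J) : ℝ) ^ 2) ≤ δ ^ 2 / 84 * (2 / δ ^ 2) := by
            gcongr
        _ = 1 / 42 := by
            field_simp
            norm_num
    have h9 : δ ^ 2 / 84 * ∑ j ∈ range J, (m j : ℝ) / (classes A (m j) : ℝ) ^ 2 ≤
        (rep A n : ℝ) / 2 := by
      rcases Nat.eq_zero_or_pos J with h0 | h0
      · subst h0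
        simp only [range_zero, sum_empty, mul_zero]
        linarith
      · obtain ⟨J', rfl⟩ := Nat.exists_eq_succ_of_ne_zero h0.ne'
        have h10 : m J' ≤ x := by
          have h11 := chain_two hlt hdvd (Nat.le_succ J')
          have h12 : 2 * m J' ≤ m (J' + 1) := by simpa using h11
          have h13 : m (J' + 1) ≤ n := hJ
          omega
        have h14 := hchain m J' hdvd hlt h10
        calc δ ^ 2 / 84 * ∑ j ∈ range (J' + 1), (m j : ℝ) / (classes A (m j) : ℝ) ^ 2
            ≤ δ ^ 2 / 84 * (42 / δ ^ 2 * (rep A n : ℝ)) := by gcongr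
          _ = (rep A n : ℝ) / 2 := by
              field_simp
              ring
    linarith

theorem nu_le_classes (A : Set ℕ) {q : ℕ} (hq : 0 < q) : nu A q ≤ classes A q := by
  classical
  unfold nu classes
  rw [← Set.ncard_coe_finset]
  refine Set.ncard_le_ncard ?_ ?_
  · intro r hr
    rw [mem_coe, mem_filter, mem_range] at hr
    obtain ⟨h1, h2⟩ := hr
    have h3 : (res A q r).Nonempty := by
      by_contra h
      rw [Set.not_nonempty_iff_eq_empty] at h
      refine h2 fun ε hε => ?_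
      filter_upwards with x
      have h4 : below (res A q r) x = ∅ := by
        rw [h]
        refine Finset.eq_empty_of_forall_notMem fun n hn => ?_
        exact (mem_below.1 hn).2
      rw [h4, card_empty, Nat.cast_zero]
      positivity
    obtain ⟨n, hn⟩ := h3
    refine ⟨q * n + r, hn, ?_⟩
    show (q * n + r) % q = r
    rw [Nat.mul_add_mod, Nat.mod_eq_of_lt h1]
  · refine (Set.finite_Iio q).subset ?_
    rintro r ⟨a, _, rfl⟩
    exact Nat.mod_lt _ hq

/-- Few residue classes for infinitely many moduli. -/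
theorem root_classes {A : Set ℕ} (hA : ¬ Null A) (C K : ℝ)
    (hC : ∃ᶠ q : ℕ in atTop, (classes A q : ℝ) ≤ C * √q) :
    ∃ᶠ x : ℕ in atTop, K * x < ∑ n ∈ range x, (rep A n : ℝ) ^ 2 := by
  by_contra hcon
  rw [Filter.not_frequently] at hcon
  have hK : ∀ᶠ x : ℕ in atTop, ∑ n ∈ range x, (rep A n : ℝ) ^ 2 ≤ K * x :=
    hcon.mono fun x hx => not_lt.1 hx
  have h1 := part1 hA hK C
  obtain ⟨q, hq, h2, h3⟩ := (hC.and_eventually (h1.and (eventually_gt_atTop 0))).exists
  have h4 : (nu A q : ℝ) ≤ classes A q := by exact_mod_cast nu_le_classes A h3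
  have h5 : C * √q < (nu A q : ℝ) := h2
  linarith

end Pool.Agent.Helper25.RC
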