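import Pool.Agent.Helper25.RC.Thick
import Pool.Agent.Helper5.RC.Sharp
import Pool.Agent.Helper51.SV.SharpC

/-!
A large sieve inequality for the additive energy, and sets with few representations in residue
classes.

`A` is null if it has `o(√x)` elements below `x`; `classes A q` is the number of residue classes
modulo `q` met by `A`.
-/

set_option autoImplicit false

open Finset Filter Pool.Agent.Helper25.RC

namespace Pool.Agent.Results.MP_12a1af_nt.LargeSieveEnergy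

open Classical in
theorem result :
    -- the large sieve for the additive energy
    (∀ (x : ℕ) (A : Finset ℕ) (w : ℕ → ℝ), (∀ a ∈ A, a < x) → (∀ q, 0 ≤ w q) →
      (#A : ℝ) ^ 4 * (∑ q ∈ Icc 1 (Nat.sqrt x), w q * ((q : ℝ) / classes A q - 1)) ^ 2 ≤
        53 * x * (∑ n ∈ range (2 * x), (rep A n : ℝ) ^ 2) *
          ∑ q ∈ Icc 1 (Nat.sqrt x), ∑ q' ∈ Icc 1 (Nat.sqrt x),
            w q * w q' * ((Nat.gcd q q' : ℝ) - 1)) ∧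
    -- hence, for pairwise coprime moduli and for chains
    (∀ G : ℝ, 0 < G → ∃ c : ℝ, 0 < c ∧ ∀ (x : ℕ) (A M : Finset ℕ), (∀ a ∈ A, a < x) →
      (∀ m ∈ M, 2 ≤ m ∧ m ≤ x) → (M : Set ℕ).Pairwise Nat.Coprime →
      c * (#A : ℝ) ^ 4 * Real.exp (∑ m ∈ M, min G (((m : ℝ) / classes A m - 1) ^ 2) / m) ≤
        x * ∑ n ∈ range (2 * x), (rep A n : ℝ) ^ 2) ∧
    (∀ (x : ℕ) (A : Finset ℕ) (m : ℕ → ℕ) (J : ℕ), (∀ a ∈ A, a < x) → (∀ j, m j ∣ m (j + 1)) →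
      (∀ j, m j < m (j + 1)) → m J ≤ x →
      (#A : ℝ) ^ 4 * ∑ j ∈ range (J + 1), (m j : ℝ) / (classes A (m j) : ℝ) ^ 2 ≤
        21 * x * ∑ n ∈ range (2 * x), (rep A n : ℝ) ^ 2) ∧
    -- infinite sets
    (∀ A : Set ℕ, ¬ Null A →
      (∀ G : ℝ, 0 < G → ∃ c : ℝ, 0 < c ∧ ∀ N : ℕ, ∃ n : ℕ, N ≤ n ∧ ∀ M : Finset ℕ,
        (∀ m ∈ M, 2 ≤ m ∧ m ≤ n) → (M : Set ℕ).Pairwise Nat.Coprime →
        c * Real.exp (∑ m ∈ M, min G (((m : ℝ) / classes A m - 1) ^ 2) / m) ≤ rep A n) ∧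
      (∃ c : ℝ, 0 < c ∧ ∀ N : ℕ, ∃ n : ℕ, N ≤ n ∧ ∀ (m : ℕ → ℕ) (J : ℕ),
        (∀ j, m j ∣ m (j + 1)) → (∀ j, m j < m (j + 1)) → m J ≤ n →
        c * ∑ j ∈ range (J + 1), (m j : ℝ) / (classes A (m j) : ℝ) ^ 2 ≤ rep A n) ∧
      (∀ δ K : ℝ, 0 < δ → δ ≤ 1 / 2 →
        (∀ p : ℕ, p.Prime → (classes A p : ℝ) ≤ (1 - δ) * p + K) →
        ∃ c : ℝ, 0 < c ∧ ∀ N : ℕ, ∃ n : ℕ, N ≤ n ∧
          c * Real.log n ^ ((δ / (1 - δ)) ^ 2) ≤ rep A n) ∧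
      (∀ C K : ℝ, (∃ᶠ q : ℕ in atTop, (classes A q : ℝ) ≤ C * √q) →
        ∃ᶠ x : ℕ in atTop, K * x < ∑ n ∈ range x, (rep A n : ℝ) ^ 2)) ∧
    -- sharpness for coprime moduli and for chains
    (∃ C : ℝ, ∀ P : Finset ℕ, (∀ p ∈ P, p.Prime ∧ p % 4 = 3) →
      ∀ᶠ x : ℕ in atTop, ∃ A : Finset ℕ, (∀ a ∈ A, a < x) ∧ √x ≤ (#A : ℝ) ∧
        (∀ p ∈ P, 2 * classes A p < p) ∧
        ∑ n ∈ range (2 * x), (rep A n : ℝ) ^ 2 ≤ C * x * Real.exp (∑ p ∈ P, 1 / (p : ℝ))) ∧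
    (∀ (m : ℕ → ℕ) (L : ℕ) (N : ℕ → ℝ), (∀ j, m j ∣ m (j + 1)) → (∀ j, m j < m (j + 1)) →
      (∀ j, m (j + 1) ≤ L * m j) → (∀ j, 0 < N j) →
      ((∃ (A : Set ℕ) (C : ℝ), (∀ x : ℕ, 2 ≤ x → √x ≤ C * #(below A x)) ∧
        (∀ x : ℕ, ∑ n ∈ range x, (rep A n : ℝ) ^ 2 ≤ C * x) ∧
        ∀ j, (classes A (m j) : ℝ) ≤ C * N j) ↔
        Summable fun j => (m j : ℝ) / N j ^ 2)) := by
  refine ⟨LS_set, fun G hG => ?_, fun x A m J hA hdvd hlt hJ => chain_set x A hA m J hdvd hlt hJ,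
    fun A hA => ⟨fun G hG => ?_, chain_rate hA, fun δ K hδ hδ2 hp => ?_,
      fun C K hC => root_classes hA C K hC⟩, Pool.Agent.Helper51.SV.sharp_coprime,
    fun m L N hdvd hlt hL hN =>
      Pool.Agent.Helper5.RC.sharp_iff ⟨chain_pos hlt hdvd 0, hdvd, fun j => ?_⟩ hL hN⟩
  · obtain ⟨c, hc, h⟩ := Pool.Agent.Helper51.SV.result.1 G hG
    refine ⟨c, hc, fun x A M hA hM hco => ?_⟩
    have := h x A M hA hM hco
    simp only [rep51] at this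
    exact this
  · obtain ⟨c, hc, h⟩ := (Pool.Agent.Helper51.SV.result.2 A (thick51 hA)).1 G hG
    refine ⟨c, hc, fun N => ?_⟩
    obtain ⟨n, hn, h'⟩ := h N
    refine ⟨n, hn, fun M hM hco => ?_⟩
    have := h' M hM hco
    rw [rep51] at this
    exact this
  · obtain ⟨c, hc, h⟩ := (Pool.Agent.Helper51.SV.result.2 A (thick51 hA)).2 δ K hδ hδ2 hp
    refine ⟨c, hc, fun N => ?_⟩
    obtain ⟨n, hn, h'⟩ := h N
    rw [rep51] at h'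
    exact ⟨n, hn, h'⟩
  · have := chain_two hlt hdvd (Nat.le_succ j)
    simpa using this

end Pool.Agent.Results.MP_12a1af_nt.LargeSieveEnergy
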