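import Pool.Agent.Helper51.SV.Rel

/-!
A set with small energy has few elements in every set which misses a positive proportion of the
residue classes modulo the primes of a set with divergent sum of reciprocals.
-/

set_option autoImplicit false

open Finset Filter

namespace Pool.Agent.Helper25.RC

theorem null_local {δ C : ℝ} (hδ : 0 < δ) {A T P : Set ℕ}
    (hA : ∀ x : ℕ, ∑ n ∈ range x, (rep A n : ℝ) ^ 2 ≤ C * x)
    (hP : ∀ p ∈ P, p.Prime ∧ (classes T p : ℝ) ≤ (1 - δ) * p)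
    (hS : ¬ Summable fun p : P => 1 / ((p : ℕ) : ℝ)) : Null (A ∩ T) := by
  intro ε hε
  obtain ⟨c, hc, h⟩ := Pool.Agent.Helper51.Rel.cop (δ ^ 2) (by positivity)
  have hC0 : (0 : ℝ) ≤ max C 0 := le_max_right _ _
  -- choose a finite set of primes
  obtain ⟨R, hR⟩ : ∃ R : ℝ, 2 * max C 0 ≤ c * ε ^ 4 * Real.exp (δ ^ 2 * R) := by
    have ht : Tendsto (fun R : ℝ => c * ε ^ 4 * Real.exp (δ ^ 2 * R)) atTop atTop :=
      (Real.tendsto_exp_atTop.comp (tendsto_id.const_mul_atTop (by positivity))).const_mul_atTop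
        (by positivity)
    exact (ht.eventually_ge_atTop _).exists
  obtain ⟨u, hu⟩ : ∃ u : Finset P, R < ∑ p ∈ u, 1 / ((p : ℕ) : ℝ) := by
    by_contra hcon
    push Not at hcon
    exact hS (summable_of_sum_le (fun p => by positivity) hcon)
  set M : Finset ℕ := u.map (Function.Embedding.subtype _) with hM
  have hMP : ∀ m ∈ M, m ∈ P := by
    intro m hm
    rw [hM, Finset.mem_map] at hm
    obtain ⟨p, _, rfl⟩ := hm
    exact p.2
  have hsum : ∑ p ∈ u, 1 / ((p : ℕ) : ℝ) = ∑ m ∈ M, 1 / (m : ℝ) := by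
    rw [hM, sum_map]
    rfl
  filter_upwards [eventually_ge_atTop (M.sup id)] with x hx
  have h1 := h x A T M (fun m hm => ⟨(hP m (hMP m hm)).1.two_le, (le_sup (f := id) hm).trans hx⟩)
    (fun m hm m' hm' hne => (Nat.coprime_primes (hP m (hMP m hm)).1 (hP m' (hMP m' hm')).1).2 hne)
  rcases T.eq_empty_or_nonempty with hT | hT
  · have : below (A ∩ T) x = ∅ := by
      rw [hT, Set.inter_empty]
      exact eq_empty_of_forall_notMem fun n hn => (mem_below.1 hn).2
    rw [this, card_empty, Nat.cast_zero]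
    positivity
  have h2 : δ ^ 2 * R ≤ ∑ m ∈ M, min (δ ^ 2) (((m : ℝ) / classes T m - 1) ^ 2) / m := by
    rw [hsum] at hu
    have h3 : δ ^ 2 * ∑ m ∈ M, 1 / (m : ℝ) =
        ∑ m ∈ M, δ ^ 2 / (m : ℝ) := by
      rw [mul_sum]
      exact sum_congr rfl fun m _ => by ring
    calc δ ^ 2 * R ≤ δ ^ 2 * ∑ m ∈ M, 1 / (m : ℝ) := by gcongr
      _ = ∑ m ∈ M, δ ^ 2 / (m : ℝ) := h3
      _ ≤ _ := by
        refine sum_le_sum fun m hm => ?_
        have hp := hP m (hMP m hm)
        have hm0 : (0 : ℝ) < m := by exact_mod_cast hp.1.pos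
        have hc1 : (0 : ℝ) < classes T m := by
          rw [← classes51]
          exact_mod_cast Pool.Agent.Helper51.SV.classes_pos hT m hp.1.pos
        have h4 : 1 + δ ≤ (m : ℝ) / classes T m := by
          rw [le_div_iff₀ hc1]
          nlinarith [hp.2, mul_nonneg (mul_nonneg hδ.le hδ.le) hm0.le]
        have h5 : δ ^ 2 ≤ ((m : ℝ) / classes T m - 1) ^ 2 := by
          have : δ ≤ (m : ℝ) / classes T m - 1 := by linarith
          gcongr
        rw [min_eq_left h5]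
  have h6 : ∑ n ∈ range (2 * x), (rep A n : ℝ) ^ 2 ≤ max C 0 * (2 * x) := by
    refine (hA (2 * x)).trans ?_
    push_cast
    gcongr
    exact le_max_left _ _
  set b : ℝ := (#(below (A ∩ T) x) : ℝ) with hb
  have hb0 : 0 ≤ b := by positivity
  have hx0 : (0 : ℝ) ≤ x := by positivity
  have h7 : b ^ 4 ≤ (ε * √x) ^ 4 := by
    have e3 : (√(x : ℝ)) ^ 4 = (x : ℝ) ^ 2 := by
      rw [show (√(x : ℝ)) ^ 4 = ((√(x : ℝ)) ^ 2) ^ 2 by ring, Real.sq_sqrt hx0]
    rw [mul_pow, e3]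
    have hexp : 0 < Real.exp (δ ^ 2 * R) := Real.exp_pos _
    have h8 : c * Real.exp (δ ^ 2 * R) * b ^ 4 ≤ c * Real.exp (δ ^ 2 * R) * (ε ^ 4 * (x : ℝ) ^ 2) :=
      calc c * Real.exp (δ ^ 2 * R) * b ^ 4 = c * b ^ 4 * Real.exp (δ ^ 2 * R) := by ring
        _ ≤ c * b ^ 4 * Real.exp (∑ m ∈ M, min (δ ^ 2) (((m : ℝ) / classes T m - 1) ^ 2) / m) := by
          gcongr
        _ ≤ x * ∑ n ∈ range (2 * x), (rep A n : ℝ) ^ 2 := h1
        _ ≤ x * (max C 0 * (2 * x)) := by gcongr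
        _ = 2 * max C 0 * (x : ℝ) ^ 2 := by ring
        _ ≤ c * ε ^ 4 * Real.exp (δ ^ 2 * R) * (x : ℝ) ^ 2 := by gcongr
        _ = _ := by ring
    exact le_of_mul_le_mul_left h8 (by positivity)
  exact le_of_pow_le_pow_left₀ (by norm_num) (by positivity) h7

end Pool.Agent.Helper25.RC
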