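import Pool.Agent.Helper51.SV.Rel

/-!
A set with small energy has few elements in every set `T` which misses `δ m * m` residue classes
modulo `m`, for pairwise coprime `m` with `∑ δ m ^ 2 / m = ∞`.
-/

set_option autoImplicit false

open Finset Filter

namespace Pool.Agent.Helper25.RC

theorem null_local2 {C : ℝ} {A T M : Set ℕ} {δ : ℕ → ℝ}
    (hA : ∀ x : ℕ, ∑ n ∈ range x, (rep A n : ℝ) ^ 2 ≤ C * x)
    (hM : ∀ m ∈ M, 2 ≤ m ∧ 0 ≤ δ m ∧ (classes T m : ℝ) ≤ (1 - δ m) * m)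
    (hco : M.Pairwise Nat.Coprime)
    (hS : ¬ Summable fun m : M => δ m ^ 2 / ((m : ℕ) : ℝ)) : Null (A ∩ T) := by
  intro ε hε
  obtain ⟨c, hc, h⟩ := Pool.Agent.Helper51.Rel.cop 1 one_pos
  have hC0 : (0 : ℝ) ≤ max C 0 := le_max_right _ _
  -- choose a finite set of moduli
  obtain ⟨R, hR⟩ : ∃ R : ℝ, 2 * max C 0 ≤ c * ε ^ 4 * Real.exp R :=
    ((Real.tendsto_exp_atTop.const_mul_atTop (by positivity : 0 < c * ε ^ 4)).eventually_ge_atTop
      _).exists
  obtain ⟨u, hu⟩ : ∃ u : Finset M, R < ∑ m ∈ u, δ m ^ 2 / ((m : ℕ) : ℝ) := by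
    by_contra hcon
    push Not at hcon
    exact hS (summable_of_sum_le (fun p => by positivity) hcon)
  set F : Finset ℕ := u.map (Function.Embedding.subtype _) with hF
  have hFM : ∀ m ∈ F, m ∈ M := by
    intro m hm
    rw [hF, Finset.mem_map] at hm
    obtain ⟨p, _, rfl⟩ := hm
    exact p.2
  have hsum : ∑ m ∈ u, δ m ^ 2 / ((m : ℕ) : ℝ) = ∑ m ∈ F, δ m ^ 2 / (m : ℝ) := by
    rw [hF, sum_map]
    rfl
  filter_upwards [eventually_ge_atTop (F.sup id)] with x hx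
  have h1 := h x A T F (fun m hm => ⟨(hM m (hFM m hm)).1, (le_sup (f := id) hm).trans hx⟩)
    (fun m hm m' hm' hne => hco (hFM m hm) (hFM m' hm') hne)
  rcases T.eq_empty_or_nonempty with hT | hT
  · have : below (A ∩ T) x = ∅ := by
      rw [hT, Set.inter_empty]
      exact eq_empty_of_forall_notMem fun n hn => (mem_below.1 hn).2
    rw [this, card_empty, Nat.cast_zero]
    positivity
  have h2 : R ≤ ∑ m ∈ F, min (1 : ℝ) (((m : ℝ) / classes T m - 1) ^ 2) / m := by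
    rw [hsum] at hu
    refine hu.le.trans (sum_le_sum fun m hm => ?_)
    obtain ⟨hm2, hd0, hd⟩ := hM m (hFM m hm)
    have hm0 : (0 : ℝ) < m := by exact_mod_cast (by omega : 0 < m)
    have hc1 : (0 : ℝ) < classes T m := by
      rw [← classes51]
      exact_mod_cast Pool.Agent.Helper51.SV.classes_pos hT m (by omega)
    have h3 : 1 + δ m ≤ (m : ℝ) / classes T m := by
      rw [le_div_iff₀ hc1]
      nlinarith [mul_nonneg (mul_nonneg hd0 hd0) hm0.le]
    have h4 : δ m ^ 2 ≤ ((m : ℝ) / classes T m - 1) ^ 2 := by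
      have : δ m ≤ (m : ℝ) / classes T m - 1 := by linarith
      gcongr
    have h5 : δ m ≤ 1 := by
      by_contra hcon
      push Not at hcon
      nlinarith
    have h6 : δ m ^ 2 ≤ 1 := by nlinarith
    exact div_le_div_of_nonneg_right (le_min h6 h4) hm0.le
  have h6 : ∑ n ∈ range (2 * x), (rep A n : ℝ) ^ 2 ≤ max C 0 * (2 * x) := by
    refine (hA (2 * x)).trans ?_
    push_cast
    gcongr
    exact le_max_left _ _
  set b : ℝ := (#(below (A ∩ T) x) : ℝ) with hb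
  have hb0 : 0 ≤ b := by positivity
  have hx0 : (0 : ℝ) ≤ x := by positivity
  have h7 : b ^ 4 ≤ (ε * √x) ^ 4 := by
    have e3 : (√(x : ℝ)) ^ 4 = (x : ℝ) ^ 2 := by
      rw [show (√(x : ℝ)) ^ 4 = ((√(x : ℝ)) ^ 2) ^ 2 by ring, Real.sq_sqrt hx0]
    rw [mul_pow, e3]
    have hexp : 0 < Real.exp R := Real.exp_pos _
    have h8 : c * Real.exp R * b ^ 4 ≤ c * Real.exp R * (ε ^ 4 * (x : ℝ) ^ 2) :=
      calc c * Real.exp R * b ^ 4 = c * b ^ 4 * Real.exp R := by ring
        _ ≤ c * b ^ 4 * Real.exp (∑ m ∈ F, min (1 : ℝ) (((m : ℝ) / classes T m - 1) ^ 2) / m) := by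
          gcongr
        _ ≤ x * ∑ n ∈ range (2 * x), (rep A n : ℝ) ^ 2 := h1
        _ ≤ x * (max C 0 * (2 * x)) := by gcongr
        _ = 2 * max C 0 * (x : ℝ) ^ 2 := by ring
        _ ≤ c * ε ^ 4 * Real.exp R * (x : ℝ) ^ 2 := by gcongr
        _ = _ := by ring
    exact le_of_mul_le_mul_left h8 (by positivity)
  exact le_of_pow_le_pow_left₀ (by norm_num) (by positivity) h7

end Pool.Agent.Helper25.RC
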