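import Pool.Agent.Helper51.SV.Rel
import Pool.Agent.Helper51.SV.SharpC
import Pool.Agent.Helper25.RC.Local2
import Pool.Agent.Helper25.RC.Basis

/-!
A sieve for sets with few representations: a set `A` whose number of representations is bounded in
mean square has few elements in each sieved set `T`.

`A` is null if it has `o(√x)` elements below `x`; `classes T m` is the number of residue classes
modulo `m` met by `T`.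
-/

set_option autoImplicit false

open Finset Filter Pool.Agent.Helper25.RC

namespace Pool.Agent.Results.MP_12a1af_nt.LargeSieveEnergy

theorem result :
    -- (1) sets `T` which miss `δ m * m` classes modulo `m`, for pairwise coprime `m` with
    -- `∑ δ m ^ 2 / m = ∞`
    (∀ (C : ℝ) (A T M : Set ℕ) (δ : ℕ → ℝ),
      (∀ x : ℕ, ∑ n ∈ range x, (rep A n : ℝ) ^ 2 ≤ C * x) →
      (∀ m ∈ M, 2 ≤ m ∧ 0 ≤ δ m ∧ (classes T m : ℝ) ≤ (1 - δ m) * m) →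
      M.Pairwise Nat.Coprime → ¬ Summable (fun m : M => δ m ^ 2 / ((m : ℕ) : ℝ)) →
      Null (A ∩ T)) ∧
    -- (2) sets `T` which miss `δ p - K` classes modulo every prime `p`
    (∀ δ K C : ℝ, 0 < δ → δ ≤ 1 / 2 → ∃ C' : ℝ, ∀ A T : Set ℕ,
      (∀ x : ℕ, ∑ n ∈ range x, (rep A n : ℝ) ^ 2 ≤ C * x) →
      (∀ p : ℕ, p.Prime → (classes T p : ℝ) ≤ (1 - δ) * p + K) →
      ∀ x : ℕ, 2 ≤ x → (#(below (A ∩ T) x) : ℝ) * Real.log x ^ ((δ / (1 - δ)) ^ 2 / 4) ≤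
        C' * √x) ∧
    (∀ A T : Set ℕ, ¬ Null (A ∩ T) → ∀ δ K : ℝ, 0 < δ → δ ≤ 1 / 2 →
      (∀ p : ℕ, p.Prime → (classes T p : ℝ) ≤ (1 - δ) * p + K) →
      ∃ c : ℝ, 0 < c ∧ ∀ N : ℕ, ∃ n : ℕ, N ≤ n ∧
        c * Real.log n ^ ((δ / (1 - δ)) ^ 2) ≤ rep A n) ∧
    -- (3) squares
    (∀ A : Set ℕ, ¬ Null (A ∩ {n | IsSquare n}) → ∃ c : ℝ, 0 < c ∧ ∀ N : ℕ, ∃ n : ℕ, N ≤ n ∧
      c * Real.log n ≤ rep A n) ∧
    (∀ C : ℝ, ∃ C' : ℝ, ∀ A : Set ℕ, (∀ x : ℕ, ∑ n ∈ range x, (rep A n : ℝ) ^ 2 ≤ C * x) →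
      ∀ x : ℕ, 2 ≤ x → (#(below (A ∩ {n | IsSquare n}) x) : ℝ) ≤
        C' * √x / Real.log x ^ (1 / 4 : ℝ)) ∧
    (∃ (A : Set ℕ) (c C : ℝ), 0 < c ∧ (∀ᶠ n : ℕ in atTop, 1 ≤ rep A n) ∧
      (∀ x : ℕ, 2 ≤ x →
        c * √x / Real.log x ^ (1 / 4 : ℝ) ≤ #(below (A ∩ {n | IsSquare n}) x)) ∧
      ∀ x : ℕ, ∑ n ∈ range x, (rep A n : ℝ) ^ 2 ≤ C * x) ∧
    -- (4) the inequality behind this, and its sharpness
    (∀ G : ℝ, 0 < G → ∃ c : ℝ, 0 < c ∧ ∀ (x : ℕ) (A T : Set ℕ) (M : Finset ℕ),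
      (∀ m ∈ M, 2 ≤ m ∧ m ≤ x) → (M : Set ℕ).Pairwise Nat.Coprime →
      c * (#(below (A ∩ T) x) : ℝ) ^ 4 *
          Real.exp (∑ m ∈ M, min G (((m : ℝ) / classes T m - 1) ^ 2) / m) ≤
        x * ∑ n ∈ range (2 * x), (rep A n : ℝ) ^ 2) ∧
    (∃ C : ℝ, ∀ P : Finset ℕ, (∀ p ∈ P, p.Prime ∧ p % 4 = 3) →
      ∀ᶠ x : ℕ in atTop, ∃ A : Finset ℕ, (∀ a ∈ A, a < x) ∧ √x ≤ (#A : ℝ) ∧
        (∀ p ∈ P, 2 * classes A p < p) ∧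
        ∑ n ∈ range (2 * x), (rep A n : ℝ) ^ 2 ≤ C * x * Real.exp (∑ p ∈ P, 1 / (p : ℝ))) :=
  ⟨fun _ _ _ _ _ hA hM hco hS => Pool.Agent.Helper25.RC.null_local2 hA hM hco hS,
    fun δ K C hδ hδ2 => Pool.Agent.Helper51.Rel.few δ K C hδ hδ2,
    fun _ _ h δ K hδ hδ2 hT => Pool.Agent.Helper51.Rel.dim_rate h δ K hδ hδ2 hT,
    fun _ h => Pool.Agent.Helper51.Rel.squares_rate h,
    Pool.Agent.Helper51.Rel.few_squares, Pool.Agent.Helper25.RC.basis_squares,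
    Pool.Agent.Helper51.Rel.cop, Pool.Agent.Helper51.SV.sharp_coprime⟩

end Pool.Agent.Results.MP_12a1af_nt.LargeSieveEnergy
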