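import Pool.Agent.Helper25.RC.Crisp

/-!
Squares, and elements of sieved sets, in a set with few representations.

`A` is null if it has `o(√x)` elements below `x`; `classes T p` is the number of residue classes
modulo `p` met by `T`.
-/

set_option autoImplicit false

open Finset Filter Pool.Agent.Helper25.RC

namespace Pool.Agent.Results.MP_12a1af_nt.LargeSieveEnergy

theorem result :
    -- (1) a set with bounded representation function has few squares
    (∀ g : ℝ, ∃ C : ℝ, ∀ A : Set ℕ, (∀ n : ℕ, (rep A n : ℝ) ≤ g) →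
      ∀ x : ℕ, 2 ≤ x → (#(below (A ∩ {n | IsSquare n}) x) : ℝ) ≤
        C * √x / Real.log x ^ (1 / 2 : ℝ)) ∧
    -- the inequalities for all sets
    (∃ c : ℝ, 0 < c ∧ ∀ (A : Set ℕ) (x : ℕ), 2 ≤ x →
      (∃ n : ℕ, n < 2 * x ∧
        c * Real.log x * (#(below (A ∩ {n | IsSquare n}) x) : ℝ) ^ 2 / x ≤ rep A n) ∧
      c * Real.log x * (#(below (A ∩ {n | IsSquare n}) x) : ℝ) ^ 4 / x ≤
        ∑ n ∈ range (2 * x), (rep A n : ℝ) ^ 2) ∧
    -- (2) the second one is exact, for an asymptotic basis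
    (∃ (A : Set ℕ) (c C : ℝ), 0 < c ∧ (∀ᶠ n : ℕ in atTop, 1 ≤ rep A n) ∧
      (∀ x : ℕ, 2 ≤ x →
        c * √x / Real.log x ^ (1 / 4 : ℝ) ≤ #(below (A ∩ {n | IsSquare n}) x)) ∧
      ∀ x : ℕ, ∑ n ∈ range x, (rep A n : ℝ) ^ 2 ≤ C * x) ∧
    -- (3) few elements in a set `T` which misses `δ p` classes modulo `p` for many primes `p`
    (∀ (δ C : ℝ) (A T P : Set ℕ), 0 < δ → (∀ x : ℕ, ∑ n ∈ range x, (rep A n : ℝ) ^ 2 ≤ C * x) →
      (∀ p ∈ P, p.Prime ∧ (classes T p : ℝ) ≤ (1 - δ) * p) →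
      ¬ Summable (fun p : P => 1 / ((p : ℕ) : ℝ)) → Null (A ∩ T)) :=
  ⟨few_squares_bdd, squares_ineq, basis_squares,
    fun _ _ _ _ _ hδ hA hP hS => null_local hδ hA hP hS⟩

end Pool.Agent.Results.MP_12a1af_nt.LargeSieveEnergy
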