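import Pool.Agent.Helper25.RC.Crisp
import Pool.Agent.Helper25.SQ.Final2

/-!
Values of quadratic polynomials, and elements of sieved sets, in a set with few representations.

`quad a b e` is the set of the values of `a u² + b u + e`, `u ∈ ℤ`; `A` is null if it has `o(√x)`
elements below `x`; `classes T p` is the number of residue classes modulo `p` met by `T`.
-/

set_option autoImplicit false

open Finset Filter Pool.Agent.Helper25.RC Pool.Agent.Helper5.SQ

namespace Pool.Agent.Results.MP_12a1af_nt.LargeSieveEnergy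

theorem result :
    -- (1) few values of a quadratic polynomial in a set with bounded representation function
    (∃ c : ℝ, 0 < c ∧ ∀ (g : ℝ) (a b e : ℤ), 0 < a → ∃ C : ℝ, ∀ A : Set ℕ,
      (∀ n : ℕ, (rep A n : ℝ) ≤ g) → ∀ x : ℕ, 2 ≤ x →
        (#(below (A ∩ quad a b e) x) : ℝ) ≤ C * √x * Real.exp (-(c * √(Real.log x)))) ∧
    -- many representations in a set with a positive proportion of the values
    (∃ c : ℝ, 0 < c ∧ ∀ (a b e : ℤ) (A : Set ℕ), 0 < a → ¬ Null (A ∩ quad a b e) →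
      ∃ᶠ n : ℕ in atTop, Real.exp (c * (Real.log n / Real.log (Real.log n))) ≤ rep A n) ∧
    -- the inequality for all sets
    (∃ c : ℝ, 0 < c ∧ ∀ a b e : ℤ, 0 < a → ∃ c' : ℝ, 0 < c' ∧ ∀ (A : Set ℕ) (x : ℕ), 2 ≤ x →
      ∃ n : ℕ, n < 2 * x ∧
        c' * (#(below (A ∩ quad a b e) x) : ℝ) ^ 2 / x * Real.exp (c * √(Real.log x)) ≤
          rep A n) ∧
    -- (2) the inequality in mean square, for the squares
    (∃ c : ℝ, 0 < c ∧ ∀ (A : Set ℕ) (x : ℕ), 2 ≤ x →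
      c * Real.log x * (#(below (A ∩ {n | IsSquare n}) x) : ℝ) ^ 4 / x ≤
        ∑ n ∈ range (2 * x), (rep A n : ℝ) ^ 2) ∧
    -- it is exact, for an asymptotic basis
    (∃ (A : Set ℕ) (c C : ℝ), 0 < c ∧ (∀ᶠ n : ℕ in atTop, 1 ≤ rep A n) ∧
      (∀ x : ℕ, 2 ≤ x →
        c * √x / Real.log x ^ (1 / 4 : ℝ) ≤ #(below (A ∩ {n | IsSquare n}) x)) ∧
      ∀ x : ℕ, ∑ n ∈ range x, (rep A n : ℝ) ^ 2 ≤ C * x) ∧
    -- (3) few elements in a set `T` which misses `δ p` classes modulo `p` for many primes `p`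
    (∀ (δ C : ℝ) (A T P : Set ℕ), 0 < δ → (∀ x : ℕ, ∑ n ∈ range x, (rep A n : ℝ) ^ 2 ≤ C * x) →
      (∀ p ∈ P, p.Prime ∧ (classes T p : ℝ) ≤ (1 - δ) * p) →
      ¬ Summable (fun p : P => 1 / ((p : ℕ) : ℝ)) → Null (A ∩ T)) :=
  ⟨Pool.Agent.Helper25.SQ.few_values, Pool.Agent.Helper25.SQ.many_values,
    Pool.Agent.Helper25.SQ.large_values,
    let ⟨c, hc, h⟩ := squares_ineq
    ⟨c, hc, fun A x hx => (h A x hx).2⟩, basis_squares,
    fun _ _ _ _ _ hδ hA hP hS => null_local hδ hA hP hS⟩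

end Pool.Agent.Results.MP_12a1af_nt.LargeSieveEnergy
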