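import Pool.Agent.Helper25.RC.Crisp
import Pool.Agent.Helper25.SQ.RealNear

/-!
Elements near the numbers `α u ^ 2`, values of quadratic polynomials, and elements of sieved sets, in
a set with few representations.
-/

set_option autoImplicit false

open Finset Filter

namespace Pool.Agent.Results.MP_12a1af_nt.LargeSieveEnergy

open Classical in
/-- the elements of `A` below `x` -/
noncomputable def below (A : Set ℕ) (x : ℕ) : Finset ℕ := {n ∈ range x | n ∈ A}

open Classical in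
/-- the number of pairs of elements of `A` with sum `n` -/
noncomputable def rep (A : Set ℕ) (n : ℕ) : ℕ := #{p ∈ antidiagonal n | p.1 ∈ A ∧ p.2 ∈ A}

/-- `A` has `o(√x)` elements below `x` -/
def Null (A : Set ℕ) : Prop := ∀ ε : ℝ, 0 < ε → ∀ᶠ x : ℕ in atTop, (#(below A x) : ℝ) ≤ ε * √x

/-- the values of the polynomial `a u ^ 2 + b u + e` at the integers -/
def quad (a b e : ℤ) : Set ℕ := {n | ∃ u : ℤ, (n : ℤ) = a * u ^ 2 + b * u + e}

/-- the natural numbers at distance at most `h` from a number `α u ^ 2` -/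
def near (α h : ℝ) : Set ℕ := {n | ∃ u : ℕ, |(n : ℝ) - α * u ^ 2| ≤ h}

/-- the number of residue classes modulo `p` met by `T` -/
noncomputable def classes (T : Set ℕ) (p : ℕ) : ℕ := ((fun n : ℕ => n % p) '' T).ncard

theorem result :
    -- (1) few elements near the numbers `α u ^ 2` in a set with bounded representation function
    (∃ c : ℝ, 0 < c ∧ ∀ g α : ℝ, 0 < α → ∃ C : ℝ, ∀ A : Set ℕ,
      (∀ n : ℕ, (rep A n : ℝ) ≤ g) → ∀ x : ℕ, 2 ≤ x →
        (#(below (A ∩ near α (Real.exp (c * √(Real.log x)))) x) : ℝ) ≤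
          C * √x * Real.exp (-(c * √(Real.log x)))) ∧
    -- the inequality for all sets
    (∃ c : ℝ, 0 < c ∧ ∀ α : ℝ, 0 < α → ∃ c' : ℝ, 0 < c' ∧ ∀ (A : Set ℕ) (x : ℕ), 2 ≤ x →
      ∃ n : ℕ, n < 2 * x ∧
        c' * (#(below (A ∩ near α (Real.exp (c * √(Real.log x)))) x) : ℝ) ^ 2 / x *
          Real.exp (c * √(Real.log x)) ≤ rep A n) ∧
    -- many representations in a set with a positive proportion of the values of a quadratic
    -- polynomial
    (∃ c : ℝ, 0 < c ∧ ∀ (a b e : ℤ) (A : Set ℕ), 0 < a → ¬ Null (A ∩ quad a b e) →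
      ∃ᶠ n : ℕ in atTop, Real.exp (c * (Real.log n / Real.log (Real.log n))) ≤ rep A n) ∧
    -- (2) the inequality in mean square, for the squares
    (∃ c : ℝ, 0 < c ∧ ∀ (A : Set ℕ) (x : ℕ), 2 ≤ x →
      c * Real.log x * (#(below (A ∩ {n | IsSquare n}) x) : ℝ) ^ 4 / x ≤
        ∑ n ∈ range (2 * x), (rep A n : ℝ) ^ 2) ∧
    -- it is exact, for an asymptotic basis
    (∃ (A : Set ℕ) (c C : ℝ), 0 < c ∧ (∀ᶠ n : ℕ in atTop, 1 ≤ rep A n) ∧
      (∀ x : ℕ, 2 ≤ x →
        c * √x / Real.log x ^ (1 / 4 : ℝ) ≤ #(below (A ∩ {n | IsSquare n}) x)) ∧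
      ∀ x : ℕ, ∑ n ∈ range x, (rep A n : ℝ) ^ 2 ≤ C * x) ∧
    -- (3) few elements in a set `T` which misses `δ p` classes modulo `p` for many primes `p`
    (∀ (δ C : ℝ) (A T P : Set ℕ), 0 < δ →
      (∀ x : ℕ, ∑ n ∈ range x, (rep A n : ℝ) ^ 2 ≤ C * x) →
      (∀ p ∈ P, p.Prime ∧ (classes T p : ℝ) ≤ (1 - δ) * p) →
      ¬ Summable (fun p : P => 1 / ((p : ℕ) : ℝ)) → Null (A ∩ T)) :=
  ⟨Pool.Agent.Helper25.SQ.near_few, Pool.Agent.Helper25.SQ.near_all,
    Pool.Agent.Helper25.SQ.many_values,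
    let ⟨c, hc, h⟩ := Pool.Agent.Helper25.RC.squares_ineq
    ⟨c, hc, fun A x hx => (h A x hx).2⟩, Pool.Agent.Helper25.RC.basis_squares,
    fun _ _ _ _ _ hδ hA hP hS => Pool.Agent.Helper25.RC.null_local hδ hA hP hS⟩

end Pool.Agent.Results.MP_12a1af_nt.LargeSieveEnergy
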