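import Pool.Agent.Helper38.RC.LS2
import Pool.Agent.Helper25.RC.Coprime

/-!
A large sieve inequality for the additive energy.
-/

set_option autoImplicit false

open Finset Filter

namespace Pool.Agent.Helper25.RC

open Pool.Agent.Helper38.RC (units expSum)

/-- the fractions with denominator `q` in lowest terms -/
theorem sum_fractions {q : ℕ} (hq : 0 < q) (F : ℝ → ℝ) :
    ∑ a ∈ range q, F ((a : ℝ) / q) = ∑ d ∈ q.divisors, ∑ b ∈ units d, F ((b : ℝ) / d) := by
  classical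
  rw [Finset.sum_sigma']
  refine Finset.sum_bij' (i := fun a _ => ⟨q / Nat.gcd a q, a / Nat.gcd a q⟩)
    (j := fun p _ => p.2 * (q / p.1)) ?_ ?_ ?_ ?_ ?_
  · intro a ha
    rw [mem_range] at ha
    have hg : 0 < Nat.gcd a q := Nat.gcd_pos_of_pos_right a hq
    have h1 : Nat.gcd a q ∣ q := Nat.gcd_dvd_right a q
    have h2 : Nat.gcd a q ∣ a := Nat.gcd_dvd_left a q
    rw [mem_sigma, Nat.mem_divisors, units, mem_filter, mem_range]
    refine ⟨⟨Nat.div_dvd_of_dvd h1, hq.ne'⟩, ?_, ?_⟩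
    · exact Nat.div_lt_div_of_lt_of_dvd h1 ha
    · exact Nat.coprime_div_gcd_div_gcd hg
  · intro p hp
    rw [mem_sigma, Nat.mem_divisors, units, mem_filter, mem_range] at hp
    obtain ⟨⟨h1, _⟩, h2, _⟩ := hp
    rw [mem_range]
    have hd : 0 < p.1 := Nat.pos_of_dvd_of_pos h1 hq
    calc p.2 * (q / p.1) < p.1 * (q / p.1) := by
          apply Nat.mul_lt_mul_of_pos_right h2
          exact Nat.div_pos (Nat.le_of_dvd hq h1) hd
      _ = q := Nat.mul_div_cancel' h1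
  · intro a ha
    have hg : 0 < Nat.gcd a q := Nat.gcd_pos_of_pos_right a hq
    have h1 : Nat.gcd a q ∣ q := Nat.gcd_dvd_right a q
    have h2 : Nat.gcd a q ∣ a := Nat.gcd_dvd_left a q
    show a / Nat.gcd a q * (q / (q / Nat.gcd a q)) = a
    rw [Nat.div_div_self h1 hq.ne']
    exact Nat.div_mul_cancel h2
  · intro p hp
    rw [mem_sigma, Nat.mem_divisors, units, mem_filter, mem_range] at hp
    obtain ⟨⟨h1, _⟩, h2, h3⟩ := hp
    obtain ⟨c, hc⟩ := h1
    have hd : 0 < p.1 := by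
      rcases Nat.eq_zero_or_pos p.1 with h | h
      · rw [h, zero_mul] at hc; omega
      · exact h
    have hc0 : 0 < c := by
      rcases Nat.eq_zero_or_pos c with h | h
      · rw [h, mul_zero] at hc; omega
      · exact h
    have e1 : q / p.1 = c := by rw [hc]; exact Nat.mul_div_cancel_left c hd
    have e2 : Nat.gcd (p.2 * (q / p.1)) q = c := by
      rw [e1, hc, Nat.gcd_mul_right, h3, one_mul]
    show (⟨q / Nat.gcd (p.2 * (q / p.1)) q, p.2 * (q / p.1) / Nat.gcd (p.2 * (q / p.1)) q⟩ :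
      (_ : ℕ) × ℕ) = p
    rw [e2, e1]
    have e3 : q / c = p.1 := by rw [hc]; exact Nat.mul_div_cancel _ hc0
    have e4 : p.2 * c / c = p.2 := Nat.mul_div_cancel _ hc0
    rw [e3, e4]
  · intro a ha
    have hg : 0 < Nat.gcd a q := Nat.gcd_pos_of_pos_right a hq
    have h1 : Nat.gcd a q ∣ q := Nat.gcd_dvd_right a q
    have h2 : Nat.gcd a q ∣ a := Nat.gcd_dvd_left a q
    have hg' : (Nat.gcd a q : ℝ) ≠ 0 := by exact_mod_cast hg.ne'
    have hq' : (q : ℝ) ≠ 0 := by exact_mod_cast hq.ne'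
    congr 1
    show (a : ℝ) / q = ((a / Nat.gcd a q : ℕ) : ℝ) / ((q / Nat.gcd a q : ℕ) : ℝ)
    rw [Nat.cast_div h2 hg', Nat.cast_div h1 hg']
    field_simp

theorem card_units (d : ℕ) : #(units d) = Nat.totient d := by
  unfold units Nat.totient
  congr 1
  ext a
  rw [mem_filter, mem_filter, Nat.coprime_comm]

/-- Large sieve for the additive energy, in terms of congruent pairs. -/
theorem sieve_cong (S : Finset ℕ) {x R : ℕ} (hx : 0 < x) (hR : R * R ≤ x) (hS : S ⊆ range x)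
    (w : ℕ → ℝ) :
    (∑ q ∈ Icc 1 R, w q * (q * (cong S q : ℝ) - (#S : ℝ) ^ 2)) ^ 2 ≤
      53 * x * (∑ n ∈ range (2 * x), (repF S n : ℝ) ^ 2) *
        ∑ q ∈ Icc 1 R, ∑ q' ∈ Icc 1 R, w q * w q' * ((Nat.gcd q q' : ℝ) - 1) := by
  classical
  set G : ℕ → ℝ := fun d => ∑ b ∈ units d, ‖expSum S ((b : ℝ) / d)‖ ^ 2 with hG
  have hG1 : G 1 = (#S : ℝ) ^ 2 := by
    have h1 : units 1 = {0} := by
      ext a
      rw [units, mem_filter, mem_range, mem_singleton]
      constructor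
      · rintro ⟨h, _⟩; omega
      · rintro rfl; exact ⟨one_pos, by simp⟩
    simp only [hG]
    rw [h1, Finset.sum_singleton]
    unfold expSum
    simp
  have hsum : ∀ q ∈ Icc 1 R, (q : ℝ) * (cong S q : ℝ) - (#S : ℝ) ^ 2 =
      ∑ d ∈ Icc 2 R, if d ∣ q then G d else 0 := by
    intro q hq
    rw [mem_Icc] at hq
    have h1 := Pool.Agent.Helper38.RC.sum_norm_sq_expSum S (q := q) (by omega)
    rw [sum_fractions (by omega) fun t => ‖expSum S t‖ ^ 2] at h1
    have h2 : q.divisors = insert 1 ((Icc 2 R).filter (· ∣ q)) := by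
      ext d
      rw [Nat.mem_divisors, mem_insert, mem_filter, mem_Icc]
      constructor
      · rintro ⟨h3, h4⟩
        have h5 : 0 < d := Nat.pos_of_dvd_of_pos h3 (by omega)
        have h6 := Nat.le_of_dvd (by omega) h3
        rcases Nat.eq_or_lt_of_le (show 1 ≤ d from h5) with h7 | h7
        · exact Or.inl h7.symm
        · exact Or.inr ⟨⟨h7, by omega⟩, h3⟩
      · rintro (rfl | ⟨_, h3⟩)
        · exact ⟨one_dvd _, by omega⟩
        · exact ⟨h3, by omega⟩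
    have h3 : 1 ∉ (Icc 2 R).filter (· ∣ q) := by
      rw [mem_filter, mem_Icc]; omega
    rw [h2, Finset.sum_insert h3] at h1
    rw [← h1, ← hG1, ← Finset.sum_filter]
    simp only [hG]
    ring
  set W : ℕ → ℝ := fun d => ∑ q ∈ Icc 1 R, if d ∣ q then w q else 0 with hW
  have hL : ∑ q ∈ Icc 1 R, w q * (q * (cong S q : ℝ) - (#S : ℝ) ^ 2) =
      ∑ d ∈ Icc 2 R, G d * W d := by
    calc ∑ q ∈ Icc 1 R, w q * (q * (cong S q : ℝ) - (#S : ℝ) ^ 2)
        = ∑ q ∈ Icc 1 R, ∑ d ∈ Icc 2 R, w q * (if d ∣ q then G d else 0) := by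
          refine Finset.sum_congr rfl fun q hq => ?_
          rw [hsum q hq, Finset.mul_sum]
      _ = ∑ d ∈ Icc 2 R, ∑ q ∈ Icc 1 R, w q * (if d ∣ q then G d else 0) := Finset.sum_comm
      _ = _ := by
          refine Finset.sum_congr rfl fun d _ => ?_
          simp only [hW]
          rw [Finset.mul_sum]
          refine Finset.sum_congr rfl fun q _ => ?_
          split_ifs <;> ring
  have hF : ∑ d ∈ Icc 2 R, (Nat.totient d : ℝ) * W d ^ 2 =
      ∑ q ∈ Icc 1 R, ∑ q' ∈ Icc 1 R, w q * w q' * ((Nat.gcd q q' : ℝ) - 1) := by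
    have h1 : ∀ q ∈ Icc 1 R, ∀ q' ∈ Icc 1 R, ((Nat.gcd q q' : ℝ) - 1) =
        ∑ d ∈ Icc 2 R, if d ∣ q ∧ d ∣ q' then (Nat.totient d : ℝ) else 0 := by
      intro q hq q' hq'
      rw [mem_Icc] at hq hq'
      have hg : 0 < Nat.gcd q q' := Nat.gcd_pos_of_pos_left q' (by omega)
      have h2 := Nat.sum_totient (Nat.gcd q q')
      have h3 : (Nat.gcd q q').divisors = insert 1 ((Icc 2 R).filter fun d => d ∣ q ∧ d ∣ q') := by
        ext d
        rw [Nat.mem_divisors, mem_insert, mem_filter, mem_Icc, Nat.dvd_gcd_iff]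
        constructor
        · rintro ⟨⟨h3, h3'⟩, h4⟩
          have h5 : 0 < d := Nat.pos_of_dvd_of_pos h3 (by omega)
          have h6 := Nat.le_of_dvd (by omega) h3
          rcases Nat.eq_or_lt_of_le (show 1 ≤ d from h5) with h7 | h7
          · exact Or.inl h7.symm
          · exact Or.inr ⟨⟨h7, by omega⟩, h3, h3'⟩
        · rintro (rfl | ⟨_, h3⟩)
          · exact ⟨⟨one_dvd _, one_dvd _⟩, by omega⟩
          · exact ⟨h3, by omega⟩
      have h4 : 1 ∉ (Icc 2 R).filter fun d => d ∣ q ∧ d ∣ q' := by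
        rw [mem_filter, mem_Icc]; omega
      rw [h3, Finset.sum_insert h4, Nat.totient_one] at h2
      rw [← Finset.sum_filter]
      have h5 : ((1 + ∑ d ∈ (Icc 2 R).filter fun d => d ∣ q ∧ d ∣ q', Nat.totient d : ℕ) : ℝ) =
          (Nat.gcd q q' : ℝ) := by exact_mod_cast h2
      rw [← h5]
      push_cast
      ring
    calc ∑ d ∈ Icc 2 R, (Nat.totient d : ℝ) * W d ^ 2
        = ∑ d ∈ Icc 2 R, ∑ q ∈ Icc 1 R, ∑ q' ∈ Icc 1 R,
            w q * w q' * (if d ∣ q ∧ d ∣ q' then (Nat.totient d : ℝ) else 0) := by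
          refine Finset.sum_congr rfl fun d _ => ?_
          simp only [hW]
          rw [sq, Finset.sum_mul_sum, Finset.mul_sum]
          refine Finset.sum_congr rfl fun q _ => ?_
          rw [Finset.mul_sum]
          refine Finset.sum_congr rfl fun q' _ => ?_
          by_cases h1 : d ∣ q <;> by_cases h2 : d ∣ q' <;> simp [h1, h2]
          ring
      _ = ∑ q ∈ Icc 1 R, ∑ q' ∈ Icc 1 R, ∑ d ∈ Icc 2 R,
            w q * w q' * (if d ∣ q ∧ d ∣ q' then (Nat.totient d : ℝ) else 0) := by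
          rw [Finset.sum_comm]
          refine Finset.sum_congr rfl fun q _ => Finset.sum_comm
      _ = _ := by
          refine Finset.sum_congr rfl fun q hq => Finset.sum_congr rfl fun q' hq' => ?_
          rw [← Finset.mul_sum, ← h1 q hq q' hq']
  have hps := Pool.Agent.Helper38.RC.prim_sieve S hx hR hS
  have hsub : Icc 2 R ⊆ Icc 1 R := Icc_subset_Icc_left one_le_two
  have hps' : ∑ d ∈ Icc 2 R, G d ^ 2 / (Nat.totient d : ℝ) ≤
      53 * x * ∑ n ∈ range (2 * x), (repF S n : ℝ) ^ 2 := by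
    refine le_trans ?_ hps
    refine le_trans (le_of_eq ?_) (Finset.sum_le_sum_of_subset_of_nonneg hsub
      fun q _ _ => by positivity)
    refine Finset.sum_congr rfl fun d _ => ?_
    rw [card_units]
  rw [hL]
  have hCS : (∑ d ∈ Icc 2 R, G d * W d) ^ 2 ≤
      (∑ d ∈ Icc 2 R, G d ^ 2 / (Nat.totient d : ℝ)) *
        ∑ d ∈ Icc 2 R, (Nat.totient d : ℝ) * W d ^ 2 := by
    have h1 : ∀ d ∈ Icc 2 R, G d * W d =
        (G d / √(Nat.totient d : ℝ)) * (√(Nat.totient d : ℝ) * W d) := by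
      intro d hd
      rw [mem_Icc] at hd
      have h2 : (0 : ℝ) < Nat.totient d := by
        exact_mod_cast Nat.totient_pos.2 (by omega : 0 < d)
      have h3 : √(Nat.totient d : ℝ) ≠ 0 := (Real.sqrt_pos.2 h2).ne'
      field_simp
    rw [Finset.sum_congr rfl h1]
    refine (Finset.sum_mul_sq_le_sq_mul_sq _ _ _).trans (le_of_eq ?_)
    congr 1
    · refine Finset.sum_congr rfl fun d _ => ?_
      rw [div_pow, Real.sq_sqrt (Nat.cast_nonneg _)]
    · refine Finset.sum_congr rfl fun d _ => ?_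
      rw [mul_pow, Real.sq_sqrt (Nat.cast_nonneg _)]
  refine hCS.trans ?_
  rw [hF]
  have hnn : 0 ≤ ∑ q ∈ Icc 1 R, ∑ q' ∈ Icc 1 R, w q * w q' * ((Nat.gcd q q' : ℝ) - 1) := by
    rw [← hF]
    positivity
  exact mul_le_mul_of_nonneg_right hps' hnn

/-- Large sieve for the additive energy, in terms of the numbers of residue classes. -/
theorem large_sieve_classes (S : Finset ℕ) {x : ℕ} (hS : ∀ a ∈ S, a < x) (w : ℕ → ℝ)
    (hw : ∀ q, 0 ≤ w q) :
    (#S : ℝ) ^ 4 * (∑ q ∈ Icc 1 (Nat.sqrt x), w q * (q / (#(S.image (· % q)) : ℝ) - 1)) ^ 2 ≤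
      53 * x * (∑ n ∈ range (2 * x), (repF S n : ℝ) ^ 2) *
        ∑ q ∈ Icc 1 (Nat.sqrt x), ∑ q' ∈ Icc 1 (Nat.sqrt x),
          w q * w q' * ((Nat.gcd q q' : ℝ) - 1) := by
  classical
  have hnn : 0 ≤ ∑ q ∈ Icc 1 (Nat.sqrt x), ∑ q' ∈ Icc 1 (Nat.sqrt x),
      w q * w q' * ((Nat.gcd q q' : ℝ) - 1) := by
    refine Finset.sum_nonneg fun q hq => Finset.sum_nonneg fun q' hq' => ?_
    rw [mem_Icc] at hq
    have h1 : (1 : ℝ) ≤ (Nat.gcd q q' : ℝ) := by
      exact_mod_cast Nat.gcd_pos_of_pos_left q' (by omega : 0 < q)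
    exact mul_nonneg (mul_nonneg (hw q) (hw q')) (by linarith)
  rcases S.eq_empty_or_nonempty with h0 | ⟨a0, ha0⟩
  · subst h0
    simp only [card_empty, Nat.cast_zero, ne_eq, OfNat.ofNat_ne_zero, not_false_eq_true, zero_pow,
      zero_mul]
    positivity
  have hx : 0 < x := lt_of_le_of_lt (Nat.zero_le _) (hS a0 ha0)
  have hSx : S ⊆ range x := fun a ha => mem_range.2 (hS a ha)
  have h1 := sieve_cong S hx (Nat.sqrt_le x) hSx w
  refine le_trans ?_ h1
  rw [show (#S : ℝ) ^ 4 * (∑ q ∈ Icc 1 (Nat.sqrt x), w q * (q / (#(S.image (· % q)) : ℝ) - 1)) ^ 2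
    = (∑ q ∈ Icc 1 (Nat.sqrt x), w q * ((#S : ℝ) ^ 2 * (q / (#(S.image (· % q)) : ℝ) - 1))) ^ 2 by
      rw [← Finset.sum_congr rfl fun q _ =>
        (show (#S : ℝ) ^ 2 * (w q * (q / (#(S.image (· % q)) : ℝ) - 1)) =
          w q * ((#S : ℝ) ^ 2 * (q / (#(S.image (· % q)) : ℝ) - 1)) by ring), ← Finset.mul_sum]
      ring]
  have hν : ∀ q ∈ Icc 1 (Nat.sqrt x), (0 : ℝ) < #(S.image (· % q)) ∧
      (#(S.image (· % q)) : ℝ) ≤ q := by
    intro q hq
    rw [mem_Icc] at hq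
    refine ⟨?_, ?_⟩
    · exact_mod_cast card_pos.2 ⟨_, mem_image_of_mem _ ha0⟩
    · have h2 : S.image (· % q) ⊆ range q := by
        intro r hr
        obtain ⟨a, _, rfl⟩ := mem_image.1 hr
        exact mem_range.2 (Nat.mod_lt _ (by omega))
      have := card_le_card h2
      rw [card_range] at this
      exact_mod_cast this
  have hterm : ∀ q ∈ Icc 1 (Nat.sqrt x), 0 ≤ (#S : ℝ) ^ 2 * (q / (#(S.image (· % q)) : ℝ) - 1) ∧
      (#S : ℝ) ^ 2 * (q / (#(S.image (· % q)) : ℝ) - 1) ≤ q * (cong S q : ℝ) - (#S : ℝ) ^ 2 := by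
    intro q hq
    obtain ⟨h2, h3⟩ := hν q hq
    refine ⟨?_, ?_⟩
    · have : 0 ≤ q / (#(S.image (· % q)) : ℝ) - 1 := by
        rw [sub_nonneg, le_div_iff₀ h2, one_mul]
        exact h3
      positivity
    · have h4 := cong_ge S (S.image (· % q)) q
      have h5 : #{n ∈ S | n % q ∈ S.image (· % q)} = #S := by
        congr 1
        refine filter_true_of_mem fun n hn => mem_image_of_mem _ hn
      rw [h5] at h4
      have h6 : (#S : ℝ) ^ 2 / #(S.image (· % q)) ≤ (cong S q : ℝ) := by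
        rw [div_le_iff₀ h2]
        linarith
      have h7 := mul_le_mul_of_nonneg_left h6 (Nat.cast_nonneg (α := ℝ) q)
      have h8 : (#S : ℝ) ^ 2 * (q / (#(S.image (· % q)) : ℝ) - 1) =
          q * ((#S : ℝ) ^ 2 / #(S.image (· % q))) - (#S : ℝ) ^ 2 := by ring
      rw [h8]
      linarith
  have hs0 : 0 ≤ ∑ q ∈ Icc 1 (Nat.sqrt x),
      w q * ((#S : ℝ) ^ 2 * (q / (#(S.image (· % q)) : ℝ) - 1)) :=
    Finset.sum_nonneg fun q hq => mul_nonneg (hw q) (hterm q hq).1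
  have hs1 : ∑ q ∈ Icc 1 (Nat.sqrt x),
      w q * ((#S : ℝ) ^ 2 * (q / (#(S.image (· % q)) : ℝ) - 1)) ≤
      ∑ q ∈ Icc 1 (Nat.sqrt x), w q * (q * (cong S q : ℝ) - (#S : ℝ) ^ 2) :=
    Finset.sum_le_sum fun q hq => mul_le_mul_of_nonneg_left (hterm q hq).2 (hw q)
  gcongr

end Pool.Agent.Helper25.RC
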