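import Pool.Agent.Helper25.RC.Chain

/-!
Sets with few residual sets.
-/

set_option autoImplicit false

open Finset Filter

namespace Pool.Agent.Helper25.RC

/-- the translate `X + u` -/
def tr (X : Set ℕ) (u : ℕ) : Set ℕ := {n | ∃ x ∈ X, x + u = n}

/-- some translates of `X` and `Y` are equal up to a null set -/
def Similar (X Y : Set ℕ) : Prop := ∃ a b : ℕ, Null (symmDiff (tr X a) (tr Y b))

theorem tr_tr (X : Set ℕ) (u v : ℕ) : tr (tr X u) v = tr X (u + v) := by
  ext n
  constructor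
  · rintro ⟨_, ⟨x, hx, rfl⟩, rfl⟩
    exact ⟨x, hx, by ring⟩
  · rintro ⟨x, hx, rfl⟩
    exact ⟨x + u, ⟨x, hx, rfl⟩, by ring⟩

theorem tr_zero (X : Set ℕ) : tr X 0 = X := by
  ext n
  simp [tr]

theorem mem_tr {X : Set ℕ} {u n : ℕ} : n ∈ tr X u ↔ u ≤ n ∧ n - u ∈ X := by
  constructor
  · rintro ⟨x, hx, rfl⟩
    exact ⟨Nat.le_add_left _ _, by rwa [Nat.add_sub_cancel]⟩
  · rintro ⟨h1, h2⟩
    exact ⟨n - u, h2, Nat.sub_add_cancel h1⟩

theorem tr_symmDiff (X Y : Set ℕ) (u : ℕ) :
    symmDiff (tr X u) (tr Y u) = tr (symmDiff X Y) u := by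
  ext n
  simp only [Set.mem_symmDiff, mem_tr]
  tauto

theorem Null.tr {X : Set ℕ} (h : Null X) (u : ℕ) : Null (tr X u) := by
  intro ε hε
  filter_upwards [h ε hε] with x hx
  refine le_trans ?_ hx
  have : #(below (RC.tr X u) x) ≤ #(below X x) := by
    refine card_le_card_of_injOn (fun n => n - u) ?_ ?_
    · intro n hn
      rw [mem_coe, mem_below, mem_tr] at hn
      rw [mem_coe, mem_below]
      exact ⟨lt_of_le_of_lt (Nat.sub_le _ _) hn.1, hn.2.2⟩
    · intro n hn n' hn' hnn
      rw [mem_coe, mem_below, mem_tr] at hn hn'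
      have h3 : n - u = n' - u := hnn
      omega
  exact_mod_cast this

theorem Null.of_tr {X : Set ℕ} {u : ℕ} (h : Null (RC.tr X u)) : Null X := by
  intro ε hε
  have ht : Tendsto (fun x : ℕ => x + u) atTop atTop :=
    tendsto_atTop_mono (fun x => Nat.le_add_right x u) tendsto_id
  filter_upwards [ht.eventually (h (ε / 2) (by positivity)), eventually_ge_atTop u] with x hx hxu
  have h1 : #(below X x) ≤ #(below (RC.tr X u) (x + u)) := by
    refine card_le_card_of_injOn (fun n => n + u) ?_ ?_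
    · intro n hn
      rw [mem_coe, mem_below] at hn ⊢
      exact ⟨by show n + u < x + u; omega, n, hn.2, rfl⟩
    · intro n _ n' _ hnn
      have h3 : n + u = n' + u := hnn
      omega
  have h2 : √((x + u : ℕ) : ℝ) ≤ 2 * √x := by
    rw [show (2 : ℝ) * √x = √(2 ^ 2 * x) by
      rw [Real.sqrt_mul (by norm_num), Real.sqrt_sq (by norm_num)]]
    apply Real.sqrt_le_sqrt
    push_cast
    have : (u : ℝ) ≤ x := by exact_mod_cast hxu
    nlinarith [(Nat.cast_nonneg x : (0 : ℝ) ≤ (x : ℝ))]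
  calc (#(below X x) : ℝ) ≤ #(below (RC.tr X u) (x + u)) := by exact_mod_cast h1
    _ ≤ ε / 2 * √((x + u : ℕ) : ℝ) := hx
    _ ≤ ε / 2 * (2 * √x) := by gcongr
    _ = ε * √x := by ring

theorem Similar.symm {X Y : Set ℕ} (h : Similar X Y) : Similar Y X := by
  obtain ⟨a, b, hab⟩ := h
  exact ⟨b, a, hab.symmDiff_comm⟩

theorem Similar.trans {X Y Z : Set ℕ} (h : Similar X Y) (h' : Similar Y Z) : Similar X Z := by
  obtain ⟨a, b, h1⟩ := h
  obtain ⟨c, d, h2⟩ := h'
  refine ⟨a + c, d + b, ?_⟩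
  have h3 := h1.tr c
  have h4 := h2.tr b
  rw [← tr_symmDiff, tr_tr, tr_tr] at h3 h4
  rw [show c + b = b + c from Nat.add_comm _ _] at h4
  exact h3.trans h4

/-- residual sets of a translate are translates of residual sets -/
theorem res_tr (X : Set ℕ) (u : ℕ) {q s : ℕ} (hs : s < q) :
    ∃ s' < q, ∃ v, res (tr X u) q s = tr (res X q s') v := by
  -- `s + q * v = u + s'`
  have hq : 0 < q := lt_of_le_of_lt (Nat.zero_le _) hs
  obtain ⟨v, s', hs', hv⟩ : ∃ v s', s' < q ∧ s + q * v = u + s' := by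
    rcases Nat.lt_or_ge s (u % q) with h | h
    · refine ⟨u / q + 1, s + q - u % q, ?_, ?_⟩
      · have := Nat.mod_lt u hq; omega
      · have := Nat.div_add_mod u q
        have h2 : q * (u / q + 1) = q * (u / q) + q := by ring
        have h3 := Nat.mod_lt u hq
        omega
    · refine ⟨u / q, s - u % q, ?_, ?_⟩
      · omega
      · have := Nat.div_add_mod u q
        omega
  refine ⟨s', hs', v, ?_⟩
  ext n
  rw [mem_tr]
  show q * n + s ∈ tr X u ↔ v ≤ n ∧ q * (n - v) + s' ∈ X
  rw [mem_tr]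
  constructor
  · rintro ⟨h1, h2⟩
    have hvn : v ≤ n := by
      by_contra hcon
      push Not at hcon
      have h3 : q * (n + 1) ≤ q * v := Nat.mul_le_mul_left _ hcon
      have h4 : q * (n + 1) = q * n + q := by ring
      omega
    refine ⟨hvn, ?_⟩
    obtain ⟨k, rfl⟩ := Nat.exists_eq_add_of_le hvn
    have h3 : q * (v + k) = q * v + q * k := by ring
    have h4 : q * (v + k) + s - u = q * (v + k - v) + s' := by
      rw [Nat.add_sub_cancel_left]
      omega
    rwa [h4] at h2
  · rintro ⟨h1, h2⟩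
    obtain ⟨k, rfl⟩ := Nat.exists_eq_add_of_le h1
    have h3 : q * (v + k) = q * v + q * k := by ring
    have h4 : q * (v + k) + s - u = q * (v + k - v) + s' := by
      rw [Nat.add_sub_cancel_left]
      omega
    refine ⟨by omega, ?_⟩
    rwa [h4]

theorem res_res (A : Set ℕ) (q q' r s : ℕ) : res (res A q r) q' s = res A (q * q') (q * s + r) := by
  ext n
  show q * (q' * n + s) + r ∈ A ↔ q * q' * n + (q * s + r) ∈ A
  have : q * (q' * n + s) + r = q * q' * n + (q * s + r) := by ring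
  rw [this]

theorem res_symmDiff (X Y : Set ℕ) (q s : ℕ) :
    symmDiff (res X q s) (res Y q s) = res (symmDiff X Y) q s := by
  ext n
  simp only [Set.mem_symmDiff, res, Set.mem_ofPred_eq]

open Classical in
/-- doubling -/
theorem double {A B : Set ℕ} {m r r' u u' : ℕ} (hr : r < m) (hr' : r' < m) (hne : r ≠ r')
    (hB : ∀ n ∈ B, n ∈ tr (res A m r) u ∧ n ∈ tr (res A m r') u') (N : ℕ) :
    2 * rep B N ≤ rep A (m * (N - (u + u')) + (r + r')) := by
  set P : Finset (ℕ × ℕ) := {p ∈ antidiagonal N | p.1 ∈ B ∧ p.2 ∈ B} with hP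
  have hmem : ∀ p ∈ P, p.1 + p.2 = N ∧ (u ≤ p.1 ∧ m * (p.1 - u) + r ∈ A) ∧
      (u' ≤ p.1 ∧ m * (p.1 - u') + r' ∈ A) ∧ (u ≤ p.2 ∧ m * (p.2 - u) + r ∈ A) ∧
      (u' ≤ p.2 ∧ m * (p.2 - u') + r' ∈ A) := by
    intro p hp
    rw [hP, mem_filter, HasAntidiagonal.mem_antidiagonal] at hp
    exact ⟨hp.1, mem_tr.1 (hB _ hp.2.1).1, mem_tr.1 (hB _ hp.2.1).2, mem_tr.1 (hB _ hp.2.2).1,
      mem_tr.1 (hB _ hp.2.2).2⟩
  let f : ℕ × ℕ → ℕ × ℕ := fun p => (m * (p.1 - u) + r, m * (p.2 - u') + r')
  let g : ℕ × ℕ → ℕ × ℕ := fun p => (m * (p.1 - u') + r', m * (p.2 - u) + r)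
  set R : Finset (ℕ × ℕ) := {p ∈ antidiagonal (m * (N - (u + u')) + (r + r')) |
    p.1 ∈ A ∧ p.2 ∈ A} with hR
  have hsum : ∀ a b : ℕ, ∀ v w : ℕ, v ≤ a → w ≤ b → a + b = N → v + w = u + u' →
      m * (a - v) + m * (b - w) = m * (N - (u + u')) := by
    intro a b v w h1 h2 h3 h4
    rw [← Nat.mul_add]
    congr 1
    omega
  have hfR : ∀ p ∈ P, f p ∈ R := by
    intro p hp
    obtain ⟨h1, h2, h3, h4, h5⟩ := hmem p hp
    rw [hR, mem_filter, HasAntidiagonal.mem_antidiagonal]
    refine ⟨?_, h2.2, h5.2⟩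
    show m * (p.1 - u) + r + (m * (p.2 - u') + r') = _
    have := hsum p.1 p.2 u u' h2.1 h5.1 h1 rfl
    omega
  have hgR : ∀ p ∈ P, g p ∈ R := by
    intro p hp
    obtain ⟨h1, h2, h3, h4, h5⟩ := hmem p hp
    rw [hR, mem_filter, HasAntidiagonal.mem_antidiagonal]
    refine ⟨?_, h3.2, h4.2⟩
    show m * (p.1 - u') + r' + (m * (p.2 - u) + r) = _
    have := hsum p.1 p.2 u' u h3.1 h4.1 h1 (Nat.add_comm _ _)
    omega
  have hm : 0 < m := lt_of_le_of_lt (Nat.zero_le _) hr
  have hinj : ∀ a b v c : ℕ, v ≤ a → v ≤ b → m * (a - v) + c = m * (b - v) + c → a = b := by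
    intro a b v c h1 h2 h3
    have h4 : m * (a - v) = m * (b - v) := by omega
    have h5 := Nat.eq_of_mul_eq_mul_left hm h4
    omega
  have hfinj : Set.InjOn f P := by
    intro p hp p' hp' h
    obtain ⟨h1, h2, h3, h4, h5⟩ := hmem p hp
    obtain ⟨h1', h2', h3', h4', h5'⟩ := hmem p' hp'
    have h6 := congrArg Prod.fst h
    have h7 : p.1 = p'.1 := hinj _ _ _ _ h2.1 h2'.1 h6
    exact Prod.ext h7 (by omega)
  have hginj : Set.InjOn g P := by
    intro p hp p' hp' h
    obtain ⟨h1, h2, h3, h4, h5⟩ := hmem p hp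
    obtain ⟨h1', h2', h3', h4', h5'⟩ := hmem p' hp'
    have h6 := congrArg Prod.fst h
    have h7 : p.1 = p'.1 := hinj _ _ _ _ h3.1 h3'.1 h6
    exact Prod.ext h7 (by omega)
  have hdisj : Disjoint (P.image f) (P.image g) := by
    rw [Finset.disjoint_left]
    intro z hz hz'
    obtain ⟨p, _, h1⟩ := mem_image.1 hz
    obtain ⟨p', _, h2⟩ := mem_image.1 hz'
    have h3 : m * (p.1 - u) + r = m * (p'.1 - u') + r' := congrArg Prod.fst (h1.trans h2.symm)
    have h4 := congrArg (· % m) h3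
    simp only [Nat.mul_add_mod] at h4
    rw [Nat.mod_eq_of_lt hr, Nat.mod_eq_of_lt hr'] at h4
    exact hne h4
  have hsub : P.image f ∪ P.image g ⊆ R := by
    intro z hz
    rcases mem_union.1 hz with h | h
    · obtain ⟨p, hp, rfl⟩ := mem_image.1 h
      exact hfR p hp
    · obtain ⟨p, hp, rfl⟩ := mem_image.1 h
      exact hgR p hp
  have h1 : #(P.image f ∪ P.image g) = 2 * #P := by
    rw [card_union_of_disjoint hdisj, card_image_of_injOn hfinj, card_image_of_injOn hginj]
    ring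
  have h2 : rep B N = #P := by unfold rep; rfl
  have h3 : rep A (m * (N - (u + u')) + (r + r')) = #R := by unfold rep; rfl
  rw [h2, h3, ← h1]
  exact card_le_card hsub

/-- the residual sets of `A` modulo `q` are null or similar to one of at most `k` sets -/
def FewResiduals (A : Set ℕ) (q k : ℕ) : Prop :=
  ∃ F : Finset (Set ℕ), #F ≤ k ∧ ∀ r < q, Null (res A q r) ∨ ∃ S ∈ F, Similar (res A q r) S

/-- A set with few residual sets along a chain has many representations. -/
theorem residual (t : ℕ) : ∀ (A : Set ℕ) (m k : ℕ → ℕ), ¬ Null A → (∀ j, m j ∣ m (j + 1)) →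
    (∀ j, m j < m (j + 1)) → (∀ j, FewResiduals A (m j) (k j)) →
    ¬ Summable (fun j => (m j : ℝ) / (k j : ℝ) ^ 2) → ∃ n, 2 ^ t ≤ rep A n := by
  classical
  induction t with
  | zero =>
    intro A m k hA _ _ _ _
    obtain ⟨ε, hε, hf⟩ := not_null_iff.1 hA
    obtain ⟨x, hx⟩ := hf.exists
    have h1 : (0 : ℝ) < #(below A x) := lt_of_le_of_lt (by positivity) hx
    have h2 : 0 < #(below A x) := by exact_mod_cast h1
    obtain ⟨a, ha⟩ := card_pos.1 h2
    rw [mem_below] at ha
    refine ⟨a + a, ?_⟩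
    rw [pow_zero, Nat.one_le_iff_ne_zero, ← Nat.pos_iff_ne_zero]
    unfold rep
    refine card_pos.2 ⟨(a, a), ?_⟩
    rw [mem_filter, HasAntidiagonal.mem_antidiagonal]
    exact ⟨rfl, ha.2, ha.2⟩
  | succ t ih =>
    intro A m k hA hdvd hlt hfew hns
    by_contra hcon
    push Not at hcon
    have hK : ∀ᶠ x : ℕ in atTop, ∑ n ∈ range x, (rep A n : ℝ) ^ 2 ≤ (2 ^ (t + 1)) ^ 2 * x := by
      refine Filter.Eventually.of_forall fun x => ?_
      calc ∑ n ∈ range x, (rep A n : ℝ) ^ 2 ≤ ∑ _n ∈ range x, ((2 : ℝ) ^ (t + 1)) ^ 2 := by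
            refine Finset.sum_le_sum fun n _ => ?_
            have : (rep A n : ℝ) ≤ 2 ^ (t + 1) := by exact_mod_cast (hcon n).le
            gcongr
        _ = (2 ^ (t + 1)) ^ 2 * x := by
            rw [Finset.sum_const, card_range, nsmul_eq_mul]; ring
    have hs := part1c hA hK hdvd hlt
    have hmpos : ∀ j, 0 < m j := chain_pos hlt hdvd
    obtain ⟨j, hj⟩ : ∃ j, k j < nu A (m j) := by
      by_contra hall
      push Not at hall
      refine hns (Summable.of_nonneg_of_le
        (fun j => div_nonneg (Nat.cast_nonneg _) (sq_nonneg _)) (fun j => ?_) hs)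
      have h1 : (0 : ℝ) < nu A (m j) := by exact_mod_cast nu_pos hA (hmpos j)
      have h2 : (nu A (m j) : ℝ) ≤ k j := by exact_mod_cast hall j
      gcongr
    obtain ⟨F, hF, hF'⟩ := hfew j
    set s : Finset ℕ := {r ∈ range (m j) | ¬ Null (res A (m j) r)} with hs'
    have hcard : #F < #s := by
      refine lt_of_le_of_lt hF ?_
      have : nu A (m j) = #s := by
        unfold nu
        rw [hs']
      omega
    have hch : ∀ r, ∃ S, r ∈ s → S ∈ F ∧ Similar (res A (m j) r) S := by
      intro r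
      by_cases hr : r ∈ s
      · rw [hs', mem_filter, mem_range] at hr
        rcases hF' r hr.1 with h | ⟨S, h1, h2⟩
        · exact absurd h hr.2
        · exact ⟨S, fun _ => ⟨h1, h2⟩⟩
      · exact ⟨∅, fun h => absurd h hr⟩
    choose σ hσ using hch
    obtain ⟨r, hr, r', hr', hne, heq⟩ :=
      Finset.exists_ne_map_eq_of_card_lt_of_maps_to hcard (fun r hr => (hσ r hr).1)
    have hsim : Similar (res A (m j) r) (res A (m j) r') := by
      refine (hσ r hr).2.trans ?_
      rw [heq]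
      exact (hσ r' hr').2.symm
    rw [hs', mem_filter, mem_range] at hr hr'
    obtain ⟨u, u', huu⟩ := hsim
    set X := res A (m j) r with hX
    set X' := res A (m j) r' with hX'
    set B : Set ℕ := tr X u ∩ tr X' u' with hB
    have hBX : Null (symmDiff B (tr X u)) := by
      refine huu.mono ?_
      intro n hn
      rw [Set.mem_symmDiff] at hn ⊢
      rcases hn with ⟨h1, h2⟩ | ⟨h1, h2⟩
      · exact absurd h1.1 h2
      · exact Or.inl ⟨h1, fun h => h2 ⟨h1, h⟩⟩
    have hBnn : ¬ Null B := by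
      intro h
      refine hr.2 (Null.of_tr (u := u) ((h.union hBX).mono ?_))
      intro n hn
      by_cases h1 : n ∈ B
      · exact Or.inl h1
      · exact Or.inr (Or.inr ⟨hn, h1⟩)
    have hmm : ∀ i, m j * (m (j + i) / m j) = m (j + i) := fun i =>
      Nat.mul_div_cancel' (chain_dvd hdvd (Nat.le_add_right _ _))
    obtain ⟨N, hN⟩ := ih B (fun i => m (j + i) / m j) (fun i => k (j + i)) hBnn
      (fun i => Nat.div_dvd_div (chain_dvd hdvd (Nat.le_add_right _ _)) (hdvd (j + i)))
      (fun i => by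
        have h1 := hlt (j + i)
        rw [← hmm i, show j + i + 1 = j + (i + 1) from rfl, ← hmm (i + 1)] at h1
        exact lt_of_mul_lt_mul_left h1 (Nat.zero_le _))
      (fun i => by
        obtain ⟨G, hG, hG'⟩ := hfew (j + i)
        refine ⟨G, hG, fun q hq => ?_⟩
        obtain ⟨q', hq', v, hv⟩ := res_tr X u hq
        have h1 : res X (m (j + i) / m j) q' = res A (m (j + i)) (m j * q' + r) := by
          rw [hX, res_res, hmm]
        have h2 : m j * q' + r < m (j + i) := by
          calc m j * q' + r < m j * q' + m j := by omega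
            _ = m j * (q' + 1) := by ring
            _ ≤ m j * (m (j + i) / m j) := Nat.mul_le_mul_left _ hq'
            _ = _ := hmm i
        have hqpos : 0 < m (j + i) / m j := lt_of_le_of_lt (Nat.zero_le _) hq
        have h3 : Null (symmDiff (res B (m (j + i) / m j) q)
            (res (tr X u) (m (j + i) / m j) q)) := by
          rw [res_symmDiff]
          exact hBX.res q hqpos
        rcases hG' _ h2 with h4 | ⟨S, hS, h4⟩
        · left
          rw [← h1] at h4
          have h5 := h4.tr v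
          rw [← hv] at h5
          exact h5.mono fun n hn => hn.1
        · right
          refine ⟨S, hS, ?_⟩
          refine Similar.trans ?_ h4
          refine ⟨0, v, ?_⟩
          rw [tr_zero, ← h1, ← hv]
          exact h3)
      (fun hsum => hns (by
        have h1 := hsum.mul_left (m j : ℝ)
        rw [← summable_nat_add_iff j]
        refine h1.congr fun i => ?_
        have h2 : (m j : ℝ) * ((m (j + i) / m j : ℕ) : ℝ) = m (j + i) := by exact_mod_cast hmm i
        rw [← mul_div_assoc, h2, Nat.add_comm j i]))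
    have h1 := double (A := A) (B := B) hr.1 hr'.1 hne (fun n hn => ⟨hn.1, hn.2⟩) N
    have h2 := hcon (m j * (N - (u + u')) + (r + r'))
    rw [pow_succ] at h2
    omega

end Pool.Agent.Helper25.RC
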