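import Pool.Agent.Helper25.RC.Star
import Pool.Agent.Helper25.RC.Residual
import Pool.Agent.Helper5.RC.Sharp
import Pool.Agent.Helper99.RC.Example

/-!
The residue classes met by a set with few representations.

`A` is null if it has `o(√x)` elements below `x`; `nu A q` is the number of residue classes modulo
`q` in which `A` is not null.
-/

set_option autoImplicit false

open Finset Filter Pool.Agent.Helper25.RC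

namespace Pool.Agent.Results.MP_12a1af_nt.ResidueClasses

open Classical in
theorem result :
    (∀ (A : Set ℕ) (K : ℝ), ¬ Null A →
      (∀ᶠ x : ℕ in atTop, ∑ n ∈ range x, (rep A n : ℝ) ^ 2 ≤ K * x) →
      -- one inequality for all finite families of moduli
      (∃ C : ℝ, ∀ (Q : Finset ℕ) (w : ℕ → ℝ), (∀ q ∈ Q, 0 < q) → (∀ q ∈ Q, 0 ≤ w q) →
        (∑ q ∈ Q, w q * ((q : ℝ) / nu A q - 1)) ^ 2 ≤
          C * ∑ q ∈ Q, ∑ q' ∈ Q, w q * w q' * ((Nat.gcd q q' : ℝ) - 1)) ∧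
      -- hence
      (∀ C : ℝ, ∀ᶠ q : ℕ in atTop, C * √q < nu A q) ∧
      (∃ B : ℝ, ∀ Q : Finset ℕ, (∀ q ∈ Q, 1 < q) →
        (∀ q ∈ Q, ∀ q' ∈ Q, q ≠ q' → Nat.Coprime q q') →
        ∑ q ∈ Q, ((q : ℝ) / nu A q - 1) ^ 2 / q ≤ B) ∧
      (∀ ε : ℝ, 0 < ε → ∃ C : ℝ, ∀ (N : ℕ) (δ : ℝ), 0 ≤ δ → δ ≤ 1 / 2 →
        (#{q ∈ Icc 1 N | (nu A q : ℝ) ≤ (q : ℝ) ^ (1 - δ)} : ℝ) ≤ C * (N : ℝ) ^ (1 - 2 * δ + ε)) ∧
      (∀ m : ℕ → ℕ, (∀ j, m j ∣ m (j + 1)) → (∀ j, m j < m (j + 1)) →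
        (Summable fun j => (m j : ℝ) / (nu A (m j) : ℝ) ^ 2) ∧
        ∀ g : ℕ, (∀ n, rep A n ≤ g) → ∀ k : ℕ → ℕ, (∀ j, FewResiduals A (m j) (k j)) →
          Summable fun j => (m j : ℝ) / (k j : ℝ) ^ 2)) ∧
    -- sharpness
    (∀ (m : ℕ → ℕ) (L : ℕ) (N : ℕ → ℝ), (∀ j, m j ∣ m (j + 1)) → (∀ j, m j < m (j + 1)) →
      (∀ j, m (j + 1) ≤ L * m j) → (∀ j, 0 < N j) →
      ((∃ (A : Set ℕ) (C : ℝ), (∀ x : ℕ, 2 ≤ x → √x ≤ C * #(below A x)) ∧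
        (∀ x : ℕ, ∑ n ∈ range x, (rep A n : ℝ) ^ 2 ≤ C * x) ∧
        ∀ j, (((fun a => a % m j) '' A).ncard : ℝ) ≤ C * N j) ↔
        Summable fun j => (m j : ℝ) / N j ^ 2)) ∧
    (∃ (A : Set ℕ) (K : ℝ), (∀ x : ℕ, 2 ≤ x → √x ≤ K * #(below A x)) ∧
      (∀ x : ℕ, ∑ n ∈ range x, (rep A n : ℝ) ^ 2 ≤ K * x) ∧
      ∀ ε : ℝ, 0 < ε → ∃ c : ℝ, 0 < c ∧ ∀ (N : ℕ) (δ : ℝ), 1 ≤ N → 0 ≤ δ → δ ≤ 1 / 2 →
        c * (N : ℝ) ^ (1 - 2 * δ - ε) ≤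
          (#{q ∈ Icc 1 N | (nu A q : ℝ) ≤ (q : ℝ) ^ (1 - δ)} : ℝ)) := by
  refine ⟨fun A K hA hK => ⟨star hA hK, fun C => part1 hA hK C, part1b hA hK, fun ε hε => ?_,
    fun m h1 h2 => ⟨part1c hA hK h1 h2, fun g hg k hk => ?_⟩⟩, fun m L N hdvd hlt hL hN =>
      Pool.Agent.Helper5.RC.sharp_iff ⟨chain_pos hlt hdvd 0, hdvd, fun j => ?_⟩ hL hN, ?_⟩
  · obtain ⟨C, _, hC⟩ := Pool.Agent.Helper99.RC.exceptional hA hK hε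
    exact ⟨C, hC⟩
  · by_contra hcon
    obtain ⟨n, hn⟩ := residual g A m k hA h1 h2 hk hcon
    have h3 := hg n
    have h4 := Nat.lt_two_pow_self (n := g)
    omega
  · have := chain_two hlt hdvd (Nat.le_succ j)
    simpa using this
  · obtain ⟨A, K, _, h1, h2, h3⟩ := Pool.Agent.Helper99.RC.example_sharp
    exact ⟨A, K, h1, h2, h3⟩

end Pool.Agent.Results.MP_12a1af_nt.ResidueClasses
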