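import Pool.Agent.Helper25.RC.Coprime

/-!
One inequality between the numbers of residue classes modulo all moduli.
-/

set_option autoImplicit false

open Finset Filter

namespace Pool.Agent.Helper25.RC

/-- The main inequality with the mean value removed. -/
theorem energy_star (S : Finset ℕ) {x : ℕ} (hS : S ⊆ range x) (Q : Finset ℕ)
    (hQ : ∀ q ∈ Q, 0 < q) (hx : ∏ q ∈ Q, q ≤ x) (w : ℕ → ℝ) :
    (∑ q ∈ Q, w q * (q * (cong S q : ℝ) - (#S : ℝ) ^ 2)) ^ 2 ≤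
      3 * x * (∑ n ∈ range (2 * x), (repF S n : ℝ) ^ 2) *
        ∑ q ∈ Q, ∑ q' ∈ Q, w q * w q' * ((Nat.gcd q q' : ℝ) - 1) := by
  classical
  set M : ℕ := ∏ q ∈ Q, q with hM
  have hMpos : 0 < M := Finset.prod_pos hQ
  have hQM : ∀ q ∈ Q, q ∣ M := fun q hq => Finset.dvd_prod_of_mem (fun q => q) hq
  set W : ℝ := ∑ q ∈ Q, w q with hW
  set u : ℕ → ℝ := fun q => (if q ∈ Q then w q else 0) - (if q = 1 then W else 0) with hu
  set Q' : Finset ℕ := insert 1 Q with hQ'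
  have h1Q' : 1 ∈ Q' := mem_insert_self 1 Q
  have hsub : Q ⊆ Q' := subset_insert 1 Q
  -- sums against `u`
  have hsum : ∀ f : ℕ → ℝ, ∑ q ∈ Q', u q * f q = ∑ q ∈ Q, w q * f q - W * f 1 := by
    intro f
    simp only [hu, sub_mul, Finset.sum_sub_distrib]
    congr 1
    · rw [← Finset.sum_subset hsub (f := fun q => (if q ∈ Q then w q else 0) * f q)]
      · refine Finset.sum_congr rfl fun q hq => ?_
        rw [if_pos hq]
      · intro q _ hq
        rw [if_neg hq, zero_mul]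
    · rw [Finset.sum_eq_single 1]
      · rw [if_pos rfl]
      · intro q _ hq
        rw [if_neg hq, zero_mul]
      · intro h
        exact absurd h1Q' h
  have hen := energy S hS hMpos hx Q' (by
    intro q hq
    rcases mem_insert.1 hq with rfl | h
    · exact one_dvd _
    · exact hQM q h) u
  have hL : ∑ q ∈ Q', u q * (q * (cong S q : ℝ)) =
      ∑ q ∈ Q, w q * (q * (cong S q : ℝ) - (#S : ℝ) ^ 2) := by
    rw [hsum fun q => q * (cong S q : ℝ), cong_one]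
    simp only [mul_sub, Finset.sum_sub_distrib]
    rw [← Finset.sum_mul]
    push_cast
    ring
  have hR : ∑ q ∈ Q', ∑ q' ∈ Q', u q * u q' * (Nat.gcd q q' : ℝ) =
      ∑ q ∈ Q, ∑ q' ∈ Q, w q * w q' * ((Nat.gcd q q' : ℝ) - 1) := by
    have h1 : ∀ q, ∑ q' ∈ Q', u q * u q' * (Nat.gcd q q' : ℝ) =
        u q * (∑ q' ∈ Q, w q' * (Nat.gcd q q' : ℝ) - W) := by
      intro q
      have h2 := hsum fun q' => (Nat.gcd q q' : ℝ)
      simp only [Nat.gcd_one_right, Nat.cast_one, mul_one] at h2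
      rw [← h2, Finset.mul_sum]
      refine Finset.sum_congr rfl fun q' _ => ?_
      ring
    rw [Finset.sum_congr rfl fun q _ => h1 q,
      hsum fun q => ∑ q' ∈ Q, w q' * (Nat.gcd q q' : ℝ) - W]
    simp only [Nat.gcd_one_left, Nat.cast_one, mul_one]
    rw [← hW, sub_self, mul_zero, sub_zero]
    refine Finset.sum_congr rfl fun q _ => ?_
    rw [hW, ← Finset.sum_sub_distrib, Finset.mul_sum]
    refine Finset.sum_congr rfl fun q' _ => ?_
    ring
  rw [hL, hR] at hen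
  exact hen

/-- One inequality for all finite families of moduli. -/
theorem star {A : Set ℕ} (hA : ¬ Null A) {K : ℝ}
    (hK : ∀ᶠ x : ℕ in atTop, ∑ n ∈ range x, (rep A n : ℝ) ^ 2 ≤ K * x) :
    ∃ C : ℝ, ∀ (Q : Finset ℕ) (w : ℕ → ℝ), (∀ q ∈ Q, 0 < q) → (∀ q ∈ Q, 0 ≤ w q) →
      (∑ q ∈ Q, w q * ((q : ℝ) / nu A q - 1)) ^ 2 ≤
        C * ∑ q ∈ Q, ∑ q' ∈ Q, w q * w q' * ((Nat.gcd q q' : ℝ) - 1) := by
  classical
  obtain ⟨δ, hδ, hfx⟩ := not_null_iff.1 hA
  set K' : ℝ := max K 1 with hK'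
  have hK0 : 0 < K' := lt_of_lt_of_le one_pos (le_max_right _ _)
  refine ⟨24 * K' / δ ^ 4, fun Q w hQ hw => ?_⟩
  have hQpos : ∀ q ∈ Q, (0 : ℝ) < q := by
    intro q hq
    exact_mod_cast hQ q hq
  have hν : ∀ q ∈ Q, (0 : ℝ) < nu A q := by
    intro q hq
    exact_mod_cast nu_pos hA (hQ q hq)
  set h : ℕ → ℝ := fun q => (q : ℝ) / nu A q - 1 with hh
  have hh0 : ∀ q ∈ Q, 0 ≤ h q := by
    intro q hq
    simp only [hh]
    rw [sub_nonneg, le_div_iff₀ (hν q hq), one_mul]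
    exact_mod_cast nu_le A q
  set Y : ℝ := ∑ q ∈ Q, w q * h q with hY
  have hY0 : 0 ≤ Y := Finset.sum_nonneg fun q hq => mul_nonneg (hw q hq) (hh0 q hq)
  set G : ℝ := ∑ q ∈ Q, ∑ q' ∈ Q, w q * w q' * ((Nat.gcd q q' : ℝ) - 1) with hG
  have hG0 : 0 ≤ G := Finset.sum_nonneg fun q hq => Finset.sum_nonneg fun q' hq' => by
    have h1 : (1 : ℝ) ≤ (Nat.gcd q q' : ℝ) := by
      exact_mod_cast Nat.gcd_pos_of_pos_left q' (hQ q hq)
    have h2 : 0 ≤ (Nat.gcd q q' : ℝ) - 1 := by linarith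
    exact mul_nonneg (mul_nonneg (hw q hq) (hw q' hq')) h2
  rcases hY0.eq_or_lt with hY1 | hY1
  · rw [← hY1]
    have : 0 ≤ 24 * K' / δ ^ 4 * G := by positivity
    simpa using this
  set Z : ℝ := ∑ q ∈ Q, w q * ((q : ℝ) / nu A q) with hZ
  have hZY : Y ≤ Z := by
    rw [hY, hZ]
    refine Finset.sum_le_sum fun q hq => mul_le_mul_of_nonneg_left ?_ (hw q hq)
    simp only [hh]
    linarith
  have hZ0 : 0 < Z := hY1.trans_le hZY
  set ε : ℝ := δ * Y / (4 * Z) with hε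
  have hε0 : 0 < ε := by positivity
  have hεδ : ε ≤ δ := by
    rw [hε, div_le_iff₀ (by positivity)]
    nlinarith
  have hE1 : ∀ᶠ x : ℕ in atTop, ∀ q ∈ Q, ε * √x ≤ #(below A x) →
      ((#(below A x) : ℝ) - ε * √x) ^ 2 ≤ nu A q * (cong (below A x) q : ℝ) := by
    rw [Filter.eventually_all_finset]
    intro q hq
    exact cong_ge_nu A (hQ q hq) hε0
  have ht : Tendsto (fun x : ℕ => 2 * x) atTop atTop :=
    tendsto_atTop_mono (fun x => by show x ≤ 2 * x; omega) tendsto_id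
  obtain ⟨x, hxT, hx1, hx2, hx3, hx4⟩ := (hfx.and_eventually (hE1.and
    ((eventually_ge_atTop (∏ q ∈ Q, q)).and
    ((ht.eventually hK).and (eventually_ge_atTop 1))))).exists
  set S := below A x with hS
  have hSx : S ⊆ range x := below_subset_range A x
  have hxr : (1 : ℝ) ≤ x := by exact_mod_cast hx4
  set T : ℝ := (#S : ℝ) with hT
  have hs0 : (0 : ℝ) < √x := Real.sqrt_pos.2 (by linarith)
  have hTpos : 0 < T := lt_of_le_of_lt (by positivity) hxT
  have hTε : ε * √x ≤ T := by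
    refine le_trans ?_ hxT.le
    gcongr
  have hkey : ∀ q ∈ Q, T ^ 2 * h q - T ^ 2 * (Y / (2 * Z)) * ((q : ℝ) / nu A q) ≤
      q * (cong S q : ℝ) - T ^ 2 := by
    intro q hq
    have h1 := hx1 q hq hTε
    have h2 : T ^ 2 - T ^ 2 * (Y / (2 * Z)) ≤ (T - ε * √x) ^ 2 := by
      have h3 : 2 * T * (ε * √x) ≤ T ^ 2 * (Y / (2 * Z)) := by
        have h4 : 2 * T * (ε * √x) = T * (δ * √x) * (Y / (2 * Z)) := by
          rw [hε]
          field_simp
          ring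
        rw [h4]
        have h5 : T * (δ * √x) ≤ T ^ 2 := by nlinarith
        gcongr
      nlinarith [sq_nonneg (ε * √x)]
    have h5 : (T ^ 2 - T ^ 2 * (Y / (2 * Z))) / nu A q ≤ (cong S q : ℝ) := by
      rw [div_le_iff₀ (hν q hq)]
      calc T ^ 2 - T ^ 2 * (Y / (2 * Z)) ≤ (T - ε * √x) ^ 2 := h2
        _ ≤ nu A q * (cong S q : ℝ) := h1
        _ = _ := mul_comm _ _
    have h6 := mul_le_mul_of_nonneg_left h5 (hQpos q hq).le
    have h7 : T ^ 2 * h q - T ^ 2 * (Y / (2 * Z)) * ((q : ℝ) / nu A q) =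
        q * ((T ^ 2 - T ^ 2 * (Y / (2 * Z))) / nu A q) - T ^ 2 := by
      simp only [hh]
      ring
    rw [h7]
    linarith
  have hsum : T ^ 2 * (Y / 2) ≤ ∑ q ∈ Q, w q * (q * (cong S q : ℝ) - T ^ 2) := by
    calc T ^ 2 * (Y / 2) = T ^ 2 * Y - T ^ 2 * (Y / (2 * Z)) * Z := by
          field_simp
          ring
      _ = ∑ q ∈ Q, w q * (T ^ 2 * h q - T ^ 2 * (Y / (2 * Z)) * ((q : ℝ) / nu A q)) := by
          have e1 : T ^ 2 * Y = ∑ q ∈ Q, w q * (T ^ 2 * h q) := by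
            rw [hY, Finset.mul_sum]
            refine Finset.sum_congr rfl fun q _ => ?_
            ring
          have e2 : T ^ 2 * (Y / (2 * Z)) * Z =
              ∑ q ∈ Q, w q * (T ^ 2 * (Y / (2 * Z)) * ((q : ℝ) / nu A q)) := by
            have : ∀ c : ℝ, c * Z = ∑ q ∈ Q, w q * (c * ((q : ℝ) / nu A q)) := by
              intro c
              rw [hZ, Finset.mul_sum]
              refine Finset.sum_congr rfl fun q _ => ?_
              ring
            exact this _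
          rw [e1, e2, ← Finset.sum_sub_distrib]
          refine Finset.sum_congr rfl fun q _ => ?_
          ring
      _ ≤ _ := Finset.sum_le_sum fun q hq => mul_le_mul_of_nonneg_left (hkey q hq) (hw q hq)
  have hen := energy_star S hSx Q hQ hx2 w
  have hE : ∑ n ∈ range (2 * x), (repF S n : ℝ) ^ 2 ≤ 2 * K' * x := by
    calc ∑ n ∈ range (2 * x), (repF S n : ℝ) ^ 2 ≤ ∑ n ∈ range (2 * x), (rep A n : ℝ) ^ 2 := by
          refine Finset.sum_le_sum fun n _ => ?_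
          have : (repF S n : ℝ) ≤ rep A n := by exact_mod_cast repF_below_le A x n
          gcongr
      _ ≤ K * ((2 * x : ℕ) : ℝ) := hx3
      _ ≤ K' * ((2 * x : ℕ) : ℝ) := by
          gcongr
          exact le_max_left _ _
      _ = 2 * K' * x := by push_cast; ring
  have hT2 : δ ^ 2 * x ≤ T ^ 2 := by
    have h1 : (δ * √x) ^ 2 ≤ T ^ 2 := by gcongr
    rwa [mul_pow, Real.sq_sqrt (by positivity)] at h1
  have h1 : (δ ^ 2 * x * (Y / 2)) ^ 2 ≤ 3 * x * (2 * K' * x) * G := by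
    calc (δ ^ 2 * x * (Y / 2)) ^ 2 ≤ (T ^ 2 * (Y / 2)) ^ 2 := by gcongr
      _ ≤ (∑ q ∈ Q, w q * (q * (cong S q : ℝ) - T ^ 2)) ^ 2 := by gcongr
      _ ≤ _ := hen
      _ ≤ 3 * x * (2 * K' * x) * G := by gcongr
  have hx0 : (0 : ℝ) < x := by linarith
  rw [div_mul_eq_mul_div, le_div_iff₀ (by positivity)]
  have h2 : (x : ℝ) ^ 2 / 4 * (Y ^ 2 * δ ^ 4) ≤ (x : ℝ) ^ 2 / 4 * (24 * K' * G) := by
    calc (x : ℝ) ^ 2 / 4 * (Y ^ 2 * δ ^ 4) = (δ ^ 2 * x * (Y / 2)) ^ 2 := by ring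
      _ ≤ 3 * x * (2 * K' * x) * G := h1
      _ = (x : ℝ) ^ 2 / 4 * (24 * K' * G) := by ring
  exact le_of_mul_le_mul_left h2 (by positivity)

end Pool.Agent.Helper25.RC
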